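import Pool.Agent.H48.PL.Glob
import Pool.Agent.H48.PL.Ang
import Pool.Agent.H48.PL.WkI
import Pool.Agent.H25.Kin.BGeo
import Pool.Agent.H25.Kin.Cap

/-!
# Block J (MP_c15324_an): a test function of degree slightly larger than one

`phiJ p τ e e' (v) = |v_e|^p + |v_e + τ v_e'|^p`, `1 < p` close to `1`, `τ` small: its collision production is positive on all thin pairs
(`|V_e| ≤ δ|V|`) and on all pairs of non comparable velocities, for every kernel with `2s < 1` (helper85).

For one linear form `F(v) = dot f v` put `m = F(v+w)/2`, `X = |v-w|/2`, `k = dirk v w`, `κ = dot f k`: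
`F(post) = m + X dot f σ`, `F(post') = m - X dot f σ`, `F(v) = m + X κ`, `F(w) = m - X κ`, so the increment of `|F|^p` is
`Hp p m (X dot f σ) - Hp p m (X κ)`, `Hp p m y = |m+y|^p + |m-y|^p`. By the reflection `refl k` (it preserves `surf`, `kerB`),
`σ` may be replaced by the average of `σ` and `refl k σ`: `dot f σ = x κ + t`, `dot f (refl k σ) = x κ - t`, `x = cosTh v w σ`.
-/

set_option autoImplicit false

open MeasureTheory Set Filter Topology Pool.Agent.H25.Kin Pool.Agent.H48.PL Pool.Agent.H82.CM

namespace Pool.Agent.H15.UP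

variable {d : ℕ}

/-- `|m+y|^p + |m-y|^p` -/
noncomputable def Hp (p m y : ℝ) : ℝ := |m + y| ^ p + |m - y| ^ p

/-- the power of a linear form -/
noncomputable def lfp (p : ℝ) (f v : Vec d) : ℝ := |dot f v| ^ p

/-- the vector `e + τ e'` -/
noncomputable def fv (τ : ℝ) (e e' : Fin d) : Vec d := Pi.single e 1 + τ • Pi.single e' 1

/-- `|v_e|^p + |v_e + τ v_e'|^p` -/
noncomputable def phiJ (p τ : ℝ) (e e' : Fin d) (v : Vec d) : ℝ := |v e| ^ p + |v e + τ * v e'| ^ p

end Pool.Agent.H15.UP
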