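import Pool.Agent.H15.UP.Defs

/-!
# Module KerG: lower bounds of angular integrals

`ker_low0`: `kerB ≥ 0` (`kerB_nonneg`), so `∫ kerB F ≥ -L ∫ kerB (1-cosTh)^τ ≥ -L A len^γ`: `ker_small` (H48/PL/Ang) with `u = 2`; `{1-cosTh ≤ 2}` is a.e. everything
(`abs_cosTh_le`, `surf_ae`; copy the proof of `ainc_abs` in H48/PL/Pov1). Integrability of `kerB * F`: `inner_integrable` (Kin/BInner).

`ker_lowG`: on the ball `S = {nsq σ = 1 ∧ nsq (σ - σ₀) ≤ r²}` also `kerB ≥ cb len^γ` (cut-off inactive, `0 ≤ x < 1`, `LowB` with `(1-x)^(-β) ≥ 1`), so `kerB F ≥ cb len^γ G - L kerB (1-x)^τ`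
there, and `kerB F ≥ -L kerB (1-x)^τ` off the ball: `∫ kerB F ≥ cb len^γ G surf(S) - A L len^γ`, `surf S ≥ c r^(d-1)` (`cap_low`). `cc = cb c`. (`kerB F + L kerB (1-x)^τ ≥ S.indicator (cb len^γ G)`.)
-/

set_option autoImplicit false

open MeasureTheory Set Filter Topology Pool.Agent.H25.Kin Pool.Agent.H48.PL Pool.Agent.H82.CM

namespace Pool.Agent.H15.UP

variable {d : ℕ} {γ s C Ca cb : ℝ} {b : ℝ → ℝ}

private lemma kg_core (H : Hyp d γ s b C Ca) {τ : ℝ} (hτ : s < τ) (hτ1 : τ ≤ 1) :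
    ∃ A : ℝ, 0 ≤ A ∧ ∀ ε : ℝ, 0 < ε → ∀ v w : Vec d, v ≠ w →
      Integrable (fun σ => kerB γ b ε v w σ * (1 - cosTh v w σ) ^ τ) (surf d) ∧
      ∫ σ, kerB γ b ε v w σ * (1 - cosTh v w σ) ^ τ ∂(surf d) ≤ A * len (v - w) ^ γ := by
  obtain ⟨A, hA, h⟩ := ker_small H hτ hτ1
  refine ⟨A * 2 ^ (τ - s), by positivity, fun ε hε v w hvw => ?_⟩
  obtain ⟨hi, hle⟩ := h ε hε v w hvw 2 (by norm_num)
  have hae : ∀ᵐ σ ∂(surf d), σ ∈ {σ : Vec d | 1 - cosTh v w σ ≤ 2} := by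
    filter_upwards [surf_ae] with σ hσ
    have h1 := (abs_le.1 (abs_cosTh_le (v := v) (w := w) hσ)).1
    show 1 - cosTh v w σ ≤ 2
    linarith
  have hres : (surf d).restrict {σ : Vec d | 1 - cosTh v w σ ≤ 2} = surf d :=
    Measure.restrict_eq_self_of_ae_mem hae
  rw [IntegrableOn, hres] at hi
  rw [hres] at hle
  refine ⟨hi, hle.trans (le_of_eq ?_)⟩
  ring

theorem ker_low0 (HL : HypL d γ s b C Ca cb) {τ : ℝ} (hτ : s < τ) (hτ1 : τ ≤ 1) :
    ∃ A : ℝ, 0 ≤ A ∧ ∀ ε : ℝ, 0 < ε → ∀ v w : Vec d, v ≠ w → ∀ F : Vec d → ℝ, Measurable F →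
      ∀ F0 : ℝ, (∀ σ, nsq σ = 1 → |F σ| ≤ F0) → ∀ L : ℝ, 0 ≤ L →
      (∀ σ, nsq σ = 1 → -(L * (1 - cosTh v w σ) ^ τ) ≤ F σ) →
      -(A * L) * len (v - w) ^ γ ≤ ∫ σ, kerB γ b ε v w σ * F σ ∂(surf d) := by
  have H := HL.H
  obtain ⟨A, hA, h⟩ := kg_core H hτ hτ1
  refine ⟨A, hA, fun ε hε v w hvw F hF F0 hF0 L hL hlow => ?_⟩
  obtain ⟨hi, hle⟩ := h ε hε v w hvw
  have hFi := inner_integrable (γ := γ) (v := v) (w := w) H.bm H.bd H.β0 hε hF hF0
  have h1 : ∫ σ, -L * (kerB γ b ε v w σ * (1 - cosTh v w σ) ^ τ) ∂(surf d) ≤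
      ∫ σ, kerB γ b ε v w σ * F σ ∂(surf d) := by
    refine integral_mono_ae (hi.const_mul _) hFi ?_
    filter_upwards [surf_ae] with σ hσ
    have hk := kerB_nonneg (γ := γ) H.bd hε (v := v) (w := w) hσ
    have h2 := mul_le_mul_of_nonneg_left (hlow σ hσ) hk
    calc -L * (kerB γ b ε v w σ * (1 - cosTh v w σ) ^ τ) =
        kerB γ b ε v w σ * -(L * (1 - cosTh v w σ) ^ τ) := by ring
      _ ≤ _ := h2
  rw [integral_const_mul] at h1
  have h3 := mul_le_mul_of_nonneg_left hle hL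
  linarith

theorem ker_lowG (HL : HypL d γ s b C Ca cb) {τ : ℝ} (hτ : s < τ) (hτ1 : τ ≤ 1) :
    ∃ A cc : ℝ, 0 ≤ A ∧ 0 < cc ∧ ∀ ε : ℝ, 0 < ε → ∀ v w : Vec d, v ≠ w → ∀ F : Vec d → ℝ,
      Measurable F → ∀ F0 : ℝ, (∀ σ, nsq σ = 1 → |F σ| ≤ F0) → ∀ L G r : ℝ, 0 ≤ L → 0 ≤ G →
      0 < r → r ≤ 1 → ∀ σ₀ : Vec d, nsq σ₀ = 1 →
      (∀ σ, nsq σ = 1 → -(L * (1 - cosTh v w σ) ^ τ) ≤ F σ) →
      (∀ σ, nsq σ = 1 → nsq (σ - σ₀) ≤ r ^ 2 → 0 ≤ cosTh v w σ ∧ cosTh v w σ ≤ 1 - ε ∧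
        G - L * (1 - cosTh v w σ) ^ τ ≤ F σ) →
      (cc * r ^ ((d : ℝ) - 1) * G - A * L) * len (v - w) ^ γ ≤
        ∫ σ, kerB γ b ε v w σ * F σ ∂(surf d) := by
  have H := HL.H
  obtain ⟨hcb, hlo⟩ := HL.lo
  obtain ⟨A, hA, h⟩ := kg_core H hτ hτ1
  obtain ⟨c, hc, hcap⟩ := cap_low H.hd
  refine ⟨A, cb * c, hA, by positivity, ?_⟩
  intro ε hε v w hvw F hF F0 hF0 L G r hL hG hr hr1 σ₀ hσ₀ hlow hball
  obtain ⟨hi, hle⟩ := h ε hε v w hvw
  have hFi := inner_integrable (γ := γ) (v := v) (w := w) H.bm H.bd H.β0 hε hF hF0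
  have hlen : 0 ≤ len (v - w) ^ γ := Real.rpow_nonneg (len_nonneg _) _
  set S : Set (Vec d) := {σ | nsq σ = 1 ∧ nsq (σ - σ₀) ≤ r ^ 2} with hS
  have hSm : MeasurableSet S := by
    have c1 : Continuous fun σ : Vec d => nsq σ := by unfold nsq; fun_prop
    have c2 : Continuous fun σ : Vec d => nsq (σ - σ₀) := by unfold nsq; fun_prop
    exact (isClosed_eq c1 continuous_const).measurableSet.inter
      (isClosed_le c2 continuous_const).measurableSet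
  have hcS : c * r ^ ((d : ℝ) - 1) ≤ (surf d).real S := by
    have h1 := hcap σ₀ hσ₀ r hr hr1
    have h2 := ENNReal.toReal_mono (measure_ne_top _ _) h1
    rwa [ENNReal.toReal_ofReal (by positivity)] at h2
  have hSi : Integrable (S.indicator fun _ => cb * len (v - w) ^ γ * G) (surf d) :=
    (integrable_const _).indicator hSm
  have h1 : ∫ σ, (S.indicator (fun _ => cb * len (v - w) ^ γ * G) σ -
      L * (kerB γ b ε v w σ * (1 - cosTh v w σ) ^ τ)) ∂(surf d) ≤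
      ∫ σ, kerB γ b ε v w σ * F σ ∂(surf d) := by
    refine integral_mono_ae (hSi.sub (hi.const_mul _)) hFi ?_
    filter_upwards [surf_ae] with σ hσ
    have hk := kerB_nonneg (γ := γ) H.bd hε (v := v) (w := w) hσ
    by_cases hσS : σ ∈ S
    · rw [Set.indicator_of_mem hσS]
      obtain ⟨h3, h4, h5⟩ := hball σ hσ hσS.2
      have h6 : cb * len (v - w) ^ γ ≤ kerB γ b ε v w σ := by
        unfold kerB
        rw [if_pos h4]
        have h7 := hlo (cosTh v w σ) h3 (by linarith)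
        have h8 : (1 : ℝ) ≤ (1 - cosTh v w σ) ^ (-(((d : ℝ) - 1) / 2 + s)) :=
          Real.one_le_rpow_of_pos_of_le_one_of_nonpos (by linarith) (by linarith)
            (by have := H.β0; linarith)
        have h9 : cb ≤ b (cosTh v w σ) :=
          (le_mul_of_one_le_right hcb.le h8).trans h7
        calc cb * len (v - w) ^ γ = len (v - w) ^ γ * cb := mul_comm _ _
          _ ≤ len (v - w) ^ γ * b (cosTh v w σ) := mul_le_mul_of_nonneg_left h9 hlen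
      have h10 := mul_le_mul_of_nonneg_left h5 hk
      have h11 := mul_le_mul_of_nonneg_right h6 hG
      have h12 : kerB γ b ε v w σ * (G - L * (1 - cosTh v w σ) ^ τ) =
          kerB γ b ε v w σ * G - L * (kerB γ b ε v w σ * (1 - cosTh v w σ) ^ τ) := by ring
      rw [h12] at h10
      linarith
    · rw [Set.indicator_of_notMem hσS]
      have h2 := mul_le_mul_of_nonneg_left (hlow σ hσ) hk
      have h3 : kerB γ b ε v w σ * -(L * (1 - cosTh v w σ) ^ τ) =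
          0 - L * (kerB γ b ε v w σ * (1 - cosTh v w σ) ^ τ) := by ring
      rw [h3] at h2
      exact h2
  rw [integral_sub hSi (hi.const_mul _), integral_const_mul, integral_indicator_const _ hSm,
    smul_eq_mul] at h1
  have h3 := mul_le_mul_of_nonneg_left hle hL
  have h4 := mul_le_mul_of_nonneg_right hcS
    (by positivity : (0 : ℝ) ≤ cb * len (v - w) ^ γ * G)
  have h5 : (cb * c * r ^ ((d : ℝ) - 1) * G - A * L) * len (v - w) ^ γ =
      c * r ^ ((d : ℝ) - 1) * (cb * len (v - w) ^ γ * G) - L * (A * len (v - w) ^ γ) := by ring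
  rw [h5]
  linarith

end Pool.Agent.H15.UP
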