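import Pool.Agent.H15.UP.Defs

/-!
# Module LfB: the increment of the power of a linear form, symmetrized

`m = dot f (v+w)/2`, `y₀ = dot f (v-w)/2`, `X = len(v-w)/2`. `dot f v = m + y₀`, `dot f w = m - y₀`, `dot f (post v w σ) = m + X dot f σ`, `dot f (post') = m - X dot f σ` (definitions of `post`,
`post'`, `dot_add`, `dot_smul`). `X dot f (refl k σ) = 2 x y₀ - X dot f σ`, `k = dirk v w`, `x = cosTh v w σ` (`refl_apply`, `cosTh_eq`, `X dot f k = y₀` by `len_smul_dirk`).
So with `T = tT f v w σ = X dot f σ - x y₀`: `X dot f σ = x y₀ + T`, `X dot f (refl k σ) = x y₀ - T`. `ainc_lfp`: `inner_eq` (Kin/BInner).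
`lfp_le`, `sI_bdd`: `|dot f u| ≤ len f len u` (`dot_sq_le`), `len (post) ≤ ..` (`energy_post`), or continuity on the compact sphere; any bound `F0` depending on `v, w, f, p` is fine. `sI_meas`: continuity of
`|.|^p` (`p ≥ 0`), measurability of `cosTh` (`measurable_cosTh'`), `dot_cont`.
-/

set_option autoImplicit false

open MeasureTheory Set Filter Topology Pool.Agent.H25.Kin Pool.Agent.H48.PL Pool.Agent.H82.CM

namespace Pool.Agent.H15.UP

variable {d : ℕ} {γ s C Ca : ℝ} {b : ℝ → ℝ} {p : ℝ} {f v w σ : Vec d}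

/-- transversal part of the linear form -/
noncomputable def tT (f v w σ : Vec d) : ℝ :=
  len (v - w) / 2 * dot f σ - cosTh v w σ * (dot f (v - w) / 2)

/-- the symmetrized increment -/
noncomputable def sI (p : ℝ) (f v w σ : Vec d) : ℝ :=
  (Hp p (dot f (v + w) / 2) (cosTh v w σ * (dot f (v - w) / 2) + tT f v w σ) +
    Hp p (dot f (v + w) / 2) (cosTh v w σ * (dot f (v - w) / 2) - tT f v w σ)) / 2 -
    Hp p (dot f (v + w) / 2) (dot f (v - w) / 2)

lemma lf_incr (p : ℝ) (f v w σ : Vec d) :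
    lfp p f (post v w σ) + lfp p f (post' v w σ) - lfp p f v - lfp p f w =
      Hp p (dot f (v + w) / 2) (len (v - w) / 2 * dot f σ) -
        Hp p (dot f (v + w) / 2) (dot f (v - w) / 2) := by
  have e1 : dot f (post v w σ) = dot f (v + w) / 2 + len (v - w) / 2 * dot f σ := by
    unfold post
    rw [dot_add, dot_smul, dot_smul]
    ring
  have e2 : dot f (post' v w σ) = dot f (v + w) / 2 - len (v - w) / 2 * dot f σ := by
    unfold post'
    rw [dot_sub, dot_smul, dot_smul]
    ring
  have e3 : dot f v = dot f (v + w) / 2 + dot f (v - w) / 2 := by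
    rw [dot_add, dot_sub]
    ring
  have e4 : dot f w = dot f (v + w) / 2 - dot f (v - w) / 2 := by
    rw [dot_add, dot_sub]
    ring
  have e5 : lfp p f v = |dot f (v + w) / 2 + dot f (v - w) / 2| ^ p := by
    unfold lfp
    rw [← e3]
  have e6 : lfp p f w = |dot f (v + w) / 2 - dot f (v - w) / 2| ^ p := by
    unfold lfp
    rw [← e4]
  rw [e5, e6]
  unfold lfp Hp
  rw [e1, e2]
  ring

lemma dot_refl_dirk (f : Vec d) (hvw : v ≠ w) (σ : Vec d) :
    len (v - w) / 2 * dot f (refl (dirk v w) σ) =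
      cosTh v w σ * (dot f (v - w) / 2) - tT f v w σ := by
  have h1 : len (v - w) * dot f (dirk v w) = dot f (v - w) := by
    rw [← dot_smul, len_smul_dirk]
  rw [refl_apply, dot_sub, dot_smul, ← cosTh_eq]
  unfold tT
  linear_combination (cosTh v w σ) * h1

lemma lfp_cont (hp : 0 ≤ p) (f : Vec d) : Continuous (lfp p f) := by
  unfold lfp
  exact (dot_cont f).abs.rpow_const fun _ => Or.inr hp

private lemma hp_bdd (hp : 0 ≤ p) (m : ℝ) {y Y : ℝ} (hy : |y| ≤ Y) :
    |Hp p m y| ≤ 2 * (|m| + Y) ^ p := by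
  have h1 : |m + y| ≤ |m| + Y := (abs_add_le m y).trans (by linarith)
  have h2 : |m - y| ≤ |m| + Y := (abs_sub m y).trans (by linarith)
  have h3 := Real.rpow_le_rpow (abs_nonneg _) h1 hp
  have h4 := Real.rpow_le_rpow (abs_nonneg _) h2 hp
  have h5 := Real.rpow_nonneg (abs_nonneg (m + y)) p
  have h6 := Real.rpow_nonneg (abs_nonneg (m - y)) p
  unfold Hp
  rw [abs_of_nonneg (by positivity)]
  linarith

/-- the increment of a power of a linear form is bounded -/
lemma lf_bdd (hp : 0 ≤ p) (f v w : Vec d) : ∃ F0, ∀ σ, nsq σ = 1 →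
    |lfp p f (post v w σ) + lfp p f (post' v w σ) - lfp p f v - lfp p f w| ≤ F0 := by
  refine ⟨2 * (|dot f (v + w) / 2| + len (v - w) / 2 * Real.sqrt (nsq f)) ^ p +
    |Hp p (dot f (v + w) / 2) (dot f (v - w) / 2)|, fun σ hσ => ?_⟩
  rw [lf_incr]
  have h1 : |dot f σ| ≤ Real.sqrt (nsq f) := by
    apply Real.abs_le_sqrt
    have := dot_sq_le f σ
    rwa [hσ, mul_one] at this
  have h0 : 0 ≤ len (v - w) / 2 := div_nonneg (len_nonneg _) (by norm_num)
  have h2 : |len (v - w) / 2 * dot f σ| ≤ len (v - w) / 2 * Real.sqrt (nsq f) := by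
    rw [abs_mul, abs_of_nonneg h0]
    exact mul_le_mul_of_nonneg_left h1 h0
  have h3 := hp_bdd hp (dot f (v + w) / 2) h2
  exact (abs_sub _ _).trans (by linarith)

private lemma hp_meas (p m : ℝ) {g : Vec d → ℝ} (hg : Measurable g) :
    Measurable fun σ => Hp p m (g σ) := by
  unfold Hp
  exact ((continuous_abs.measurable.comp (measurable_const.add hg)).pow_const p).add
    ((continuous_abs.measurable.comp (measurable_const.sub hg)).pow_const p)

private lemma tT_meas (f v w : Vec d) : Measurable fun σ => tT f v w σ := by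
  unfold tT
  exact (measurable_const.mul (dot_cont f).measurable).sub
    ((measurable_cosTh' v w).mul measurable_const)

lemma sI_meas (hp : 0 ≤ p) (f v w : Vec d) : Measurable fun σ => sI p f v w σ := by
  have hx : Measurable fun σ => cosTh v w σ * (dot f (v - w) / 2) :=
    (measurable_cosTh' v w).mul measurable_const
  unfold sI
  exact (((hp_meas p _ (hx.add (tT_meas f v w))).add
    (hp_meas p _ (hx.sub (tT_meas f v w)))).div_const 2).sub measurable_const

private lemma sI_eq (p : ℝ) (f : Vec d) (hvw : v ≠ w) (σ : Vec d) :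
    sI p f v w σ = 1 / 2 * ((lfp p f (post v w σ) + lfp p f (post' v w σ) - lfp p f v - lfp p f w) +
      (lfp p f (post v w (refl (dirk v w) σ)) + lfp p f (post' v w (refl (dirk v w) σ)) -
        lfp p f v - lfp p f w)) := by
  rw [lf_incr, lf_incr, dot_refl_dirk f hvw]
  have e : len (v - w) / 2 * dot f σ = cosTh v w σ * (dot f (v - w) / 2) + tT f v w σ := by
    unfold tT
    ring
  rw [e]
  unfold sI
  ring

lemma sI_bdd (hp : 0 ≤ p) (f : Vec d) (hvw : v ≠ w) : ∃ F0, ∀ σ, nsq σ = 1 → |sI p f v w σ| ≤ F0 := by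
  obtain ⟨F0, hF0⟩ := lf_bdd hp f v w
  refine ⟨F0, fun σ hσ => ?_⟩
  have h1 := abs_le.1 (hF0 σ hσ)
  have h2 := abs_le.1 (hF0 (refl (dirk v w) σ) (by rw [nsq_refl (nsq_dirk hvw), hσ]))
  rw [sI_eq p f hvw, abs_le]
  constructor <;> linarith [h1.1, h1.2, h2.1, h2.2]

theorem ainc_lfp (H : Hyp d γ s b C Ca) {ε : ℝ} (hε : 0 < ε) (hp : 0 ≤ p) (f : Vec d)
    (hvw : v ≠ w) :
    ainc γ b ε (lfp p f) v w = ∫ σ, kerB γ b ε v w σ * sI p f v w σ ∂(surf d) := by
  obtain ⟨F0, hF0⟩ := lf_bdd hp f v w
  have hpost : Measurable fun σ : Vec d => post v w σ := by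
    have h : Continuous fun σ : Vec d => post v w σ := by
      unfold post
      fun_prop
    exact h.measurable
  have hpost' : Measurable fun σ : Vec d => post' v w σ := by
    have h : Continuous fun σ : Vec d => post' v w σ := by
      unfold post'
      fun_prop
    exact h.measurable
  have hm : Measurable fun σ : Vec d =>
      lfp p f (post v w σ) + lfp p f (post' v w σ) - lfp p f v - lfp p f w :=
    ((((lfp_cont hp f).measurable.comp hpost).add
      ((lfp_cont hp f).measurable.comp hpost')).sub measurable_const).sub measurable_const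
  unfold ainc
  rw [inner_eq H.hd1 H.bm H.bd H.β0 hε hvw hm hF0]
  refine integral_congr_ae (Filter.Eventually.of_forall fun σ => ?_)
  simp only
  rw [sI_eq p f hvw]
  ring

end Pool.Agent.H15.UP
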