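import Pool.Agent.H15.UP.Defs

/-!
# Module NcB: a ball of directions with gain

`k = dirk v w`, `c₀ = |dot f k|/len f ≤ 1-δ`; replace `f` by `-f` (both sides are even in `f`), so `dot f k ≥ 0`; `u = f/len f`, `c₀ = k·u ∈ [0,1-δ]`, `N = |k+u|`, `N² = 2+2c₀ ∈ [2,4)`, `σ₀ = (k+u)/N`.
`k·σ₀ = u·σ₀ = (1+c₀)/N = √((1+c₀)/2) =: a₀ ≥ (1+c₀)/2` (`√t ≥ t`, `t ≤ 1`), `a₀ ≥ 7/10`, and `a₀ ≤ 1 - (1-c₀)/4 ≤ 1-δ/4` (`√t ≤ (1+t)/2`). For `|σ-σ₀| ≤ δ/8`: `|k·σ - a₀| ≤ δ/8`, `|u·σ - a₀| ≤ δ/8`: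
`x = k·σ ∈ [0, 1-δ/8]`, `u·σ ≥ (1+c₀)/2 - δ/8 ≥ c₀ + δ/2 - δ/8 ≥ c₀ + δ/4`, times `len f len(v-w)`, `len f ≥ 1`: `dot f (v-w) = len(v-w) len f c₀`.
-/

set_option autoImplicit false

open MeasureTheory Set Filter Topology Pool.Agent.H25.Kin Pool.Agent.H48.PL Pool.Agent.H82.CM

namespace Pool.Agent.H15.UP

variable {d : ℕ}

private lemma ncb_core {k u : Vec d} (hk : nsq k = 1) (hu : nsq u = 1) {δ : ℝ} (hδ : 0 < δ)
    (hδ1 : δ ≤ 1) (h0 : 0 ≤ dot k u) (h1 : dot k u ≤ 1 - δ) : ∃ σ₀ : Vec d, nsq σ₀ = 1 ∧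
      ∀ σ, nsq (σ - σ₀) ≤ (δ / 8) ^ 2 → 0 ≤ dot k σ ∧ dot k σ ≤ 1 - δ / 8 ∧
        dot k u + δ / 4 ≤ dot u σ := by
  set c : ℝ := dot k u with hc
  have hn : nsq (k + u) = 2 * (1 + c) := by
    rw [nsq_add, hk, hu, ← hc]
    ring
  set N : ℝ := len (k + u) with hN
  have hN2 : N ^ 2 = 2 * (1 + c) := by rw [hN, len_sq, hn]
  have hN0 : 0 ≤ N := len_nonneg _
  have hNp : 0 < N := by
    rcases hN0.eq_or_lt with h | h
    · rw [← h] at hN2
      nlinarith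
    · exact h
  have hNi : N⁻¹ ^ 2 * (2 * (1 + c)) = 1 := by
    rw [← hN2, ← mul_pow, inv_mul_cancel₀ hNp.ne', one_pow]
  set a : ℝ := N⁻¹ * (1 + c) with ha
  have ha0 : 0 ≤ a := by positivity
  have ha2 : a ^ 2 = (1 + c) / 2 := by
    have : a ^ 2 = N⁻¹ ^ 2 * (2 * (1 + c)) * ((1 + c) / 2) := by rw [ha]; ring
    rw [this, hNi, one_mul]
  have hlow : (1 + c) / 2 ≤ a := by nlinarith
  have hup : a ≤ 1 - δ / 4 := by nlinarith
  refine ⟨N⁻¹ • (k + u), by rw [nsq_smul, hn, hNi], fun σ hσ => ?_⟩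
  have hka : dot k (N⁻¹ • (k + u)) = a := by
    rw [dot_smul, dot_add, dot_self, hk, ← hc]
  have hua : dot u (N⁻¹ • (k + u)) = a := by
    rw [dot_smul, dot_add, dot_self, hu, dot_comm u k, ← hc, add_comm c 1]
  have hd8 : 0 ≤ δ / 8 := by linarith
  have hb : ∀ e : Vec d, nsq e = 1 → |dot e σ - dot e (N⁻¹ • (k + u))| ≤ δ / 8 := by
    intro e he
    rw [← dot_sub]
    refine abs_le_of_sq_le_sq ?_ hd8
    refine (dot_sq_le _ _).trans ?_
    rw [he, one_mul]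
    exact hσ
  have b1 := abs_le.1 (hb k hk)
  have b2 := abs_le.1 (hb u hu)
  rw [hka] at b1
  rw [hua] at b2
  refine ⟨by linarith [b1.1], by linarith [b1.2], by linarith [b2.1]⟩

theorem nc_ball {f v w : Vec d} (hvw : v ≠ w) (hf : 1 ≤ nsq f) {δ : ℝ} (hδ : 0 < δ) (hδ1 : δ ≤ 1)
    (h : |dot f (v - w)| ≤ (1 - δ) * (len f * len (v - w))) : ∃ σ₀ : Vec d, nsq σ₀ = 1 ∧
      ∀ σ, nsq σ = 1 → nsq (σ - σ₀) ≤ (δ / 8) ^ 2 → 0 ≤ cosTh v w σ ∧ cosTh v w σ ≤ 1 - δ / 8 ∧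
        |dot f (v - w)| + δ / 4 * len (v - w) ≤ len (v - w) * |dot f σ| := by
  have hlf2 : len f ^ 2 = nsq f := len_sq f
  have hlf : 1 ≤ len f := by
    have := len_nonneg f
    nlinarith
  have hlf0 : 0 < len f := by linarith
  have hL : 0 < len (v - w) := len_pos (sub_ne_zero.2 hvw)
  set k := dirk v w with hk
  have hk1 : nsq k = 1 := nsq_dirk hvw
  have hfk : dot f (v - w) = len (v - w) * dot f k := by
    rw [← dot_smul, hk, len_smul_dirk]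
  obtain ⟨e, he2, he⟩ : ∃ e : ℝ, e ^ 2 = 1 ∧ e * dot f k = |dot f k| := by
    rcases le_total 0 (dot f k) with h0 | h0
    · exact ⟨1, by norm_num, by rw [abs_of_nonneg h0, one_mul]⟩
    · exact ⟨-1, by norm_num, by rw [abs_of_nonpos h0]; ring⟩
  set u : Vec d := (e / len f) • f with hu
  have hu1 : nsq u = 1 := by
    rw [hu, nsq_smul, ← hlf2, div_pow, he2]
    field_simp
  have hku : dot k u = |dot f k| / len f := by
    rw [hu, dot_smul, dot_comm k f, ← he]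
    ring
  have hku0 : 0 ≤ dot k u := by
    rw [hku]
    positivity
  have hku1 : dot k u ≤ 1 - δ := by
    rw [hku, div_le_iff₀ hlf0]
    rw [hfk, abs_mul, abs_of_pos hL] at h
    have : len (v - w) * |dot f k| ≤ len (v - w) * ((1 - δ) * len f) := by
      refine h.trans (le_of_eq ?_)
      ring
    exact le_of_mul_le_mul_left this hL
  obtain ⟨σ₀, h1, h2⟩ := ncb_core hk1 hu1 hδ hδ1 hku0 hku1
  refine ⟨σ₀, h1, fun σ _ hσ => ?_⟩
  obtain ⟨h3, h4, h5⟩ := h2 σ hσ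
  rw [cosTh_eq, ← hk]
  refine ⟨h3, h4, ?_⟩
  have hus : len f * dot u σ = e * dot f σ := by
    rw [hu, smul_dot]
    field_simp
  have h6 : len f * dot u σ ≤ |dot f σ| := by
    rw [hus]
    refine (le_abs_self _).trans (le_of_eq ?_)
    have he1 : |e| = 1 := by
      have h10 := sq_abs e
      rw [he2] at h10
      have h11 := abs_nonneg e
      nlinarith
    rw [abs_mul, he1, one_mul]
  have h7 : |dot f k| + δ / 4 ≤ len f * dot u σ := by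
    rw [hku] at h5
    have h8 : len f * (|dot f k| / len f + δ / 4) ≤ len f * dot u σ :=
      mul_le_mul_of_nonneg_left h5 hlf0.le
    have h9 : len f * (|dot f k| / len f + δ / 4) = |dot f k| + len f * (δ / 4) := by
      field_simp
    have h10 : 1 * (δ / 4) ≤ len f * (δ / 4) :=
      mul_le_mul_of_nonneg_right hlf (by linarith)
    linarith
  rw [hfk, abs_mul, abs_of_pos hL]
  calc len (v - w) * |dot f k| + δ / 4 * len (v - w)
      = len (v - w) * (|dot f k| + δ / 4) := by ring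
    _ ≤ len (v - w) * |dot f σ| := mul_le_mul_of_nonneg_left (h7.trans h6) hL.le

end Pool.Agent.H15.UP
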