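import Pool.Agent.H15.UP.NcP
import Pool.Agent.H15.UP.NcB
import Pool.Agent.H15.UP.LfB
import Pool.Agent.H15.UP.KerG

/-!
# Module Nc: production of one linear form on pairs of non comparable velocities

`ainc` is by definition `∫ kerB (increment of lfp)`; measurability: `lfp_cont`, `continuous_post`; bound: `lf_bdd`. `ker_low0`, `ker_lowG` with `τ = (1+2s)/4 ∈ (s, 1]` (`2s < 1`).
`nc_loss`: `nc_pt`, `L = K₀((p-1)+η^..) len^p`. `nc_gain`: `nc_pt`, `nc_ptg` (`μ = δ/4`), `nc_ball`, `r = δ/8`, `G = (δ/4)²/4 len^p`, `c = cc (δ/8)^(d-1) δ²/64`, `ε₀ = δ/8`, `K = A max(K₀,K₁)`.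
-/

set_option autoImplicit false

open MeasureTheory Set Filter Topology Pool.Agent.H25.Kin Pool.Agent.H48.PL Pool.Agent.H82.CM

namespace Pool.Agent.H15.UP

variable {d : ℕ} {γ s C Ca cb : ℝ} {b : ℝ → ℝ}

private lemma nc_meas {p : ℝ} (hp : 0 ≤ p) (f v w : Vec d) :
    Measurable fun σ => lfp p f (post v w σ) + lfp p f (post' v w σ) - lfp p f v - lfp p f w := by
  have hc : Continuous fun σ : Vec d => ((v, w, σ) : Vec d × Vec d × Vec d) :=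
    continuous_const.prodMk (continuous_const.prodMk continuous_id)
  have h1 : Continuous fun σ : Vec d => lfp p f (post v w σ) :=
    (lfp_cont hp f).comp ((continuous_post (d := d)).comp hc)
  have h2 : Continuous fun σ : Vec d => lfp p f (post' v w σ) :=
    (lfp_cont hp f).comp ((continuous_post' (d := d)).comp hc)
  exact (((h1.add h2).sub continuous_const).sub continuous_const).measurable

theorem nc_loss (HL : HypL d γ s b C Ca cb) (hs1 : 2 * s < 1) : ∃ K : ℝ, 0 ≤ K ∧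
    ∀ p : ℝ, 1 ≤ p → p ≤ 2 → ∀ f : Vec d, nsq f ≤ 2 → ∀ η : ℝ, 0 < η → η ≤ 1 / 2 →
    ∀ ε : ℝ, 0 < ε → ∀ v w : Vec d, v ≠ w → len w ≤ η * len v →
    -(K * ((p - 1) + η ^ ((1 - 2 * s) / 2)) * (len (v - w) ^ γ * len (v - w) ^ p)) ≤
      ainc γ b ε (lfp p f) v w := by
  obtain ⟨K₀, hK₀, hpt⟩ := nc_pt (d := d) HL.H.hs hs1
  obtain ⟨A, hA, hker⟩ := ker_low0 HL (τ := (1 + 2 * s) / 4) (by linarith) (by linarith)
  refine ⟨A * K₀, mul_nonneg hA hK₀, ?_⟩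
  intro p hp1 hp2 f hf η hη hη2 ε hε v w hvw hw
  obtain ⟨F0, hF0⟩ := lf_bdd (p := p) (by linarith) f v w
  have hX : 0 ≤ (p - 1) + η ^ ((1 - 2 * s) / 2) :=
    add_nonneg (by linarith) (Real.rpow_nonneg hη.le _)
  have hl : 0 ≤ len (v - w) ^ p := Real.rpow_nonneg (Real.sqrt_nonneg _) _
  have h1 := hker ε hε v w hvw _ (nc_meas (p := p) (by linarith) f v w) F0 hF0
    (K₀ * ((p - 1) + η ^ ((1 - 2 * s) / 2)) * len (v - w) ^ p)
    (mul_nonneg (mul_nonneg hK₀ hX) hl)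
    (fun σ hσ => hpt p hp1 hp2 f hf η hη hη2 v w σ hvw hσ hw)
  unfold ainc
  refine le_trans (le_of_eq ?_) h1
  ring

theorem nc_gain (HL : HypL d γ s b C Ca cb) (hs1 : 2 * s < 1) : ∃ K : ℝ, 0 ≤ K ∧
    ∀ δ : ℝ, 0 < δ → δ ≤ 1 → ∃ c ε₀ : ℝ, 0 < c ∧ 0 < ε₀ ∧ ∀ p : ℝ, 1 ≤ p → p ≤ 2 →
    ∀ f : Vec d, 1 ≤ nsq f → nsq f ≤ 2 → ∀ η : ℝ, 0 < η → η ≤ 1 / 2 →
    ∀ ε : ℝ, 0 < ε → ε ≤ ε₀ → ∀ v w : Vec d, v ≠ w → len w ≤ η * len v →
    |dot f (v - w)| ≤ (1 - δ) * (len f * len (v - w)) →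
    (c - K * ((p - 1) + η ^ ((1 - 2 * s) / 2))) * (len (v - w) ^ γ * len (v - w) ^ p) ≤
      ainc γ b ε (lfp p f) v w := by
  obtain ⟨K₀, hK₀, hpt⟩ := nc_pt (d := d) HL.H.hs hs1
  obtain ⟨K₁, hK₁, hptg⟩ := nc_ptg (d := d) HL.H.hs hs1
  obtain ⟨A, cc, hA, hcc, hker⟩ := ker_lowG HL (τ := (1 + 2 * s) / 4) (by linarith) (by linarith)
  have hK : 0 ≤ max K₀ K₁ := hK₀.trans (le_max_left _ _)
  refine ⟨A * max K₀ K₁, mul_nonneg hA hK, ?_⟩
  intro δ hδ hδ1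
  refine ⟨cc * (δ / 8) ^ ((d : ℝ) - 1) * ((δ / 4) ^ 2 / 4), δ / 8, by positivity, by linarith, ?_⟩
  intro p hp1 hp2 f hf1 hf2 η hη hη2 ε hε hεδ v w hvw hw hdot
  obtain ⟨F0, hF0⟩ := lf_bdd (p := p) (by linarith) f v w
  obtain ⟨σ₀, hσ₀, hball⟩ := nc_ball hvw hf1 hδ hδ1 hdot
  have hX : 0 ≤ (p - 1) + η ^ ((1 - 2 * s) / 2) :=
    add_nonneg (by linarith) (Real.rpow_nonneg hη.le _)
  have hl : 0 ≤ len (v - w) ^ p := Real.rpow_nonneg (Real.sqrt_nonneg _) _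
  have hXl : 0 ≤ ((p - 1) + η ^ ((1 - 2 * s) / 2)) * len (v - w) ^ p := mul_nonneg hX hl
  have hcos : ∀ σ : Vec d, nsq σ = 1 → 0 ≤ (1 - cosTh v w σ) ^ ((1 + 2 * s) / 4) := by
    intro σ hσ
    apply Real.rpow_nonneg
    have h := (abs_le.1 (abs_cosTh_le (v := v) (w := w) hσ)).2
    linarith
  have h1 := hker ε hε v w hvw _ (nc_meas (p := p) (by linarith) f v w) F0 hF0
    (max K₀ K₁ * ((p - 1) + η ^ ((1 - 2 * s) / 2)) * len (v - w) ^ p)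
    ((δ / 4) ^ 2 / 4 * len (v - w) ^ p) (δ / 8)
    (mul_nonneg (mul_nonneg hK hX) hl) (by positivity) (by linarith) (by linarith) σ₀ hσ₀
    (fun σ hσ => by
      refine le_trans ?_ (hpt p hp1 hp2 f hf2 η hη hη2 v w σ hvw hσ hw)
      rw [neg_le_neg_iff]
      have h2 := mul_le_mul_of_nonneg_right (le_max_left K₀ K₁) (mul_nonneg hXl (hcos σ hσ))
      calc K₀ * ((p - 1) + η ^ ((1 - 2 * s) / 2)) * len (v - w) ^ p *
            (1 - cosTh v w σ) ^ ((1 + 2 * s) / 4)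
          = K₀ * (((p - 1) + η ^ ((1 - 2 * s) / 2)) * len (v - w) ^ p *
            (1 - cosTh v w σ) ^ ((1 + 2 * s) / 4)) := by ring
        _ ≤ max K₀ K₁ * (((p - 1) + η ^ ((1 - 2 * s) / 2)) * len (v - w) ^ p *
            (1 - cosTh v w σ) ^ ((1 + 2 * s) / 4)) := h2
        _ = _ := by ring)
    (fun σ hσ hσ2 => by
      obtain ⟨hx0, hx1, hx2⟩ := hball σ hσ hσ2
      refine ⟨hx0, by linarith, ?_⟩
      refine le_trans ?_ (hptg p hp1 hp2 f hf2 η hη hη2 v w σ hvw hσ hw (δ / 4) (by linarith)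
        (by linarith) hx2)
      have h2 := mul_le_mul_of_nonneg_right (le_max_right K₀ K₁) (mul_nonneg hXl (hcos σ hσ))
      have h3 : K₁ * ((p - 1) + η ^ ((1 - 2 * s) / 2)) * len (v - w) ^ p *
            (1 - cosTh v w σ) ^ ((1 + 2 * s) / 4) ≤
          max K₀ K₁ * ((p - 1) + η ^ ((1 - 2 * s) / 2)) * len (v - w) ^ p *
            (1 - cosTh v w σ) ^ ((1 + 2 * s) / 4) := by
        calc _ = K₁ * (((p - 1) + η ^ ((1 - 2 * s) / 2)) * len (v - w) ^ p *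
              (1 - cosTh v w σ) ^ ((1 + 2 * s) / 4)) := by ring
          _ ≤ _ := h2
          _ = _ := by ring
      linarith)
  unfold ainc
  refine le_trans (le_of_eq ?_) h1
  ring

end Pool.Agent.H15.UP
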