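import Pool.Agent.H15.UP.Defs

/-!
# Module Swap: symmetry of the angular integral; the two linear forms

* `ainc_comm`: `σ ↦ -σ` preserves `surf` (`neg_preserving`, measurable embedding: `MeasurePreserving.integral_comp`), `kerB_swap`, `post_swap`, `post'_swap`.
* `fv_nsq`: `nsq (fv τ e e') = 1 + τ²` (`e ≠ e'`; `nsq_add`, `nsq_smul`, `nsq` of a `Pi.single`, `dot` of two different ones `= 0`; copy from `thl_nsq_single`, `thl_dot_single` of H48/PL/ThinL),
  `dot (fv τ e e') v = v e + τ v e'`.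
* `two_forms`: `k = dirk v w` unit, `u₀ = e`, `u₁ = fv/√(1+τ²)`. If both `|k·u₀| > 1-δ`, `|k·u₁| > 1-δ` then `|k ∓ u₀|² < 2δ`, `|k ∓ u₁|² < 2δ`, so `|u₁ ∓ u₀| < 2√(2δ)`, i.e. `2(1-|u₀·u₁|) ≤ |u₁ ∓ u₀|² < 8δ`;
  but `u₀·u₁ = 1/√(1+τ²) ≤ 1 - τ²/4` for `0 < τ ≤ 1/2`: `τ²/2 < 8δ`, contradiction for `δ = τ²/32`. (`len e = 1`, `len (fv) = √(1+τ²)`.)
* `ainc_phiJ`: `phiJ = lfp p e + lfp p fv` pointwise and additivity of the integral (`inner_integrable`, bounded measurable increments: `lf_bdd`, `lfp_cont` of LfB).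
-/

set_option autoImplicit false

open MeasureTheory Set Filter Topology Pool.Agent.H25.Kin Pool.Agent.H48.PL Pool.Agent.H82.CM

namespace Pool.Agent.H15.UP

variable {d : ℕ} {γ s C Ca : ℝ} {b : ℝ → ℝ}

theorem ainc_comm (hd : 1 ≤ d) (γ : ℝ) (b : ℝ → ℝ) (ε : ℝ) (φ : Vec d → ℝ) (v w : Vec d) :
    ainc γ b ε φ w v = ainc γ b ε φ v w := by
  unfold ainc
  have h := (neg_preserving hd).integral_comp (MeasurableEquiv.neg (Vec d)).measurableEmbedding
    (fun σ : Vec d => kerB γ b ε w v σ * (φ (post w v σ) + φ (post' w v σ) - φ w - φ v))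
  rw [← h]
  refine integral_congr_ae (Eventually.of_forall fun σ => ?_)
  simp only [kerB_swap, post_swap, post'_swap]
  ring

lemma dot_single_left (e : Fin d) (v : Vec d) : dot (Pi.single e 1 : Vec d) v = v e := by
  unfold dot
  rw [Finset.sum_eq_single e]
  · simp
  · intro i _ hi
    simp [Pi.single_eq_of_ne hi]
  · intro h
    exact absurd (Finset.mem_univ e) h

lemma nsq_single (e : Fin d) : nsq (Pi.single e 1 : Vec d) = 1 := by
  rw [← dot_self, dot_single_left, Pi.single_eq_same]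

lemma dot_fv (τ : ℝ) (e e' : Fin d) (v : Vec d) : dot (fv τ e e') v = v e + τ * v e' := by
  unfold fv
  rw [dot_comm, dot_add, dot_smul, dot_comm, dot_single_left, dot_comm v, dot_single_left]

lemma fv_nsq (τ : ℝ) {e e' : Fin d} (h : e ≠ e') : nsq (fv τ e e') = 1 + τ ^ 2 := by
  unfold fv
  rw [nsq_add, nsq_smul, nsq_single, nsq_single, dot_smul, dot_single_left,
    Pi.single_eq_of_ne h]
  ring

lemma phiJ_eq (p τ : ℝ) (e e' : Fin d) :
    phiJ p τ e e' = fun v : Vec d => lfp p (Pi.single e 1) v + lfp p (fv τ e e') v := by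
  funext v
  unfold phiJ lfp
  rw [dot_single_left, dot_fv]

private lemma swap_sgn (x : ℝ) : ∃ t : ℝ, t ^ 2 = 1 ∧ t * x = |x| := by
  rcases le_total 0 x with h | h
  · exact ⟨1, by norm_num, by rw [abs_of_nonneg h, one_mul]⟩
  · exact ⟨-1, by norm_num, by rw [abs_of_nonpos h]; ring⟩

lemma two_forms {e e' : Fin d} (h : e ≠ e') {τ : ℝ} (hτ : 0 < τ) (hτ1 : τ ≤ 1 / 2) {v w : Vec d}
    (hvw : v ≠ w) :
    |dot (Pi.single e 1 : Vec d) (v - w)| ≤ (1 - τ ^ 2 / 32) * (len (Pi.single e 1 : Vec d) * len (v - w)) ∨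
      |dot (fv τ e e') (v - w)| ≤ (1 - τ ^ 2 / 32) * (len (fv τ e e') * len (v - w)) := by
  by_contra hcon
  rw [not_or, not_le, not_le] at hcon
  obtain ⟨h1, h2⟩ := hcon
  have hL : 0 < len (v - w) := len_pos (sub_ne_zero.2 hvw)
  have hk : nsq (dirk v w) = 1 := nsq_dirk hvw
  have hz : v - w = len (v - w) • dirk v w := (len_smul_dirk v w).symm
  have he : len (Pi.single e 1 : Vec d) = 1 := by unfold len; rw [nsq_single, Real.sqrt_one]
  have hs2 : len (fv τ e e') ^ 2 = 1 + τ ^ 2 := by rw [len_sq, fv_nsq τ h]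
  have hs0 : 0 ≤ len (fv τ e e') := len_nonneg _
  have hfe : dot (fv τ e e') (Pi.single e 1 : Vec d) = 1 := by
    rw [dot_fv, Pi.single_eq_same, Pi.single_eq_of_ne (Ne.symm h)]
    ring
  have hff : nsq (fv τ e e') = len (fv τ e e') ^ 2 := (len_sq _).symm
  have e1 : dot (Pi.single e 1 : Vec d) (v - w) =
      len (v - w) * dot (Pi.single e 1 : Vec d) (dirk v w) := by
    conv_lhs => rw [hz]
    rw [dot_smul]
  have e2 : dot (fv τ e e') (v - w) = len (v - w) * dot (fv τ e e') (dirk v w) := by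
    conv_lhs => rw [hz]
    rw [dot_smul]
  rw [e1, he, abs_mul, abs_of_pos hL] at h1
  rw [e2, abs_mul, abs_of_pos hL] at h2
  generalize len (v - w) = L at hL h1 h2
  generalize dirk v w = k at hk h1 h2
  generalize fv τ e e' = f at hs2 hs0 hfe hff h2
  generalize len f = s at hs2 hs0 hff h2
  have hs : 0 < s := by
    rcases hs0.lt_or_eq with h3 | h3
    · exact h3
    · rw [← h3] at hs2
      have h4 := sq_nonneg τ
      norm_num at hs2
      linarith
  obtain ⟨t1, ht1, hta⟩ := swap_sgn (dot (Pi.single e 1 : Vec d) k)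
  obtain ⟨t2, ht2, htb⟩ := swap_sgn (dot f k)
  have a1 : 1 - τ ^ 2 / 32 < t1 * dot (Pi.single e 1 : Vec d) k := by
    rw [hta]
    have h3 : L * (1 - τ ^ 2 / 32) < L * |dot (Pi.single e 1 : Vec d) k| := by linarith
    exact lt_of_mul_lt_mul_left h3 hL.le
  have a2 : (1 - τ ^ 2 / 32) * s < t2 * dot f k := by
    rw [htb]
    have h3 : L * ((1 - τ ^ 2 / 32) * s) < L * |dot f k| := by
      calc L * ((1 - τ ^ 2 / 32) * s) = (1 - τ ^ 2 / 32) * (s * L) := by ring
        _ < _ := h2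
    exact lt_of_mul_lt_mul_left h3 hL.le
  have b1 : nsq (k - t1 • (Pi.single e 1 : Vec d)) =
      2 - 2 * (t1 * dot (Pi.single e 1 : Vec d) k) := by
    rw [nsq_sub, nsq_smul, nsq_single, dot_smul, hk, ht1, dot_comm k]
    ring
  have b2 : nsq (k - (t2 / s) • f) = 2 - 2 * (t2 * dot f k) / s := by
    rw [nsq_sub, nsq_smul, hff, dot_smul, hk, dot_comm k, div_pow, ht2]
    field_simp
    ring
  have b3 : nsq ((k - t1 • (Pi.single e 1 : Vec d)) - (k - (t2 / s) • f)) =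
      2 - 2 * (t1 * t2) / s := by
    have : (k - t1 • (Pi.single e 1 : Vec d)) - (k - (t2 / s) • f) =
        (t2 / s) • f - t1 • (Pi.single e 1 : Vec d) := by abel
    rw [this, nsq_sub, nsq_smul, nsq_smul, nsq_single, hff, dot_smul, smul_dot, hfe, ht1, div_pow,
      ht2]
    field_simp
    ring
  have b4 := nsq_par (k - t1 • (Pi.single e 1 : Vec d)) (k - (t2 / s) • f)
  have b5 : 0 ≤ nsq ((k - t1 • (Pi.single e 1 : Vec d)) + (k - (t2 / s) • f)) :=
    Finset.sum_nonneg fun i _ => sq_nonneg _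
  have a3 : 1 - τ ^ 2 / 32 < t2 * dot f k / s := by
    rw [lt_div_iff₀ hs]
    exact a2
  have b6 : 2 * (t2 * dot f k) / s = 2 * (t2 * dot f k / s) := by ring
  have b7 : 2 * (t1 * t2) / s = 2 * (t1 * t2) * s⁻¹ := by ring
  have ht12 : t1 * t2 ≤ 1 := by
    have h5 := sq_nonneg (t1 - t2)
    rw [sub_sq, ht1, ht2] at h5
    linarith only [h5]
  have hsi : 0 < s⁻¹ := inv_pos.2 hs
  have b8 : t1 * t2 * s⁻¹ ≤ s⁻¹ := by
    have h5 := mul_le_mul_of_nonneg_right ht12 hsi.le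
    rwa [one_mul] at h5
  have b9 : 2 - 2 * s⁻¹ < τ ^ 2 / 4 := by
    rw [b1, b2, b3, b6, b7] at b4
    linarith only [b4, b5, b8, a1, a3]
  have c1 : 1 - τ ^ 2 / 8 < s⁻¹ := by linarith only [b9]
  have hτ2 : τ ^ 2 ≤ 1 / 4 := by
    have h5 := mul_le_mul hτ1 hτ1 hτ.le (by norm_num)
    linarith only [h5]
  have hτ3 : 0 < τ ^ 2 := by positivity
  have c2 : (1 - τ ^ 2 / 8) * s < 1 := by
    have h3 := mul_lt_mul_of_pos_right c1 hs
    rwa [inv_mul_cancel₀ hs.ne'] at h3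
  have c3 : 0 < (1 - τ ^ 2 / 8) * s := by
    apply mul_pos _ hs
    linarith
  have c4 : ((1 - τ ^ 2 / 8) * s) ^ 2 < 1 := pow_lt_one₀ c3.le c2 (by norm_num)
  rw [mul_pow, hs2] at c4
  have q1 := mul_nonneg hτ3.le (sub_nonneg.2 hτ2)
  have q2 := mul_nonneg (mul_nonneg hτ3.le hτ3.le) hτ3.le
  linarith only [c4, q1, q2, hτ3]

end Pool.Agent.H15.UP
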