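import Pool.Agent.H15.UP.One
import Pool.Agent.H15.UP.Nc
import Pool.Agent.H15.UP.Swap

/-!
# Module J1: the collision production of `phiJ`

`phiJ = lfp p f₀ + lfp p f₁`, `f₀ = e`, `f₁ = fv τ e e'` (`phiJ_eq`), `nsq f₀ = 1`, `nsq f₁ = 1+τ² ≤ 2`; `ainc` is additive (`ainc_add`: both increments are bounded (`lf_bdd`) and measurable (`lfp_cont`, `continuous_post`),
`inner_integrable`).
Order of the constants: `θ, c₁, ε₁` of `one_thin`; `τ = θ/2` (`≤ 1/16`), `eT = θ/2`; `δ = τ²/32`; `K₁` of `nc_loss`, `K₂` of `nc_gain`, `c₂, ε₂` of `nc_gain` for `δ`; `K = K₁+K₂`; `p₀ = min 2 (1 + c₂/(4(K+1)))`,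
`eN ≤ 1/2` with `K eN^((1-2s)/2) ≤ c₂/4`; `c = min (2c₁(p-1)) (c₂/2)`; `ε₀ = min ε₁ ε₂`.
* thin: `|dot f₀ (v-w)| = |V_e| ≤ eT len`, `|dot f₁ (v-w)| ≤ |V_e| + τ|V_e'| ≤ θ len` (`abs_coord_le`): `one_thin` twice.
* non comparable, `len w ≤ eN len v`: `two_forms`: one form has the gain `c₂ - K₂(..)`, the other the loss `K₁(..)`: sum `≥ c₂ - K((p-1)+eN^..) ≥ c₂/2`. The case `len v ≤ eN len w`: `ainc_comm`, `len_comm`.
* all: `one_all` twice.
-/

set_option autoImplicit false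

open MeasureTheory Set Filter Topology Pool.Agent.H25.Kin Pool.Agent.H48.PL Pool.Agent.H82.CM

namespace Pool.Agent.H15.UP

variable {d : ℕ} {γ s C Ca cb : ℝ} {b : ℝ → ℝ}

private lemma j1_meas {φ : Vec d → ℝ} (hφ : Continuous φ) (v w : Vec d) :
    Measurable fun σ : Vec d => φ (post v w σ) + φ (post' v w σ) - φ v - φ w := by
  have h1 : Continuous fun σ : Vec d => post v w σ :=
    (continuous_post (d := d)).comp (continuous_const.prodMk (continuous_const.prodMk continuous_id))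
  have h2 : Continuous fun σ : Vec d => post' v w σ :=
    (continuous_post' (d := d)).comp (continuous_const.prodMk (continuous_const.prodMk continuous_id))
  exact ((((hφ.comp h1).add (hφ.comp h2)).sub continuous_const).sub continuous_const).measurable

theorem ainc_add (H : Hyp d γ s b C Ca) {ε : ℝ} (hε : 0 < ε) {p : ℝ} (hp : 0 ≤ p) (f g v w : Vec d) :
    ainc γ b ε (fun u => lfp p f u + lfp p g u) v w =
      ainc γ b ε (lfp p f) v w + ainc γ b ε (lfp p g) v w := by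
  obtain ⟨F1, hF1⟩ := lf_bdd hp f v w
  obtain ⟨F2, hF2⟩ := lf_bdd hp g v w
  have i1 := inner_integrable (γ := γ) (v := v) (w := w) H.bm H.bd H.β0 hε
    (j1_meas (lfp_cont hp f) v w) hF1
  have i2 := inner_integrable (γ := γ) (v := v) (w := w) H.bm H.bd H.β0 hε
    (j1_meas (lfp_cont hp g) v w) hF2
  unfold ainc
  rw [← integral_add i1 i2]
  refine integral_congr_ae (Eventually.of_forall fun σ => ?_)
  simp only
  ring

private lemma j1_phi (H : Hyp d γ s b C Ca) {ε : ℝ} (hε : 0 < ε) {p : ℝ} (hp : 0 ≤ p) (τ : ℝ)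
    (e e' : Fin d) (v w : Vec d) :
    ainc γ b ε (phiJ p τ e e') v w =
      ainc γ b ε (lfp p (Pi.single e 1)) v w + ainc γ b ε (lfp p (fv τ e e')) v w := by
  rw [phiJ_eq, ainc_add H hε hp]

theorem J1 (HL : HypL d γ s b C Ca cb) (hs1 : 2 * s < 1) {e e' : Fin d} (he : e ≠ e') :
    ∃ p₀ τ eT eN : ℝ, 1 < p₀ ∧ p₀ ≤ 2 ∧ 0 < τ ∧ τ ≤ 1 ∧ 0 < eT ∧ eT ≤ 1 ∧ 0 < eN ∧ eN ≤ 1 / 2 ∧
      ∀ p : ℝ, 1 < p → p ≤ p₀ → ∃ c K ε₀ : ℝ, 0 < c ∧ 0 ≤ K ∧ 0 < ε₀ ∧
        (∀ ε : ℝ, 0 < ε → ε ≤ ε₀ → ∀ v w : Vec d, v ≠ w → |v e - w e| ≤ eT * len (v - w) →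
          c * (len (v - w) ^ γ * (len (v - w) ^ 2 * RR v w ^ (p - 2))) ≤
            ainc γ b ε (phiJ p τ e e') v w) ∧
        (∀ ε : ℝ, 0 < ε → ε ≤ ε₀ → ∀ v w : Vec d, v ≠ w →
          (len w ≤ eN * len v ∨ len v ≤ eN * len w) →
          c * (len (v - w) ^ γ * len (v - w) ^ p) ≤ ainc γ b ε (phiJ p τ e e') v w) ∧
        (∀ ε : ℝ, 0 < ε → ∀ v w : Vec d, v ≠ w →
          -(K * (len (v - w) ^ γ * len (v - w) ^ p)) ≤ ainc γ b ε (phiJ p τ e e') v w) := by
  obtain ⟨θ, c₁, ε₁, hθ, hθ1, hc₁, hε₁, hthin⟩ := one_thin HL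
  obtain ⟨K₃, hK₃, hall⟩ := one_all HL
  obtain ⟨K₁, hK₁, hloss⟩ := nc_loss HL hs1
  obtain ⟨K₂, hK₂, hgain0⟩ := nc_gain HL hs1
  set τ : ℝ := θ / 2 with hτd
  have hτ : 0 < τ := by positivity
  have hτ1 : τ ≤ 1 / 16 := by rw [hτd]; linarith
  have hδ : 0 < τ ^ 2 / 32 := by positivity
  have hδ1 : τ ^ 2 / 32 ≤ 1 := by nlinarith
  obtain ⟨c₂, ε₂, hc₂, hε₂, hgain⟩ := hgain0 (τ ^ 2 / 32) hδ hδ1
  set K : ℝ := K₁ + K₂ with hKd
  have hK : 0 ≤ K := by positivity
  set q : ℝ := c₂ / (4 * (K + 1)) with hqd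
  have hq : 0 < q := by positivity
  have hKq : K * q ≤ c₂ / 4 := by
    rw [hqd, ← mul_div_assoc, div_le_div_iff₀ (by positivity) (by norm_num)]
    nlinarith
  have hs2 : 0 < (1 - 2 * s) / 2 := by linarith
  set eN : ℝ := min (1 / 2) (q ^ (((1 - 2 * s) / 2)⁻¹)) with heNd
  have heN : 0 < eN := lt_min (by norm_num) (Real.rpow_pos_of_pos hq _)
  have heN1 : eN ≤ 1 / 2 := min_le_left _ _
  have heNq : eN ^ ((1 - 2 * s) / 2) ≤ q := by
    calc eN ^ ((1 - 2 * s) / 2) ≤ (q ^ (((1 - 2 * s) / 2)⁻¹)) ^ ((1 - 2 * s) / 2) :=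
          Real.rpow_le_rpow heN.le (min_le_right _ _) hs2.le
      _ = q := Real.rpow_inv_rpow hq.le hs2.ne'
  have n0 : nsq (Pi.single e 1 : Vec d) = 1 := nsq_single e
  have n1 : nsq (fv τ e e') = 1 + τ ^ 2 := fv_nsq τ he
  have hτ2 : τ ^ 2 ≤ 1 := by nlinarith
  refine ⟨min 2 (1 + q), τ, θ / 2, eN, lt_min (by norm_num) (by linarith), min_le_left _ _, hτ,
    by linarith, by positivity, by linarith, heN, heN1, fun p hp hp0 => ?_⟩
  have hp2 : p ≤ 2 := hp0.trans (min_le_left _ _)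
  have hpq : p - 1 ≤ q := by
    have := hp0.trans (min_le_right _ _)
    linarith
  have hp0' : 0 ≤ p := by linarith
  have hKp : K * ((p - 1) + eN ^ ((1 - 2 * s) / 2)) ≤ c₂ / 2 := by
    have h1 : K * (p - 1) ≤ K * q := mul_le_mul_of_nonneg_left hpq hK
    have h2 : K * eN ^ ((1 - 2 * s) / 2) ≤ K * q := mul_le_mul_of_nonneg_left heNq hK
    rw [mul_add]
    linarith
  refine ⟨min (2 * (c₁ * (p - 1))) (c₂ / 2), 2 * K₃, min ε₁ ε₂,
    lt_min (by have : 0 < p - 1 := by linarith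
               positivity) (by positivity), by positivity, lt_min hε₁ hε₂, ?_, ?_, ?_⟩
  · intro ε hε hε1 v w hvw ht
    have hl := len_nonneg (v - w)
    have hR : 0 ≤ RR v w := Real.sqrt_nonneg _
    have hX : 0 ≤ len (v - w) ^ γ * (len (v - w) ^ 2 * RR v w ^ (p - 2)) := by positivity
    rw [j1_phi HL.H hε hp0']
    have hd0 : |dot (Pi.single e 1 : Vec d) (v - w)| ≤ θ * len (v - w) := by
      rw [dot_single_left]
      have : (v - w) e = v e - w e := rfl
      rw [this]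
      refine ht.trans ?_
      exact mul_le_mul_of_nonneg_right (by linarith) hl
    have hd1 : |dot (fv τ e e') (v - w)| ≤ θ * len (v - w) := by
      rw [dot_fv]
      have h1 : (v - w) e = v e - w e := rfl
      have h2 := abs_coord_le (v - w) e'
      rw [h1]
      calc |v e - w e + τ * (v - w) e'| ≤ |v e - w e| + |τ * (v - w) e'| := abs_add_le _ _
        _ ≤ θ / 2 * len (v - w) + τ * len (v - w) := by
            rw [abs_mul, abs_of_pos hτ]
            exact add_le_add ht (mul_le_mul_of_nonneg_left h2 hτ.le)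
        _ = θ * len (v - w) := by rw [hτd]; ring
    have a0 := hthin p hp hp2 (Pi.single e 1) (by rw [n0]) (by rw [n0]; norm_num) ε hε
      (hε1.trans (min_le_left _ _)) v w hvw hd0
    have a1 := hthin p hp hp2 (fv τ e e') (by rw [n1]; nlinarith) (by rw [n1]; linarith) ε hε
      (hε1.trans (min_le_left _ _)) v w hvw hd1
    have h3 := mul_le_mul_of_nonneg_right (min_le_left (2 * (c₁ * (p - 1))) (c₂ / 2)) hX
    refine h3.trans ?_
    linarith
  · intro ε hε hε1 v w hvw hnc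
    have key : ∀ v w : Vec d, v ≠ w → len w ≤ eN * len v →
        min (2 * (c₁ * (p - 1))) (c₂ / 2) * (len (v - w) ^ γ * len (v - w) ^ p) ≤
          ainc γ b ε (phiJ p τ e e') v w := by
      intro v w hvw h
      have hl := len_nonneg (v - w)
      have hX : 0 ≤ len (v - w) ^ γ * len (v - w) ^ p := by positivity
      have hη : 0 ≤ (p - 1) + eN ^ ((1 - 2 * s) / 2) := by
        have : 0 ≤ eN ^ ((1 - 2 * s) / 2) := by positivity
        linarith
      rw [j1_phi HL.H hε hp0']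
      have h3 := mul_le_mul_of_nonneg_right (min_le_right (2 * (c₁ * (p - 1))) (c₂ / 2)) hX
      have h4 := mul_le_mul_of_nonneg_right hKp hX
      refine h3.trans ?_
      rcases two_forms he hτ (by linarith) hvw with h5 | h5
      · have a0 := hgain p hp.le hp2 (Pi.single e 1) (by rw [n0]) (by rw [n0]; norm_num) eN heN heN1
          ε hε (hε1.trans (min_le_right _ _)) v w hvw h h5
        have a1 := hloss p hp.le hp2 (fv τ e e') (by rw [n1]; linarith) eN heN heN1 ε hε v w hvw h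
        rw [hKd] at h4
        nlinarith
      · have a0 := hgain p hp.le hp2 (fv τ e e') (by rw [n1]; nlinarith) (by rw [n1]; linarith) eN heN
          heN1 ε hε (hε1.trans (min_le_right _ _)) v w hvw h h5
        have a1 := hloss p hp.le hp2 (Pi.single e 1) (by rw [n0]; norm_num) eN heN heN1 ε hε v w hvw h
        rw [hKd] at h4
        nlinarith
    rcases hnc with h | h
    · exact key v w hvw h
    · have h6 := key w v hvw.symm h
      rw [ainc_comm HL.H.hd1, len_comm w v] at h6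
      exact h6
  · intro ε hε v w hvw
    rw [j1_phi HL.H hε hp0']
    have a0 := hall p hp.le hp2 (Pi.single e 1) (by rw [n0]; norm_num) ε hε v w hvw
    have a1 := hall p hp.le hp2 (fv τ e e') (by rw [n1]; linarith) ε hε v w hvw
    linarith

end Pool.Agent.H15.UP
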