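import Pool.Agent.H85.UP.Defs
import Pool.Agent.H25.PT.XWC

/-!
# Module ZwL: the weight `zw` of the density `Z` (H85/UP/Defs)

`V = len (p.1 - p.2)`, `R = RR p.1 p.2 ≥ 1`, `0 ≤ V ≤ 2R` (`len_le_RR`), `u = V/(2R) ∈ [0,1]`. `0 < a`, `1 < q`, `a + q ≤ 2`: all exponents of `u` are `≥ 0`, the exponent `a+q-2` of `R ≥ 1` is `≤ 0`.
* `zw_nonneg`, `zw_le`: products of numbers in `[0,1]`.
* `zw_meas`: `thinS`, `ncS` are closed (continuity of `len`, coordinates), `Measurable.ite`, `continuous_RR`, `continuous_len`, `Measurable.pow_const`.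
* `zd_thin`: `V² R u^(1+a) R^(a+q-2) = 2^(-(1+a)) V^(1+a) V² R^(1-(1+a)+a+q-2) ≤ V^(1+a) (V² R^(q-2))`. `zd_nc`: `V² R u^(a+q-1) R^(a+q-2) = 2^(-(a+q-1)) V^(1+a) V^q ≤ V^(1+a) V^q`.
* `zd_rest`: `V^(1+a) V^q = V² V^(a+q-1) ≤ V² (2R)^(a+q-1) ≤ V² 2R` (`0 < a+q-1 ≤ 1`, `2R ≥ 1`).
* `dens_zd`: `dens 1 g p * zw = g g_* zd` by definition of `dens`, `zd` (`(1:ℝ)+1 = 2`).
* `ZS_int`: `dens_integrable` (`a = 1`) times a bounded measurable weight (`Integrable.mul_bdd`). `ZS_eq`: `∫ g g_* L`, `L = c zd` on `A`, `-K zd` off `A`, is `c ZS A - K ZS Aᶜ`.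
-/

set_option autoImplicit false

open MeasureTheory Set Filter Topology Pool.Agent.H25.Kin Pool.Agent.H48.PL Pool.Agent.H48.PI
open Pool.Agent.H25.PT Pool.Agent.H85.UP

namespace Pool.Agent.H15.UP

variable {d : ℕ} {a q θ η : ℝ} {e : Fin d}

private lemma zwl_len_cont : Continuous fun p : Vec d × Vec d => len (p.1 - p.2) :=
  continuous_len.comp (by fun_prop : Continuous fun p : Vec d × Vec d => p.1 - p.2)

lemma thinS_meas (e : Fin d) (θ : ℝ) : MeasurableSet (thinS e θ) := by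
  have h1 : Measurable fun p : Vec d × Vec d => |p.1 e - p.2 e| :=
    (by fun_prop : Continuous fun p : Vec d × Vec d => |p.1 e - p.2 e|).measurable
  exact measurableSet_le h1 (zwl_len_cont.measurable.const_mul θ)

lemma ncS_meas (η : ℝ) : MeasurableSet (ncS η : Set (Vec d × Vec d)) := by
  have h1 : Measurable fun p : Vec d × Vec d => len p.1 := continuous_len.measurable.comp measurable_fst
  have h2 : Measurable fun p : Vec d × Vec d => len p.2 := continuous_len.measurable.comp measurable_snd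
  exact (measurableSet_le h1 (h2.const_mul η)).union (measurableSet_le h2 (h1.const_mul η))

private lemma zwl_u0 (p : Vec d × Vec d) : 0 ≤ len (p.1 - p.2) / (2 * RR p.1 p.2) :=
  div_nonneg (len_nonneg _) (by have := RR_pos p.1 p.2; positivity)

private lemma zwl_u1 (p : Vec d × Vec d) : len (p.1 - p.2) / (2 * RR p.1 p.2) ≤ 1 := by
  rw [div_le_one (by have := RR_pos p.1 p.2; positivity)]
  exact len_le_RR _ _

lemma zw_nonneg (p : Vec d × Vec d) : 0 ≤ zw e θ η a q p := by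
  unfold zw
  have h0 := zwl_u0 p
  have hR := RR_pos p.1 p.2
  split_ifs
  · exact mul_nonneg (Real.rpow_nonneg h0 _) (Real.rpow_nonneg hR.le _)
  · exact mul_nonneg (Real.rpow_nonneg h0 _) (Real.rpow_nonneg hR.le _)
  · exact zero_le_one

lemma zw_le (ha : 0 < a) (hq : 1 < q) (haq : a + q ≤ 2) (p : Vec d × Vec d) :
    zw e θ η a q p ≤ 1 := by
  unfold zw
  have h0 := zwl_u0 p
  have h1 := zwl_u1 p
  have hR := RR_pos p.1 p.2
  have hR1 := one_le_RR p.1 p.2
  have h2 : RR p.1 p.2 ^ (a + q - 2) ≤ 1 := Real.rpow_le_one_of_one_le_of_nonpos hR1 (by linarith)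
  have h3 : 0 ≤ RR p.1 p.2 ^ (a + q - 2) := Real.rpow_nonneg hR.le _
  split_ifs
  · exact mul_le_one₀ (Real.rpow_le_one h0 h1 (by linarith)) h3 h2
  · exact mul_le_one₀ (Real.rpow_le_one h0 h1 (by linarith)) h3 h2
  · exact le_rfl

lemma zw_meas (e : Fin d) (θ η a q : ℝ) : Measurable (zw e θ η a q) := by
  unfold zw
  have hu : Measurable fun p : Vec d × Vec d => len (p.1 - p.2) / (2 * RR p.1 p.2) :=
    zwl_len_cont.measurable.div (RR_cont.measurable.const_mul 2)
  have hr : Measurable fun p : Vec d × Vec d => RR p.1 p.2 ^ (a + q - 2) :=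
    RR_cont.measurable.pow_const _
  exact Measurable.ite (thinS_meas e θ) ((hu.pow_const _).mul hr)
    (Measurable.ite (ncS_meas η) ((hu.pow_const _).mul hr) measurable_const)

lemma zd_nonneg (p : Vec d × Vec d) : 0 ≤ zd e θ η a q p := by
  unfold zd
  exact mul_nonneg (mul_nonneg (Real.rpow_nonneg (len_nonneg _) _)
    (Real.rpow_nonneg (RR_pos _ _).le _)) (zw_nonneg p)

private lemma zwl_u_le {V R t : ℝ} (hV : 0 ≤ V) (hR : 0 < R) (ht : 0 ≤ t) :
    (V / (2 * R)) ^ t ≤ V ^ t * R ^ (-t) := by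
  have h1 : V / (2 * R) ≤ V * R⁻¹ := by
    rw [div_eq_mul_inv]
    exact mul_le_mul_of_nonneg_left (inv_anti₀ hR (by linarith)) hV
  calc (V / (2 * R)) ^ t ≤ (V * R⁻¹) ^ t := Real.rpow_le_rpow (by positivity) h1 ht
    _ = V ^ t * R ^ (-t) := by
        rw [Real.mul_rpow hV (by positivity), Real.inv_rpow hR.le, Real.rpow_neg hR.le]

lemma zd_thin (ha : 0 < a) {p : Vec d × Vec d} (hp : p ∈ thinS e θ) :
    zd e θ η a q p ≤ len (p.1 - p.2) ^ (1 + a) * (len (p.1 - p.2) ^ 2 * RR p.1 p.2 ^ (q - 2)) := by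
  unfold zd zw
  rw [if_pos hp]
  have hV := len_nonneg (p.1 - p.2)
  have hR := RR_pos p.1 p.2
  set V := len (p.1 - p.2)
  set R := RR p.1 p.2
  have h1 := zwl_u_le (t := 1 + a) hV hR (by linarith)
  rw [Real.rpow_one, Real.rpow_two]
  calc V ^ 2 * R * ((V / (2 * R)) ^ (1 + a) * R ^ (a + q - 2))
      ≤ V ^ 2 * R * ((V ^ (1 + a) * R ^ (-(1 + a))) * R ^ (a + q - 2)) := by
        gcongr
    _ = V ^ (1 + a) * (V ^ 2 * (R ^ (1 : ℝ) * R ^ (-(1 + a)) * R ^ (a + q - 2))) := by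
        rw [Real.rpow_one]; ring
    _ = V ^ (1 + a) * (V ^ 2 * R ^ (q - 2)) := by
        rw [← Real.rpow_add hR, ← Real.rpow_add hR]
        congr 3
        ring

lemma zd_nc (ha : 0 < a) (hq : 1 < q) {p : Vec d × Vec d} (hp : p ∉ thinS e θ) (hp2 : p ∈ ncS η) :
    zd e θ η a q p ≤ len (p.1 - p.2) ^ (1 + a) * len (p.1 - p.2) ^ q := by
  unfold zd zw
  rw [if_neg hp, if_pos hp2]
  have hV := len_nonneg (p.1 - p.2)
  have hR := RR_pos p.1 p.2
  set V := len (p.1 - p.2)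
  set R := RR p.1 p.2
  have h1 := zwl_u_le (t := a + q - 1) hV hR (by linarith)
  calc V ^ (2 : ℝ) * R ^ (1 : ℝ) * ((V / (2 * R)) ^ (a + q - 1) * R ^ (a + q - 2))
      ≤ V ^ (2 : ℝ) * R ^ (1 : ℝ) * ((V ^ (a + q - 1) * R ^ (-(a + q - 1))) * R ^ (a + q - 2)) := by
        gcongr
    _ = (V ^ (2 : ℝ) * V ^ (a + q - 1)) * (R ^ (1 : ℝ) * R ^ (-(a + q - 1)) * R ^ (a + q - 2)) := by
        ring
    _ = V ^ (2 + (a + q - 1)) * 1 := by
        rw [← Real.rpow_add hR, ← Real.rpow_add hR,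
          ← Real.rpow_add_of_nonneg hV (by norm_num) (by linarith)]
        congr 1
        rw [show (1 : ℝ) + -(a + q - 1) + (a + q - 2) = 0 by ring, Real.rpow_zero]
    _ = V ^ (1 + a) * V ^ q := by
        rw [mul_one, ← Real.rpow_add_of_nonneg hV (by linarith) (by linarith)]
        congr 1
        ring

lemma zd_rest (ha : 0 < a) (hq : 1 < q) (haq : a + q ≤ 2) {p : Vec d × Vec d}
    (hp : p ∉ thinS e θ) (hp2 : p ∉ ncS η) :
    len (p.1 - p.2) ^ (1 + a) * len (p.1 - p.2) ^ q ≤ 2 * zd e θ η a q p := by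
  unfold zd zw
  rw [if_neg hp, if_neg hp2]
  have hV := len_nonneg (p.1 - p.2)
  have hR := RR_pos p.1 p.2
  have hR1 := one_le_RR p.1 p.2
  have hVR := len_le_RR p.1 p.2
  set V := len (p.1 - p.2)
  set R := RR p.1 p.2
  have h1 : V ^ (1 + a) * V ^ q = V ^ (2 : ℝ) * V ^ (a + q - 1) := by
    rw [← Real.rpow_add_of_nonneg hV (by linarith) (by linarith),
      ← Real.rpow_add_of_nonneg hV (by norm_num) (by linarith)]
    congr 1
    ring
  have h2 : V ^ (a + q - 1) ≤ 2 * R := by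
    calc V ^ (a + q - 1) ≤ (2 * R) ^ (a + q - 1) := Real.rpow_le_rpow hV hVR (by linarith)
      _ ≤ (2 * R) ^ (1 : ℝ) := Real.rpow_le_rpow_of_exponent_le (by linarith) (by linarith)
      _ = 2 * R := Real.rpow_one _
  rw [h1]
  calc V ^ (2 : ℝ) * V ^ (a + q - 1) ≤ V ^ (2 : ℝ) * (2 * R) :=
        mul_le_mul_of_nonneg_left h2 (Real.rpow_nonneg hV _)
    _ = 2 * (V ^ (2 : ℝ) * R ^ (1 : ℝ) * 1) := by rw [Real.rpow_one]; ring

private lemma zwl_dens (g : Vec d → ℝ) (A : Set (Vec d × Vec d)) (p : Vec d × Vec d) :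
    dens 1 g p * A.indicator (zw e θ η a q) p = g p.1 * g p.2 * A.indicator (zd e θ η a q) p := by
  by_cases hp : p ∈ A
  · rw [indicator_of_mem hp, indicator_of_mem hp]
    unfold dens zd
    rw [show (1 : ℝ) + 1 = 2 by norm_num]
    ring
  · rw [indicator_of_notMem hp, indicator_of_notMem hp, mul_zero, mul_zero]

lemma ZS_int (ha : 0 < a) (hq : 1 < q) (haq : a + q ≤ 2) {g : Vec d → ℝ} (hg : RD g)
    (hgc : Continuous g) {A : Set (Vec d × Vec d)} (hA : MeasurableSet A) :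
    Integrable fun p : Vec d × Vec d => g p.1 * g p.2 * A.indicator (zd e θ η a q) p := by
  have hd := dens_integrable (a := 1) zero_le_one le_rfl hg hgc
  have h1 : Integrable fun p : Vec d × Vec d => dens 1 g p * A.indicator (zw e θ η a q) p := by
    refine hd.norm.mono' ((dens_cont zero_le_one hgc).aestronglyMeasurable.mul
      ((zw_meas e θ η a q).indicator hA).aestronglyMeasurable) (Eventually.of_forall fun p => ?_)
    rw [norm_mul]
    refine mul_le_of_le_one_right (norm_nonneg _) ?_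
    rw [Real.norm_eq_abs]
    by_cases hp : p ∈ A
    · rw [indicator_of_mem hp, abs_of_nonneg (zw_nonneg p)]
      exact zw_le ha hq haq p
    · rw [indicator_of_notMem hp, abs_zero]
      exact zero_le_one
  exact h1.congr (Eventually.of_forall fun p => zwl_dens g A p)

lemma ZS_eq (g : Vec d → ℝ) (A : Set (Vec d × Vec d)) :
    ZS e θ η a q g A = ∫ p : Vec d × Vec d, g p.1 * g p.2 * A.indicator (zd e θ η a q) p := by
  unfold ZS XG
  exact integral_congr_ae (Eventually.of_forall fun p => zwl_dens g A p)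

end Pool.Agent.H15.UP
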