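import Pool.Agent.H15.UP.J1
import Pool.Agent.H15.UP.ZwL

/-!
# Module J2: block J for one fiber

`weak_ge_of` (H48/PL/WkI) with `φ = phiJ q τ e e'` (`phiJ_PG`, `phiJ_cont`), `L = c zd` on `A = thinS e θ ∪ ncS η`, `L = -2K zd` off `A` (`L = A.indicator (c zd) - Aᶜ.indicator (2K zd)`), constants of `J1`, `θ₀ = eT`,
`η = eN`. Pointwise: thin: `|V_e| ≤ θ len ≤ eT len`, `zd_thin`, `J1`; not thin, in `ncS η`: `zd_nc`, `J1` (`ncS η` at `(v,w)`: `len v ≤ η len w ∨ len w ≤ η len v`); rest: `J1` third part and `zd_rest`.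
`∫ g g_* L = c ZS A - 2K ZS Aᶜ` (`ZS_eq`, `ZS_int`). Result with `c/2`, `K`.
-/

set_option autoImplicit false

open MeasureTheory Set Filter Topology Pool.Agent.H25.Kin Pool.Agent.H48.PL Pool.Agent.H82.CM
open Pool.Agent.H85.UP

namespace Pool.Agent.H15.UP

variable {d : ℕ} {s a C Ca cb : ℝ} {b : ℝ → ℝ}

private lemma j2_coord (e : Fin d) (v : Vec d) : |v e| ≤ jb v := by
  refine le_trans ?_ (len_le_jb v)
  unfold len
  refine Real.le_sqrt_of_sq_le ?_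
  rw [sq_abs]
  unfold nsq
  exact Finset.single_le_sum (f := fun i => v i ^ 2) (fun i _ => sq_nonneg _) (Finset.mem_univ e)

lemma phiJ_cont {q : ℝ} (hq : 0 ≤ q) (τ : ℝ) (e e' : Fin d) : Continuous (phiJ q τ e e') := by
  unfold phiJ
  have h1 : Continuous fun v : Vec d => |v e| := (continuous_apply e).abs
  have h2 : Continuous fun v : Vec d => |v e + τ * v e'| :=
    ((continuous_apply e).add (continuous_const.mul (continuous_apply e'))).abs
  exact (h1.rpow_const fun _ => Or.inr hq).add (h2.rpow_const fun _ => Or.inr hq)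

private lemma j2_pow {q x y : ℝ} (hq : 0 ≤ q) (hq2 : q ≤ 2) (hx : |x| ≤ y) (hy : 1 ≤ y) :
    0 ≤ |x| ^ q ∧ |x| ^ q ≤ y ^ 2 := by
  refine ⟨Real.rpow_nonneg (abs_nonneg _) _, ?_⟩
  calc |x| ^ q ≤ y ^ q := Real.rpow_le_rpow (abs_nonneg _) hx hq
    _ ≤ y ^ (2 : ℝ) := Real.rpow_le_rpow_of_exponent_le hy hq2
    _ = y ^ 2 := by
      rw [show (2 : ℝ) = ((2 : ℕ) : ℝ) by norm_num, Real.rpow_natCast]

/-- `0 ≤ phiJ ≤ 5 ⟨v⟩²` -/
lemma phiJ_le {q τ : ℝ} (hq : 0 ≤ q) (hq2 : q ≤ 2) (hτ : 0 ≤ τ) (hτ1 : τ ≤ 1) (e e' : Fin d)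
    (v : Vec d) : 0 ≤ phiJ q τ e e' v ∧ phiJ q τ e e' v ≤ 5 * jb v ^ 2 := by
  unfold phiJ
  have h1 := one_le_jb v
  have c1 := j2_coord e v
  have c2 := j2_coord e' v
  obtain ⟨a1, a2⟩ := j2_pow hq hq2 c1 h1
  have c3 : |v e + τ * v e'| ≤ 2 * jb v := by
    calc |v e + τ * v e'| ≤ |v e| + |τ * v e'| := abs_add_le _ _
      _ = |v e| + τ * |v e'| := by rw [abs_mul, abs_of_nonneg hτ]
      _ ≤ |v e| + 1 * |v e'| := by gcongr
      _ ≤ 2 * jb v := by linarith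
  obtain ⟨b1, b2⟩ := j2_pow hq hq2 c3 (by linarith : (1 : ℝ) ≤ 2 * jb v)
  refine ⟨add_nonneg a1 b1, ?_⟩
  nlinarith

lemma phiJ_PG {q τ : ℝ} (hq : 0 ≤ q) (hq2 : q ≤ 2) (hτ : 0 ≤ τ) (hτ1 : τ ≤ 1) (e e' : Fin d) :
    PG (phiJ q τ e e') := by
  obtain ⟨N, C, hC, h⟩ := (PG_jb (d := d) (r := 2)).pos
  refine ⟨N, 5 * C, fun v => ?_⟩
  obtain ⟨a1, a2⟩ := phiJ_le hq hq2 hτ hτ1 e e' v
  rw [Real.norm_eq_abs, abs_of_nonneg a1]
  have h3 := h v
  have h4 : jb v ^ (2 : ℝ) = jb v ^ 2 := by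
    rw [show (2 : ℝ) = ((2 : ℕ) : ℝ) by norm_num, Real.rpow_natCast]
  rw [Real.norm_eq_abs, h4, abs_of_nonneg (sq_nonneg _)] at h3
  nlinarith

theorem j_fiber (HL : HypL d (1 + a) s b C Ca cb) (ha : 0 < a) (hs1 : 2 * s < 1) {e e' : Fin d}
    (he : e ≠ e') :
    ∃ q₀ τ θ₀ η : ℝ, 1 < q₀ ∧ q₀ ≤ 2 ∧ 0 < τ ∧ τ ≤ 1 ∧ 0 < θ₀ ∧ 0 < η ∧ η ≤ 1 / 2 ∧
      ∀ q : ℝ, 1 < q → q ≤ q₀ → a + q ≤ 2 → ∃ c K : ℝ, 0 < c ∧ 0 ≤ K ∧
      ∀ θ : ℝ, 0 < θ → θ ≤ θ₀ → ∀ g : Vec d → ℝ, Nice g → (∀ v, 0 ≤ g v) →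
        c * ZS e θ η a q g (thinS e θ ∪ ncS η) ≤
          (∫ v, boltzQ (1 + a) b g v * phiJ q τ e e' v) +
            K * ZS e θ η a q g (thinS e θ ∪ ncS η)ᶜ := by
  classical
  obtain ⟨p₀, τ, eT, eN, hp₀, hp₀2, hτ, hτ1, heT, heT1, heN, heN1, hJ⟩ := J1 HL hs1 he
  refine ⟨p₀, τ, eT, eN, hp₀, hp₀2, hτ, hτ1, heT, heN, heN1, fun q hq hqp haq => ?_⟩
  obtain ⟨c, K, ε₀, hc, hK, hε₀, hthin, hnc, hall⟩ := hJ q hq hqp
  have hq0 : 0 ≤ q := by linarith
  have hq2 : q ≤ 2 := by linarith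
  refine ⟨c / 2, K, by linarith, hK, fun θ hθ hθ0 g hg hg0 => ?_⟩
  have hgc : Continuous g := hg.cont
  have hgr : RD g := hg.rd
  set A : Set (Vec d × Vec d) := thinS e θ ∪ ncS eN with hA
  have hAm : MeasurableSet A := (thinS_meas e θ).union (ncS_meas eN)
  have z1 := ZS_int (e := e) (θ := θ) (η := eN) ha hq haq hgr hgc hAm
  have z2 := ZS_int (e := e) (θ := θ) (η := eN) ha hq haq hgr hgc hAm.compl
  have i1 : Integrable fun p : Vec d × Vec d =>
      c * (g p.1 * g p.2 * A.indicator (zd e θ eN a q) p) := z1.const_mul c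
  have i2 : Integrable fun p : Vec d × Vec d =>
      (2 * K) * (g p.1 * g p.2 * Aᶜ.indicator (zd e θ eN a q) p) := z2.const_mul (2 * K)
  set L : Vec d × Vec d → ℝ := fun p =>
    c * A.indicator (zd e θ eN a q) p - 2 * K * Aᶜ.indicator (zd e θ eN a q) p with hL
  have hfun : (fun p : Vec d × Vec d => g p.1 * g p.2 * L p) =
      fun p => c * (g p.1 * g p.2 * A.indicator (zd e θ eN a q) p) -
        (2 * K) * (g p.1 * g p.2 * Aᶜ.indicator (zd e θ eN a q) p) := by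
    funext p
    simp only [hL]
    ring
  have key := weak_ge_of HL.H hg hg0 (phiJ_PG hq0 hq2 hτ.le hτ1 e e')
    (phiJ_cont hq0 τ e e').measurable (L := L) (by rw [hfun]; exact i1.sub i2) hε₀
    (fun ε hε hε1 v w hvw => by
      by_cases hp : (v, w) ∈ A
      · have hp' : (v, w) ∉ (Aᶜ : Set (Vec d × Vec d)) := fun h => h hp
        simp only [hL]
        rw [indicator_of_mem hp, indicator_of_notMem hp', mul_zero, sub_zero]
        by_cases ht : (v, w) ∈ thinS e θ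
        · have h1 : |v e - w e| ≤ θ * len (v - w) := ht
          have h2 : |v e - w e| ≤ eT * len (v - w) :=
            h1.trans (mul_le_mul_of_nonneg_right hθ0 (len_nonneg _))
          have h3 := zd_thin (η := eN) (q := q) ha ht
          exact (mul_le_mul_of_nonneg_left h3 hc.le).trans (hthin ε hε hε1 v w hvw h2)
        · have hn : (v, w) ∈ ncS eN := by
            rcases hp with h | h
            · exact absurd h ht
            · exact h
          have h1 : len v ≤ eN * len w ∨ len w ≤ eN * len v := hn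
          have h3 := zd_nc (q := q) ha hq ht hn
          exact (mul_le_mul_of_nonneg_left h3 hc.le).trans (hnc ε hε hε1 v w hvw h1.symm)
      · have hp' : (v, w) ∈ (Aᶜ : Set (Vec d × Vec d)) := hp
        simp only [hL]
        rw [indicator_of_notMem hp, indicator_of_mem hp', mul_zero, zero_sub]
        have ht : (v, w) ∉ thinS e θ := fun h => hp (Or.inl h)
        have hn : (v, w) ∉ ncS eN := fun h => hp (Or.inr h)
        have h3 := zd_rest (q := q) ha hq haq ht hn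
        have h4 := hall ε hε v w hvw
        have h5 := mul_le_mul_of_nonneg_left h3 hK
        refine le_trans ?_ h4
        have h6 : K * (2 * zd e θ eN a q (v, w)) = 2 * K * zd e θ eN a q (v, w) := by ring
        rw [h6] at h5
        exact neg_le_neg h5)
  rw [hfun, integral_sub i1 i2, integral_const_mul, integral_const_mul, ← ZS_eq, ← ZS_eq] at key
  linarith

end Pool.Agent.H15.UP
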