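import Pool.Agent.H15.UP.J2
import Pool.Agent.H48.PL.CSolP
import Pool.Agent.H48.PL.TimA

/-!
# Module J3: block J in time (`j_time` of H85/UP/Blk.lean)

`e' ≠ e` exists (`2 ≤ d`: `HL.H.hd`, `Fin.nontrivial_iff_two_le`). Copy of `pov_time` (H48/PL/TimA) with `φ = phiJ q τ e e'` instead of `jb^a`: `csol_mom` (`phiJ_PG`, `phiJ_cont`), `CSol.ftc`, boundary terms
`0 ≤ ∫ f phiJ ≤ 5 ∫ f jb² ≤ 10 M` (`phiJ_le`, `glob_bounds`, `jb2_bound`; `0 ≤ M` is not needed: `0 ≤ ∫ f jb² ≤ 2M`), fiber inequality `j_fiber` for `g = f τ x` (`hf.nice`), `ZS e θ η a q g A = XG 1 (A.indicator zw) g`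
by definition: continuity and integrability `XGt_cont`, `XG_int` (H25/PT/XWC, with `a = 1`; `zw_meas`, `zw_nonneg`, `zw_le` for the indicator), `K = max K₀ 10`.
-/

set_option autoImplicit false

open MeasureTheory Set Filter Topology Pool.Agent.H25.Kin Pool.Agent.H48.PL Pool.Agent.H82.BK Pool.Agent.H82.CM
open Pool.Agent.H48.PI Pool.Agent.H25.PT Pool.Agent.H85.UP

namespace Pool.Agent.H15.UP

variable {d : ℕ} {s a C Ca cb : ℝ} {b : ℝ → ℝ}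

private lemma j3_cont {F : ℝ → Vec d → Vec d → ℝ} {D : Set ℝ} (h : ContinuousOn (unc F) (D ×ˢ univ))
    {t : ℝ} (ht : t ∈ D) : Continuous fun q : Vec d × Vec d => F t q.2 q.1 := by
  have h1 : Continuous fun q : Vec d × Vec d => (t, q.2, q.1) := by fun_prop
  exact h.comp_continuous h1 fun q => ⟨ht, mem_univ _⟩

private lemma j3_int {F : ℝ → Vec d → Vec d → ℝ} {D : Set ℝ} (h : ContinuousOn (unc F) (D ×ˢ univ))
    {t : ℝ} (ht : t ∈ D) {K : ℝ} (hK : ∀ x v, |F t x v| ≤ K * wt d v) :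
    Integrable (fun q : Vec d × Vec d => F t q.2 q.1) (nu d) :=
  integrable_nu (j3_cont h ht).aestronglyMeasurable fun q => hK q.2 q.1

private lemma j3_ind {e : Fin d} {θ η q : ℝ} (ha : 0 < a) (hq : 1 < q) (haq : a + q ≤ 2)
    {A : Set (Vec d × Vec d)} (hA : MeasurableSet A) :
    Measurable (A.indicator (zw e θ η a q)) ∧ (∀ p, 0 ≤ A.indicator (zw e θ η a q) p) ∧
      ∀ p, A.indicator (zw e θ η a q) p ≤ 1 := by
  refine ⟨(zw_meas e θ η a q).indicator hA, fun p => indicator_nonneg (fun p _ => zw_nonneg p) p,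
    fun p => ?_⟩
  by_cases hp : p ∈ A
  · rw [indicator_of_mem hp]
    exact zw_le ha hq haq p
  · rw [indicator_of_notMem hp]
    exact zero_le_one

theorem j_time (HL : HypL d (1 + a) s b C Ca cb) (h1 : 2 * s < a) (h2 : a + 2 * s < 1) (e : Fin d) :
    ∃ q₀ : ℝ, 1 < q₀ ∧ ∀ q : ℝ, 1 < q → q ≤ q₀ → a + q ≤ 2 → ∃ θ₀ η : ℝ, 0 < θ₀ ∧ 0 < η ∧ η ≤ 1 / 2 ∧
    ∀ θ : ℝ, 0 < θ → θ ≤ θ₀ → ∃ c K : ℝ, 0 < c ∧ 0 ≤ K ∧
    ∀ (M T : ℝ) (f : ℝ → Vec d → Vec d → ℝ), IsBoltzmannSol (1 + a) b T f → GB M (f 0) →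
      ∀ r t : ℝ, 0 < r → r ≤ t → t < T →
      c * ∫ τ in r..t, (∫ x, ZS e θ η a q (f τ x) (thinS e θ ∪ ncS η) ∂(muD d)) ≤
        K * M + K * ∫ τ in r..t, (∫ x, ZS e θ η a q (f τ x) (thinS e θ ∪ ncS η)ᶜ ∂(muD d)) := by
  have hs0 : 0 < s := HL.H.hs
  have ha0 : 0 < a := by linarith
  have hs1 : 2 * s < 1 := by linarith
  obtain ⟨e', he'⟩ : ∃ e' : Fin d, e ≠ e' := by
    have : Nontrivial (Fin d) := Fin.nontrivial_iff_two_le.2 HL.H.hd
    obtain ⟨e', he'⟩ := exists_ne e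
    exact ⟨e', he'.symm⟩
  obtain ⟨q₀, ρ, θ₀, η, hq₀, hq₀2, hρ, hρ1, hθ₀, hη, hη1, hJ⟩ := j_fiber HL ha0 hs1 he'
  refine ⟨q₀, hq₀, fun q hq hqq haq => ⟨θ₀, η, hθ₀, hη, hη1, fun θ hθ hθθ => ?_⟩⟩
  obtain ⟨c, K₀, hc, hK₀, hF⟩ := hJ q hq hqq haq
  have hq0 : 0 ≤ q := by linarith
  have hq2 : q ≤ 2 := by linarith
  refine ⟨c, max K₀ 10, hc, hK₀.trans (le_max_left _ _), fun M T f hf h0 r t hr hrt htT => ?_⟩
  have hf' : IsClassicalSol T (fun t x => boltzQ (1 + a) b (f t x)) f := hf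
  have HA := csol_mom hf' (phiJ_PG hq0 hq2 hρ.le hρ1 e e') (phiJ_cont hq0 ρ e e')
  have hjc : ∀ r : ℝ, Continuous fun v : Vec d => jb v ^ r := fun r =>
    jb_cont.rpow_const fun v => Or.inl (jb_pos v).ne'
  have H2 := csol_mom hf' (PG_jb (d := d) (r := 2)) (hjc 2)
  have ht : t ∈ Ico 0 T := ⟨hr.le.trans hrt, htT⟩
  have hrI : r ∈ Ico 0 T := ⟨hr.le, hrt.trans_lt htT⟩
  -- the boundary terms
  have hftc := HA.ftc hr hrt htT
  have b0 : 0 ≤ ∫ p, f r p.2 p.1 * phiJ q ρ e e' p.1 ∂(nu d) :=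
    integral_nonneg fun p => mul_nonneg (hf'.nonneg r hrI _ _) (phiJ_le hq0 hq2 hρ.le hρ1 e e' _).1
  have b2M : ∫ p, f t p.2 p.1 * jb p.1 ^ 2 ∂(nu d) ≤ 2 * M := jb2_bound hf ht (glob_bounds HL.H hf h0 ht)
  have b20 : 0 ≤ ∫ p, f t p.2 p.1 * jb p.1 ^ 2 ∂(nu d) :=
    integral_nonneg fun p => mul_nonneg (hf'.nonneg t ht _ _) (sq_nonneg _)
  have hM : 0 ≤ M := by linarith
  have b1 : ∫ p, f t p.2 p.1 * phiJ q ρ e e' p.1 ∂(nu d) ≤ 10 * M := by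
    obtain ⟨K, hK⟩ := HA.dec t htT
    obtain ⟨K2, hK2⟩ := H2.dec t htT
    have i1 := j3_int HA.cont ht (hK t ⟨ht.1, le_rfl⟩)
    have i2 := j3_int H2.cont ht (hK2 t ⟨ht.1, le_rfl⟩)
    have e2 : (fun q : Vec d × Vec d => f t q.2 q.1 * jb q.1 ^ (2 : ℝ)) =
        fun q => f t q.2 q.1 * jb q.1 ^ (2 : ℕ) := by
      funext q
      rw [Real.rpow_two]
    rw [e2] at i2
    have h5 : ∫ p, f t p.2 p.1 * phiJ q ρ e e' p.1 ∂(nu d) ≤
        ∫ p, 5 * (f t p.2 p.1 * jb p.1 ^ 2) ∂(nu d) := by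
      refine integral_mono i1 (i2.const_mul 5) fun p => ?_
      have h6 := (phiJ_le hq0 hq2 hρ.le hρ1 e e' p.1).2
      have h7 := hf'.nonneg t ht p.2 p.1
      have h8 := mul_le_mul_of_nonneg_left h6 h7
      show f t p.2 p.1 * phiJ q ρ e e' p.1 ≤ 5 * (f t p.2 p.1 * jb p.1 ^ 2)
      linarith
    rw [integral_const_mul] at h5
    linarith
  have b2 : ∫ τ in r..t, (∫ p, boltzQ (1 + a) b (f τ p.2) p.1 * phiJ q ρ e e' p.1 ∂(nu d)) ≤ 10 * M := by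
    rw [← hftc]
    linarith
  -- interval integrability
  have hsub : uIcc r t ⊆ Ioo 0 T := by
    rw [uIcc_of_le hrt]
    exact fun τ hτ => ⟨hr.trans_le hτ.1, hτ.2.trans_lt htT⟩
  have hsub2 : uIcc r t ⊆ Ico 0 T := fun τ hτ => ⟨(hsub hτ).1.le, (hsub hτ).2⟩
  have hAm : MeasurableSet (thinS e θ ∪ ncS η : Set (Vec d × Vec d)) := (thinS_meas e θ).union (ncS_meas η)
  obtain ⟨w1, w2, w3⟩ := j3_ind (e := e) (θ := θ) (η := η) ha0 hq haq hAm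
  obtain ⟨w1', w2', w3'⟩ := j3_ind (e := e) (θ := θ) (η := η) ha0 hq haq hAm.compl
  have j0 : IntervalIntegrable (fun τ => ∫ p, boltzQ (1 + a) b (f τ p.2) p.1 * phiJ q ρ e e' p.1 ∂(nu d))
      volume r t := (HA.contI.mono hsub).intervalIntegrable
  have j1 : IntervalIntegrable (fun τ => ∫ x, ZS e θ η a q (f τ x) (thinS e θ ∪ ncS η) ∂(muD d))
      volume r t :=
    ((XGt_cont zero_le_one le_rfl hf' w1 w2 w3).mono hsub2).intervalIntegrable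
  have j2 : IntervalIntegrable (fun τ => ∫ x, ZS e θ η a q (f τ x) (thinS e θ ∪ ncS η)ᶜ ∂(muD d))
      volume r t :=
    ((XGt_cont zero_le_one le_rfl hf' w1' w2' w3').mono hsub2).intervalIntegrable
  -- the pointwise inequality
  have key : ∀ τ ∈ Icc r t, c * (∫ x, ZS e θ η a q (f τ x) (thinS e θ ∪ ncS η) ∂(muD d)) ≤
      (∫ p, boltzQ (1 + a) b (f τ p.2) p.1 * phiJ q ρ e e' p.1 ∂(nu d)) +
        K₀ * ∫ x, ZS e θ η a q (f τ x) (thinS e θ ∪ ncS η)ᶜ ∂(muD d) := by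
    intro τ hτ
    have hτ' : τ ∈ Ioo 0 T := ⟨hr.trans_le hτ.1, hτ.2.trans_lt htT⟩
    have hτ2 : τ ∈ Ico 0 T := ⟨hτ'.1.le, hτ'.2⟩
    obtain ⟨K, hK⟩ := HA.decS τ hτ'.1 τ hτ'.2
    have i1 : Integrable (fun p : Vec d × Vec d => boltzQ (1 + a) b (f τ p.2) p.1 * phiJ q ρ e e' p.1)
        (nu d) := j3_int HA.contS hτ' (hK τ ⟨le_rfl, le_rfl⟩)
    have i2 : Integrable (fun x => ∫ v, boltzQ (1 + a) b (f τ x) v * phiJ q ρ e e' v) (muD d) := by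
      unfold nu at i1
      exact i1.integral_prod_right
    have i3 : Integrable (fun x => ZS e θ η a q (f τ x) (thinS e θ ∪ ncS η)) (muD d) :=
      XG_int zero_le_one le_rfl hf' w1 w2 w3 hτ2
    have i4 : Integrable (fun x => ZS e θ η a q (f τ x) (thinS e θ ∪ ncS η)ᶜ) (muD d) :=
      XG_int zero_le_one le_rfl hf' w1' w2' w3' hτ2
    rw [Pool.Agent.H15.AV.nu_integral i1, ← integral_const_mul, ← integral_const_mul,
      ← integral_add i2 (i4.const_mul K₀)]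
    refine integral_mono (i3.const_mul c) (i2.add (i4.const_mul K₀)) fun x => ?_
    exact hF θ hθ hθθ (f τ x) (hf'.nice hτ' x) fun v => hf'.nonneg τ hτ2 x v
  have k1 := intervalIntegral.integral_mono_on hrt (j1.const_mul c) (j0.add (j2.const_mul K₀)) key
  rw [intervalIntegral.integral_add j0 (j2.const_mul K₀), intervalIntegral.integral_const_mul,
    intervalIntegral.integral_const_mul] at k1
  have k2 : 0 ≤ ∫ τ in r..t, (∫ x, ZS e θ η a q (f τ x) (thinS e θ ∪ ncS η)ᶜ ∂(muD d)) := by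
    refine intervalIntegral.integral_nonneg hrt fun τ hτ => integral_nonneg fun x => ?_
    have hτ2 : τ ∈ Ico 0 T := ⟨hr.le.trans hτ.1, hτ.2.trans_lt htT⟩
    exact integral_nonneg fun p => mul_nonneg (dens_nonneg (fun v => hf'.nonneg τ hτ2 x v) p) (w2' p)
  have k3 := mul_le_mul_of_nonneg_right (le_max_left K₀ 10) k2
  have k4 := mul_le_mul_of_nonneg_right (le_max_right K₀ 10) hM
  linarith

end Pool.Agent.H15.UP
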