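import Pool.Agent.H15.UP.Defs

/-!
# Module ScC: scalar inequalities for the sum of two terms

* `two_loss`: `p = 1+r`. If `x y ≤ 0` the left side is `≤ 0 ≤` right side (`two_gain`). Otherwise (signs) wlog `x, y > 0`:
  `(x+y)^p - x^p - y^p = x[(x+y)^r - x^r] + y[(x+y)^r - y^r]`; first `≤ x r x^(r-1) y = r x^r y ≤ r M^(p-ρ) y^ρ`; second: with `z = (x+y)/y ≥ 1`,
  `z^r - 1 ≤ r log z z^r ≤ (r/(1-ρ)) z^(r+1-ρ)` (`Real.log_le_rpow_div`), so `y[(x+y)^r - y^r] ≤ (r/(1-ρ)) y^ρ (x+y)^(p-ρ)`.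
* `two_gain`: `|x+y| ≤ max |x| |y|` if `x y ≤ 0`.
* `sec_diff`: `||a|^p - |b|^p| ≤ p M^(p-1)|a-b|` for `|a|,|b| ≤ M` (mean value theorem, `|.|^p` differentiable or wlog ordered nonnegative), used in the two ways of
  pairing the four terms: `(|x+h+k|^p - |x+h|^p) - (|x+k|^p - |x|^p)` is `≤ 2p M^(p-1)|k|`, and symmetrically `≤ 2p M^(p-1)|h|`; `2p ≤ 4`.
-/

set_option autoImplicit false

open MeasureTheory Set Filter Topology Pool.Agent.H25.Kin

namespace Pool.Agent.H15.UP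

variable {p : ℝ}

lemma two_gain (hp : 1 ≤ p) {x y : ℝ} (h : x * y ≤ 0) :
    min |x| |y| ^ p ≤ |x| ^ p + |y| ^ p - |x + y| ^ p := by
  have h0 : |x + y| ≤ max |x| |y| := by
    rcases le_total 0 x with hx | hx
    · rcases le_total 0 y with hy | hy
      · have hxy : x * y = 0 := le_antisymm h (mul_nonneg hx hy)
        rcases mul_eq_zero.1 hxy with h1 | h1
        · rw [h1, zero_add]; exact le_max_right _ _
        · rw [h1, add_zero]; exact le_max_left _ _
      · rw [abs_of_nonneg hx, abs_of_nonpos hy, abs_le]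
        constructor
        · have := le_max_right x (-y); linarith
        · have := le_max_left x (-y); linarith
    · rcases le_total 0 y with hy | hy
      · rw [abs_of_nonpos hx, abs_of_nonneg hy, abs_le]
        constructor
        · have := le_max_left (-x) y; linarith
        · have := le_max_right (-x) y; linarith
      · have hxy : x * y = 0 := le_antisymm h (mul_nonneg_of_nonpos_of_nonpos hx hy)
        rcases mul_eq_zero.1 hxy with h1 | h1
        · rw [h1, zero_add]; exact le_max_right _ _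
        · rw [h1, add_zero]; exact le_max_left _ _
  have h1 : |x + y| ^ p ≤ max |x| |y| ^ p := Real.rpow_le_rpow (abs_nonneg _) h0 (by linarith)
  have h2 : min |x| |y| ^ p + max |x| |y| ^ p = |x| ^ p + |y| ^ p := by
    rcases le_total |x| |y| with h3 | h3
    · rw [min_eq_left h3, max_eq_right h3]
    · rw [min_eq_right h3, max_eq_left h3, add_comm]
  linarith

private lemma ScC_loss (hp : 1 ≤ p) (hp2 : p ≤ 2) {ρ : ℝ} (hρ : 0 < ρ) (hρ1 : ρ < 1) {X Y M : ℝ}
    (hX : 0 < X) (hY : 0 < Y) (hM : X + Y ≤ M) :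
    (X + Y) ^ p - X ^ p - Y ^ p ≤ (p - 1) * (1 + 1 / (1 - ρ)) * (Y ^ ρ * M ^ (p - ρ)) := by
  have hM0 : 0 < M := by linarith
  have hXM : X ≤ M := by linarith
  have hYM : Y ≤ M := by linarith
  have hS : 0 < X + Y := by linarith
  set r := p - 1 with hr
  have hr0 : 0 ≤ r := by linarith
  have hr1 : r ≤ 1 := by linarith
  have hsplit : ∀ Z : ℝ, 0 < Z → Z ^ p = Z * Z ^ r := by
    intro Z hZ
    have : p = 1 + r := by rw [hr]; ring
    rw [this, Real.rpow_add hZ, Real.rpow_one]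
  -- first term
  have h1 : X * ((X + Y) ^ r - X ^ r) ≤ r * (Y ^ ρ * M ^ (p - ρ)) := by
    have hb : (1 + Y / X) ^ r ≤ 1 + r * (Y / X) :=
      rpow_one_add_le_one_add_mul_self (by have := div_pos hY hX; linarith) hr0 hr1
    have h2 : (X + Y) ^ r = X ^ r * (1 + Y / X) ^ r := by
      rw [← Real.mul_rpow hX.le (by have := div_pos hY hX; linarith)]
      congr 1
      field_simp
    have hXr : 0 < X ^ r := Real.rpow_pos_of_pos hX r
    have h3 : X * ((X + Y) ^ r - X ^ r) ≤ r * (X ^ r * Y) := by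
      rw [h2]
      have h4 : X ^ r * (1 + Y / X) ^ r ≤ X ^ r * (1 + r * (Y / X)) := mul_le_mul_of_nonneg_left hb hXr.le
      calc X * (X ^ r * (1 + Y / X) ^ r - X ^ r) ≤ X * (X ^ r * (1 + r * (Y / X)) - X ^ r) :=
            mul_le_mul_of_nonneg_left (by linarith) hX.le
        _ = r * (X ^ r * Y) := by field_simp; ring
    have h5 : X ^ r ≤ M ^ r := Real.rpow_le_rpow hX.le hXM hr0
    have h6 : Y = Y ^ ρ * Y ^ (1 - ρ) := by
      rw [← Real.rpow_add hY]
      have : ρ + (1 - ρ) = 1 := by ring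
      rw [this, Real.rpow_one]
    have h7 : Y ^ (1 - ρ) ≤ M ^ (1 - ρ) := Real.rpow_le_rpow hY.le hYM (by linarith)
    have h8 : X ^ r * Y ≤ Y ^ ρ * M ^ (p - ρ) := by
      have h9 : M ^ (p - ρ) = M ^ r * M ^ (1 - ρ) := by
        rw [← Real.rpow_add hM0]
        congr 1
        rw [hr]; ring
      have hYρ : 0 < Y ^ ρ := Real.rpow_pos_of_pos hY ρ
      calc X ^ r * Y = Y ^ ρ * (X ^ r * Y ^ (1 - ρ)) := by
            conv_lhs => rw [h6]
            ring
        _ ≤ Y ^ ρ * (M ^ r * M ^ (1 - ρ)) := by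
            refine mul_le_mul_of_nonneg_left ?_ hYρ.le
            exact mul_le_mul h5 h7 (Real.rpow_nonneg hY.le _) (Real.rpow_nonneg hM0.le _)
        _ = Y ^ ρ * M ^ (p - ρ) := by rw [h9]
    exact h3.trans (mul_le_mul_of_nonneg_left h8 hr0)
  -- second term
  have h2 : Y * ((X + Y) ^ r - Y ^ r) ≤ r * (1 / (1 - ρ)) * (Y ^ ρ * M ^ (p - ρ)) := by
    set z := (X + Y) / Y with hz
    have hz0 : 0 < z := div_pos hS hY
    have hzY : X + Y = Y * z := by rw [hz]; field_simp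
    have hz1 : 1 ≤ z := by
      rw [hz, le_div_iff₀ hY]; linarith
    have hlog : Real.log z ≤ z ^ (1 - ρ) / (1 - ρ) := Real.log_le_rpow_div hz0.le (by linarith)
    have h3 : z ^ r - 1 ≤ r * Real.log z * z ^ r := by
      have h4 : z ^ r = Real.exp (r * Real.log z) := by
        rw [Real.rpow_def_of_pos hz0, mul_comm]
      have h5 : 1 - r * Real.log z ≤ Real.exp (-(r * Real.log z)) := by
        have := Real.add_one_le_exp (-(r * Real.log z))
        linarith
      have h6 : Real.exp (-(r * Real.log z)) * z ^ r = 1 := by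
        rw [h4, ← Real.exp_add]; simp
      have h7 : 0 < z ^ r := Real.rpow_pos_of_pos hz0 r
      have h8 := mul_le_mul_of_nonneg_right h5 h7.le
      rw [h6] at h8
      nlinarith [h8]
    have h4 : z ^ r - 1 ≤ r * (1 / (1 - ρ)) * z ^ (p - ρ) := by
      have h5 : z ^ (p - ρ) = z ^ (1 - ρ) * z ^ r := by
        rw [← Real.rpow_add hz0]; congr 1; rw [hr]; ring
      calc z ^ r - 1 ≤ r * Real.log z * z ^ r := h3
        _ ≤ r * (z ^ (1 - ρ) / (1 - ρ)) * z ^ r := by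
            refine mul_le_mul_of_nonneg_right ?_ (Real.rpow_nonneg hz0.le _)
            exact mul_le_mul_of_nonneg_left hlog hr0
        _ = r * (1 / (1 - ρ)) * z ^ (p - ρ) := by rw [h5]; ring
    have hYp : 0 < Y ^ p := Real.rpow_pos_of_pos hY p
    have h5 : Y * ((X + Y) ^ r - Y ^ r) = Y ^ p * (z ^ r - 1) := by
      rw [hzY, Real.mul_rpow hY.le hz0.le, hsplit Y hY]; ring
    have h6 : Y ^ p * z ^ (p - ρ) = Y ^ ρ * (X + Y) ^ (p - ρ) := by
      rw [hzY, Real.mul_rpow hY.le hz0.le, ← mul_assoc, ← Real.rpow_add hY]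
      congr 2
      ring
    have h7 : (X + Y) ^ (p - ρ) ≤ M ^ (p - ρ) := Real.rpow_le_rpow hS.le hM (by linarith)
    have h8 : 0 ≤ r * (1 / (1 - ρ)) := mul_nonneg hr0 (by
      have : 0 < 1 - ρ := by linarith
      positivity)
    calc Y * ((X + Y) ^ r - Y ^ r) = Y ^ p * (z ^ r - 1) := h5
      _ ≤ Y ^ p * (r * (1 / (1 - ρ)) * z ^ (p - ρ)) := mul_le_mul_of_nonneg_left h4 hYp.le
      _ = r * (1 / (1 - ρ)) * (Y ^ p * z ^ (p - ρ)) := by ring
      _ = r * (1 / (1 - ρ)) * (Y ^ ρ * (X + Y) ^ (p - ρ)) := by rw [h6]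
      _ ≤ r * (1 / (1 - ρ)) * (Y ^ ρ * M ^ (p - ρ)) := by
          refine mul_le_mul_of_nonneg_left ?_ h8
          exact mul_le_mul_of_nonneg_left h7 (Real.rpow_nonneg hY.le _)
  have h3 : (X + Y) ^ p - X ^ p - Y ^ p = X * ((X + Y) ^ r - X ^ r) + Y * ((X + Y) ^ r - Y ^ r) := by
    rw [hsplit _ hS, hsplit X hX, hsplit Y hY]; ring
  rw [h3]
  calc X * ((X + Y) ^ r - X ^ r) + Y * ((X + Y) ^ r - Y ^ r)
      ≤ r * (Y ^ ρ * M ^ (p - ρ)) + r * (1 / (1 - ρ)) * (Y ^ ρ * M ^ (p - ρ)) := add_le_add h1 h2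
    _ = r * (1 + 1 / (1 - ρ)) * (Y ^ ρ * M ^ (p - ρ)) := by ring

lemma two_loss (hp : 1 ≤ p) (hp2 : p ≤ 2) {ρ : ℝ} (hρ : 0 < ρ) (hρ1 : ρ < 1) {x y M : ℝ}
    (hM : |x| + |y| ≤ M) :
    |x + y| ^ p - |x| ^ p - |y| ^ p ≤ (p - 1) * (1 + 1 / (1 - ρ)) * (|y| ^ ρ * M ^ (p - ρ)) := by
  rcases le_or_gt (x * y) 0 with h | h
  · have h1 := two_gain hp h
    have h2 : 0 ≤ min |x| |y| ^ p := Real.rpow_nonneg (le_min (abs_nonneg _) (abs_nonneg _)) _
    have h3 : 0 ≤ (p - 1) * (1 + 1 / (1 - ρ)) * (|y| ^ ρ * M ^ (p - ρ)) := by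
      have hM0 : 0 ≤ M := le_trans (by positivity) hM
      have h4 : 0 < 1 - ρ := by linarith
      have h5 : 0 ≤ p - 1 := by linarith
      have h6 : 0 ≤ |y| ^ ρ := Real.rpow_nonneg (abs_nonneg _) _
      have h7 : 0 ≤ M ^ (p - ρ) := Real.rpow_nonneg hM0 _
      positivity
    linarith
  · have hx : x ≠ 0 := fun h0 => by rw [h0, zero_mul] at h; exact lt_irrefl _ h
    have hy : y ≠ 0 := fun h0 => by rw [h0, mul_zero] at h; exact lt_irrefl _ h
    have hxy : |x + y| = |x| + |y| := by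
      rcases pos_and_pos_or_neg_and_neg_of_mul_pos h with ⟨h1, h2⟩ | ⟨h1, h2⟩
      · rw [abs_of_pos h1, abs_of_pos h2, abs_of_pos (by linarith)]
      · rw [abs_of_neg h1, abs_of_neg h2, abs_of_neg (by linarith)]; ring
    rw [hxy]
    exact ScC_loss hp hp2 hρ hρ1 (abs_pos.2 hx) (abs_pos.2 hy) hM

private lemma ScC_lip0 (hp : 1 ≤ p) {A B M : ℝ} (hB : 0 ≤ B) (hBA : B ≤ A) (hA : A ≤ M) :
    A ^ p - B ^ p ≤ p * M ^ (p - 1) * (A - B) := by
  rcases hBA.eq_or_lt with h | h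
  · rw [h]; simp
  have hA0 : 0 < A := lt_of_le_of_lt hB h
  have h1 : 1 + p * (B / A - 1) ≤ (1 + (B / A - 1)) ^ p :=
    one_add_mul_self_le_rpow_one_add (by have := div_nonneg hB hA0.le; linarith) hp
  have h2 : (1 + (B / A - 1)) ^ p = B ^ p / A ^ p := by
    rw [← Real.div_rpow hB hA0.le]; congr 1; ring
  have hAp : 0 < A ^ p := Real.rpow_pos_of_pos hA0 p
  rw [h2, le_div_iff₀ hAp] at h1
  have h3 : A ^ p = A ^ (p - 1) * A := by
    conv_rhs => rw [← Real.rpow_one A]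
    rw [Real.rpow_one, ← Real.rpow_add_one hA0.ne']
    congr 1; ring
  have h4 : (1 + p * (B / A - 1)) * A ^ p = A ^ p + p * A ^ (p - 1) * (B - A) := by
    rw [h3]; field_simp
  rw [h4] at h1
  have h5 : A ^ (p - 1) ≤ M ^ (p - 1) := Real.rpow_le_rpow hA0.le hA (by linarith)
  have h6 : p * A ^ (p - 1) * (A - B) ≤ p * M ^ (p - 1) * (A - B) := by
    refine mul_le_mul_of_nonneg_right ?_ (by linarith)
    exact mul_le_mul_of_nonneg_left h5 (by linarith)
  linarith

private lemma ScC_lip (hp : 1 ≤ p) {a b M : ℝ} (ha : |a| ≤ M) (hb : |b| ≤ M) :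
    |(|a| ^ p - |b| ^ p)| ≤ p * M ^ (p - 1) * |a - b| := by
  have hM0 : 0 ≤ M := (abs_nonneg a).trans ha
  have h0 : 0 ≤ p * M ^ (p - 1) := mul_nonneg (by linarith) (Real.rpow_nonneg hM0 _)
  rcases le_total |b| |a| with h | h
  · have h1 := ScC_lip0 hp (abs_nonneg b) h ha
    have h2 : |b| ^ p ≤ |a| ^ p := Real.rpow_le_rpow (abs_nonneg _) h (by linarith)
    rw [abs_of_nonneg (by linarith)]
    refine h1.trans (mul_le_mul_of_nonneg_left ?_ h0)
    exact abs_sub_abs_le_abs_sub a b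
  · have h1 := ScC_lip0 hp (abs_nonneg a) h hb
    have h2 : |a| ^ p ≤ |b| ^ p := Real.rpow_le_rpow (abs_nonneg _) h (by linarith)
    rw [abs_of_nonpos (by linarith), neg_sub]
    refine h1.trans (mul_le_mul_of_nonneg_left ?_ h0)
    rw [abs_sub_comm]
    exact abs_sub_abs_le_abs_sub b a

lemma sec_diff (hp : 1 ≤ p) (hp2 : p ≤ 2) {x h k M : ℝ} (hM : |x| + |h| + |k| ≤ M) :
    |(|x + h + k| ^ p - |x + h| ^ p - |x + k| ^ p + |x| ^ p)| ≤ 4 * M ^ (p - 1) * min |h| |k| := by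
  have hx := abs_nonneg x
  have hh := abs_nonneg h
  have hk := abs_nonneg k
  have hM0 : 0 ≤ M := by linarith
  have m1 : |x + h + k| ≤ M := by
    have h1 := abs_add_le (x + h) k
    have h2 := abs_add_le x h
    linarith
  have m2 : |x + h| ≤ M := by
    have h2 := abs_add_le x h
    linarith
  have m3 : |x + k| ≤ M := by
    have h2 := abs_add_le x k
    linarith
  have m4 : |x| ≤ M := by linarith
  have hMp : 0 ≤ M ^ (p - 1) := Real.rpow_nonneg hM0 _
  have key : ∀ t : ℝ, 0 ≤ t → 2 * (p * M ^ (p - 1) * t) ≤ 4 * M ^ (p - 1) * t := by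
    intro t ht
    have h1 : 0 ≤ M ^ (p - 1) * t := mul_nonneg hMp ht
    nlinarith
  rcases le_total |h| |k| with h1 | h1
  · rw [min_eq_left h1]
    have e : |x + h + k| ^ p - |x + h| ^ p - |x + k| ^ p + |x| ^ p =
        (|x + h + k| ^ p - |x + k| ^ p) + (|x| ^ p - |x + h| ^ p) := by ring
    have l1 := ScC_lip hp m1 m3
    have l2 := ScC_lip hp m4 m2
    have e1 : x + h + k - (x + k) = h := by ring
    have e2 : x - (x + h) = -h := by ring
    rw [e1] at l1
    rw [e2, abs_neg] at l2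
    rw [e]
    refine (abs_add_le _ _).trans ?_
    have := key |h| hh
    linarith
  · rw [min_eq_right h1]
    have e : |x + h + k| ^ p - |x + h| ^ p - |x + k| ^ p + |x| ^ p =
        (|x + h + k| ^ p - |x + h| ^ p) + (|x| ^ p - |x + k| ^ p) := by ring
    have l1 := ScC_lip hp m1 m2
    have l2 := ScC_lip hp m4 m3
    have e1 : x + h + k - (x + h) = k := by ring
    have e2 : x - (x + k) = -k := by ring
    rw [e1] at l1
    rw [e2, abs_neg] at l2
    rw [e]
    refine (abs_add_le _ _).trans ?_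
    have := key |k| hk
    linarith

end Pool.Agent.H15.UP
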