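import Pool.Agent.H15.UP.Defs
import Pool.Agent.H15.UP.ScC

/-!
# Module NcP: pointwise bounds for non comparable velocities (`len w ≤ η len v`, `η ≤ 1/2`), one linear form, `nsq f ≤ 2`

`ρ = (1+2s)/2 ∈ (2s,1)`. `A = dot f v`, `B = dot f w`, `z = A - dot f (post v w σ) = dot f (v-w)/2 - X dot f σ`, `X = len(v-w)/2`: `dot f (post) = A - z`, `dot f (post') = B + z`
(`post + post' = v + w`). `|A| ≤ √2 len v ≤ 2√2 len(v-w)` (`len v ≤ 2 len (v-w)` by `η ≤ 1/2`), `|B| ≤ √2 η len v ≤ 3η len(v-w)`, `|z| = |dot f (post - v)| ≤ √2 len(post - v) = √2 X √(2(1-x)) = len √(1-x)`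
(`post_eq`, `nsq_sub_dirk`), so `|z|^ρ ≤ len^ρ (1-x)^(ρ/2)`, `|z| ≤ 2 len`; all sums of three of these are `≤ 10 len`.
`D = |A-z|^p + |B+z|^p - |A|^p - |B|^p`.
* `D = D₀ + E`, `D₀ = |A-z|^p + |z|^p - |A|^p ≥ -(p-1)(1+1/(1-ρ)) |z|^ρ (10 len)^(p-ρ)` (`two_loss` with `x = A-z`, `y = z`),
  `E = |B+z|^p - |z|^p - |B|^p` (`= sec_diff` with `x = 0`, `h = B`, `k = z`; `|0|^p = 0`): `|E| ≤ 4(10 len)^(p-1) min |B| |z| ≤ 4 (10 len)^(p-1) |z|^ρ |B|^(1-ρ)`. Total with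
  `K = 10^2·(1+1/(1-ρ)) + 2·4·10·3`: `nc_pt`.
* `nc_ptg`: `A' = dot f (v-w) = A - B`; `D₀' = |A'-z|^p + |z|^p - |A'|^p ≥ min(|A'-z|,|z|)^p` if `(A'-z) z ≤ 0` (`two_gain`): `A'-z = y₀ + X q`, `z = y₀ - X q`, `y₀ = dot f (v-w)/2`, `q = dot f σ`; the
  hypothesis gives `X|q| ≥ |y₀| + μ len/2`, so the product `y₀² - X²q² ≤ 0` and both factors are `≥ μ len/2` in absolute value: `D₀' ≥ (μ len/2)^p ≥ (μ²/4) len^p` (`μ ≤ 1`... `(μ/2)^p ≥ (μ/2)^2`).
  `D₀ - D₀' = |A'+B-z|^p - |A'-z|^p - |A'+B|^p + |A'|^p` is a `sec_diff` (`x = A'`, `h = B`, `k = -z`).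
-/

set_option autoImplicit false

open MeasureTheory Set Filter Topology Pool.Agent.H25.Kin Pool.Agent.H48.PL Pool.Agent.H82.CM

namespace Pool.Agent.H15.UP

variable {d : ℕ} {s : ℝ}

private lemma ncp_abs_dot {f u : Vec d} (hf : nsq f ≤ 2) : |dot f u| ≤ √2 * len u := by
  refine abs_le_of_sq_le_sq' ?_ (by positivity [len_nonneg u]) |> abs_le.2
  rw [mul_pow, Real.sq_sqrt (by norm_num), len_sq]
  exact (dot_sq_le f u).trans (mul_le_mul_of_nonneg_right hf (sq_nonneg' u))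

private lemma ncp_min {a b ρ : ℝ} (ha : 0 ≤ a) (hb : 0 ≤ b) (hρ : 0 < ρ) (hρ1 : ρ < 1) :
    min a b ≤ b ^ ρ * a ^ (1 - ρ) := by
  have hm : 0 ≤ min a b := le_min ha hb
  calc min a b = min a b ^ ρ * min a b ^ (1 - ρ) := by
        rcases hm.eq_or_lt with h0 | h0
        · rw [← h0, Real.zero_rpow hρ.ne', zero_mul]
        · rw [← Real.rpow_add h0, add_sub_cancel, Real.rpow_one]
    _ ≤ b ^ ρ * a ^ (1 - ρ) := by
        refine mul_le_mul (Real.rpow_le_rpow hm (min_le_right _ _) hρ.le)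
          (Real.rpow_le_rpow hm (min_le_left _ _) (by linarith)) (Real.rpow_nonneg hm _) (Real.rpow_nonneg hb _)

/-- the elementary bounds -/
private lemma ncp_basic {f : Vec d} (hf : nsq f ≤ 2) {η : ℝ} (hη : 0 < η) (hη2 : η ≤ 1 / 2)
    {v w σ : Vec d} (hvw : v ≠ w) (hσ : nsq σ = 1) (hw : len w ≤ η * len v) :
    |dot f v| ≤ 3 * len (v - w) ∧ |dot f w| ≤ 3 * η * len (v - w) ∧ |dot f (v - w)| ≤ 2 * len (v - w) ∧
    |dot f v - dot f (post v w σ)| ≤ len (v - w) * √(1 - cosTh v w σ) ∧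
    |dot f v - dot f (post v w σ)| ≤ 2 * len (v - w) ∧ 0 ≤ 1 - cosTh v w σ := by
  have hl : 0 < len (v - w) := len_pos (sub_ne_zero.2 hvw)
  have h2 : √2 ≤ 3 / 2 := by
    rw [Real.sqrt_le_left (by norm_num)]; norm_num
  have h20 : 0 ≤ √2 := Real.sqrt_nonneg _
  have hv0 := len_nonneg v
  have hv : len v ≤ 2 * len (v - w) := by
    have h1 := len_le_add_sub v w
    have h3 : len w ≤ 1 / 2 * len v := hw.trans (mul_le_mul_of_nonneg_right hη2 hv0)
    linarith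
  have hx0 : 0 ≤ 1 - cosTh v w σ := by
    have h1 := nsq_sub_dirk hvw hσ
    have h3 := sq_nonneg' (σ - dirk v w)
    linarith
  have hx2 : 1 - cosTh v w σ ≤ 2 := by
    have h1 : |cosTh v w σ| ≤ 1 := by
      rw [cosTh_eq]
      exact dot_le_one (nsq_dirk hvw) hσ
    have := (abs_le.1 h1).1
    linarith
  have hz : |dot f v - dot f (post v w σ)| ≤ len (v - w) * √(1 - cosTh v w σ) := by
    have e : dot f v - dot f (post v w σ) = dot f (v - post v w σ) := by rw [dot_sub]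
    rw [e]
    refine (ncp_abs_dot hf).trans (le_of_eq ?_)
    have h1 : len (v - post v w σ) = len (v - w) * √((1 - cosTh v w σ) / 2) := by
      rw [len_comm]
      unfold len
      rw [nsq_post_sub hvw hσ, Real.sqrt_mul (sq_nonneg' _)]
    rw [h1, Real.sqrt_div hx0]
    have h4 : √2 ≠ 0 := by positivity
    field_simp
  refine ⟨?_, ?_, ?_, hz, ?_, hx0⟩
  · refine (ncp_abs_dot hf).trans ?_
    calc √2 * len v ≤ (3 / 2) * (2 * len (v - w)) := mul_le_mul h2 hv hv0 (by norm_num)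
      _ = 3 * len (v - w) := by ring
  · refine (ncp_abs_dot hf).trans ?_
    calc √2 * len w ≤ (3 / 2) * (η * (2 * len (v - w))) :=
          mul_le_mul h2 (hw.trans (mul_le_mul_of_nonneg_left hv hη.le)) (len_nonneg w) (by norm_num)
      _ = 3 * η * len (v - w) := by ring
  · refine (ncp_abs_dot hf).trans ?_
    nlinarith
  · refine hz.trans ?_
    have h1 : √(1 - cosTh v w σ) ≤ 2 := by
      rw [Real.sqrt_le_left (by norm_num)]
      linarith
    nlinarith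

private lemma ncp_dot_post (f v w σ : Vec d) :
    dot f (post v w σ) = dot f v - (dot f v - dot f (post v w σ)) ∧
    dot f (post' v w σ) = dot f w + (dot f v - dot f (post v w σ)) := by
  refine ⟨by ring, ?_⟩
  have h := congrArg (dot f) (post_add_post' v w σ)
  rw [dot_add, dot_add] at h
  linarith

/-- the error term -/
private lemma ncp_err (hs : 0 < s) (hs1 : 2 * s < 1) {p : ℝ} (hp : 1 ≤ p) (hp2 : p ≤ 2) {η l x B z : ℝ}
    (hη : 0 < η) (hl : 0 < l) (hx : 0 ≤ x) (hB : |B| ≤ 3 * η * l) (hz : |z| ≤ l * √x) :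
    4 * (10 * l) ^ (p - 1) * min |B| |z| ≤
      120 * η ^ ((1 - 2 * s) / 2) * (l ^ p * x ^ ((1 + 2 * s) / 4)) := by
  have h1 : min |B| |z| ≤ |z| ^ ((1 + 2 * s) / 2) * |B| ^ (1 - (1 + 2 * s) / 2) :=
    ncp_min (abs_nonneg _) (abs_nonneg _) (by linarith) (by linarith)
  have e1 : 1 - (1 + 2 * s) / 2 = (1 - 2 * s) / 2 := by ring
  rw [e1] at h1
  have h2 : |z| ^ ((1 + 2 * s) / 2) ≤ l ^ ((1 + 2 * s) / 2) * x ^ ((1 + 2 * s) / 4) := by
    refine (Real.rpow_le_rpow (abs_nonneg _) hz (by linarith)).trans (le_of_eq ?_)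
    rw [Real.mul_rpow hl.le (Real.sqrt_nonneg _), Real.sqrt_eq_rpow, ← Real.rpow_mul hx]
    congr 2
    ring
  have h3 : |B| ^ ((1 - 2 * s) / 2) ≤ 3 * (η ^ ((1 - 2 * s) / 2) * l ^ ((1 - 2 * s) / 2)) := by
    refine (Real.rpow_le_rpow (abs_nonneg _) hB (by linarith)).trans ?_
    rw [Real.mul_rpow (by positivity) hl.le, Real.mul_rpow (by norm_num) hη.le, mul_assoc]
    refine mul_le_mul_of_nonneg_right ?_ (by positivity)
    calc (3 : ℝ) ^ ((1 - 2 * s) / 2) ≤ 3 ^ (1 : ℝ) :=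
          Real.rpow_le_rpow_of_exponent_le (by norm_num) (by linarith)
      _ = 3 := Real.rpow_one _
  have h4 : (10 * l) ^ (p - 1) ≤ 10 * l ^ (p - 1) := by
    rw [Real.mul_rpow (by norm_num) hl.le]
    refine mul_le_mul_of_nonneg_right ?_ (Real.rpow_nonneg hl.le _)
    calc (10 : ℝ) ^ (p - 1) ≤ 10 ^ (1 : ℝ) :=
          Real.rpow_le_rpow_of_exponent_le (by norm_num) (by linarith)
      _ = 10 := Real.rpow_one _
  have h5 : l ^ (p - 1) * (l ^ ((1 + 2 * s) / 2) * l ^ ((1 - 2 * s) / 2)) = l ^ p := by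
    rw [← Real.rpow_add hl, ← Real.rpow_add hl]
    congr 1
    ring
  have h6 : min |B| |z| ≤ (l ^ ((1 + 2 * s) / 2) * x ^ ((1 + 2 * s) / 4)) *
      (3 * (η ^ ((1 - 2 * s) / 2) * l ^ ((1 - 2 * s) / 2))) :=
    h1.trans (mul_le_mul h2 h3 (by positivity) (by positivity))
  calc 4 * (10 * l) ^ (p - 1) * min |B| |z|
      ≤ 4 * (10 * l ^ (p - 1)) * ((l ^ ((1 + 2 * s) / 2) * x ^ ((1 + 2 * s) / 4)) *
        (3 * (η ^ ((1 - 2 * s) / 2) * l ^ ((1 - 2 * s) / 2)))) := by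
        refine mul_le_mul (mul_le_mul_of_nonneg_left h4 (by norm_num)) h6
          (le_min (abs_nonneg _) (abs_nonneg _)) (by positivity)
    _ = 120 * η ^ ((1 - 2 * s) / 2) *
        ((l ^ (p - 1) * (l ^ ((1 + 2 * s) / 2) * l ^ ((1 - 2 * s) / 2))) * x ^ ((1 + 2 * s) / 4)) := by ring
    _ = 120 * η ^ ((1 - 2 * s) / 2) * (l ^ p * x ^ ((1 + 2 * s) / 4)) := by rw [h5]

theorem nc_pt (hs : 0 < s) (hs1 : 2 * s < 1) : ∃ K : ℝ, 0 ≤ K ∧ ∀ p : ℝ, 1 ≤ p → p ≤ 2 →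
    ∀ f : Vec d, nsq f ≤ 2 → ∀ η : ℝ, 0 < η → η ≤ 1 / 2 → ∀ v w σ : Vec d, v ≠ w → nsq σ = 1 →
    len w ≤ η * len v →
    -(K * ((p - 1) + η ^ ((1 - 2 * s) / 2)) * len (v - w) ^ p * (1 - cosTh v w σ) ^ ((1 + 2 * s) / 4)) ≤
      lfp p f (post v w σ) + lfp p f (post' v w σ) - lfp p f v - lfp p f w := by
  have hq : 0 < 1 - (1 + 2 * s) / 2 := by linarith
  refine ⟨100 * (1 + 1 / (1 - (1 + 2 * s) / 2)) + 120, by positivity, ?_⟩
  intro p hp hp2 f hf η hη hη2 v w σ hvw hσ hw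
  obtain ⟨hA, hB, hA', hz, hz2, hx⟩ := ncp_basic hf hη hη2 hvw hσ hw
  obtain ⟨e1, e2⟩ := ncp_dot_post f v w σ
  have hl : 0 < len (v - w) := len_pos (sub_ne_zero.2 hvw)
  unfold lfp
  rw [e2]
  nth_rewrite 1 [e1]
  generalize dot f v - dot f (post v w σ) = z at *
  generalize dot f v = A at *
  generalize dot f w = B at *
  generalize len (v - w) = l at *
  generalize 1 - cosTh v w σ = x at *
  have hB2 : |B| ≤ 3 / 2 * l := hB.trans (by nlinarith)
  have hM1 : |A - z| + |z| ≤ 10 * l := by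
    have := abs_sub A z
    linarith
  have h1 := two_loss (x := A - z) (y := z) (M := 10 * l) (ρ := (1 + 2 * s) / 2) hp hp2 (by linarith) (by linarith) hM1
  rw [sub_add_cancel] at h1
  have h2 := sec_diff (x := 0) (h := B) (k := z) (M := 10 * l) hp hp2 (by rw [abs_zero]; linarith)
  rw [zero_add, zero_add, abs_zero, Real.zero_rpow (by linarith), add_zero] at h2
  have h3 := ncp_err hs hs1 hp hp2 hη hl hx hB hz
  have h4 := (abs_le.1 (h2.trans h3)).1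
  have h5 : |z| ^ ((1 + 2 * s) / 2) * (10 * l) ^ (p - (1 + 2 * s) / 2) ≤
      100 * (l ^ p * x ^ ((1 + 2 * s) / 4)) := by
    have h6 : |z| ^ ((1 + 2 * s) / 2) ≤ l ^ ((1 + 2 * s) / 2) * x ^ ((1 + 2 * s) / 4) := by
      refine (Real.rpow_le_rpow (abs_nonneg _) hz (by linarith)).trans (le_of_eq ?_)
      rw [Real.mul_rpow hl.le (Real.sqrt_nonneg _), Real.sqrt_eq_rpow, ← Real.rpow_mul hx]
      congr 2
      ring
    have h7 : (10 * l) ^ (p - (1 + 2 * s) / 2) ≤ 100 * l ^ (p - (1 + 2 * s) / 2) := by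
      rw [Real.mul_rpow (by norm_num) hl.le]
      refine mul_le_mul_of_nonneg_right ?_ (Real.rpow_nonneg hl.le _)
      calc (10 : ℝ) ^ (p - (1 + 2 * s) / 2) ≤ 10 ^ (2 : ℝ) :=
            Real.rpow_le_rpow_of_exponent_le (by norm_num) (by linarith)
        _ = 100 := by norm_num
    have h8 : l ^ ((1 + 2 * s) / 2) * l ^ (p - (1 + 2 * s) / 2) = l ^ p := by
      rw [← Real.rpow_add hl]
      congr 1
      ring
    calc |z| ^ ((1 + 2 * s) / 2) * (10 * l) ^ (p - (1 + 2 * s) / 2)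
        ≤ (l ^ ((1 + 2 * s) / 2) * x ^ ((1 + 2 * s) / 4)) * (100 * l ^ (p - (1 + 2 * s) / 2)) :=
          mul_le_mul h6 h7 (by positivity) (by positivity)
      _ = 100 * ((l ^ ((1 + 2 * s) / 2) * l ^ (p - (1 + 2 * s) / 2)) * x ^ ((1 + 2 * s) / 4)) := by ring
      _ = 100 * (l ^ p * x ^ ((1 + 2 * s) / 4)) := by rw [h8]
  have hp1 : 0 ≤ p - 1 := by linarith
  have h9 : (p - 1) * (1 + 1 / (1 - (1 + 2 * s) / 2)) *
      (|z| ^ ((1 + 2 * s) / 2) * (10 * l) ^ (p - (1 + 2 * s) / 2)) ≤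
      (p - 1) * (1 + 1 / (1 - (1 + 2 * s) / 2)) * (100 * (l ^ p * x ^ ((1 + 2 * s) / 4))) :=
    mul_le_mul_of_nonneg_left h5 (by positivity)
  have hW : 0 ≤ l ^ p * x ^ ((1 + 2 * s) / 4) := by positivity
  have hE : 0 ≤ η ^ ((1 - 2 * s) / 2) := by positivity
  have hC : 0 ≤ 1 + 1 / (1 - (1 + 2 * s) / 2) := by positivity
  generalize 1 + 1 / (1 - (1 + 2 * s) / 2) = c at *
  generalize η ^ ((1 - 2 * s) / 2) = t at *
  have h10 : (100 * c + 120) * ((p - 1) + t) * l ^ p * x ^ ((1 + 2 * s) / 4) =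
      (100 * c + 120) * ((p - 1) + t) * (l ^ p * x ^ ((1 + 2 * s) / 4)) := by ring
  rw [h10]
  generalize l ^ p * x ^ ((1 + 2 * s) / 4) = W at *
  have h11 : 0 ≤ (p - 1) * W := mul_nonneg hp1 hW
  have h12 : 0 ≤ c * t * W := by positivity
  nlinarith

theorem nc_ptg (hs : 0 < s) (hs1 : 2 * s < 1) : ∃ K : ℝ, 0 ≤ K ∧ ∀ p : ℝ, 1 ≤ p → p ≤ 2 →
    ∀ f : Vec d, nsq f ≤ 2 → ∀ η : ℝ, 0 < η → η ≤ 1 / 2 → ∀ v w σ : Vec d, v ≠ w → nsq σ = 1 →
    len w ≤ η * len v → ∀ μ : ℝ, 0 < μ → μ ≤ 1 →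
    |dot f (v - w)| + μ * len (v - w) ≤ len (v - w) * |dot f σ| →
    μ ^ 2 / 4 * len (v - w) ^ p -
      K * ((p - 1) + η ^ ((1 - 2 * s) / 2)) * len (v - w) ^ p * (1 - cosTh v w σ) ^ ((1 + 2 * s) / 4) ≤
      lfp p f (post v w σ) + lfp p f (post' v w σ) - lfp p f v - lfp p f w := by
  refine ⟨240, by norm_num, ?_⟩
  intro p hp hp2 f hf η hη hη2 v w σ hvw hσ hw μ hμ hμ1 hgain
  obtain ⟨hA, hB, hA', hz, hz2, hx⟩ := ncp_basic hf hη hη2 hvw hσ hw
  obtain ⟨e1, e2⟩ := ncp_dot_post f v w σ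
  have hl : 0 < len (v - w) := len_pos (sub_ne_zero.2 hvw)
  have hzf : dot f v - dot f (post v w σ) = dot f (v - w) / 2 - len (v - w) / 2 * dot f σ := by
    unfold post
    rw [dot_add, dot_smul, dot_smul, dot_add, dot_sub]
    ring
  have hAB : dot f (v - w) = dot f v - dot f w := dot_sub _ _ _
  unfold lfp
  rw [e2]
  nth_rewrite 1 [e1]
  generalize dot f v - dot f (post v w σ) = z at *
  generalize dot f (v - w) = A' at *
  generalize dot f v = A at *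
  generalize dot f w = B at *
  generalize dot f σ = q at *
  generalize len (v - w) = l at *
  generalize 1 - cosTh v w σ = x at *
  have hAe : A = A' + B := by linarith
  have hB2 : |B| ≤ 3 / 2 * l := hB.trans (by nlinarith)
  -- the gain
  have hX : |A' / 2| + μ * l / 2 ≤ |l / 2 * q| := by
    rw [abs_mul, abs_div, abs_of_pos (by positivity : 0 < l / 2), abs_two]
    linarith
  have hza : μ * l / 2 ≤ |z| := by
    rw [hzf]
    have h1 : |l / 2 * q| - |A' / 2| ≤ |A' / 2 - l / 2 * q| := by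
      have := abs_sub_abs_le_abs_sub (l / 2 * q) (A' / 2)
      rwa [abs_sub_comm] at this
    linarith
  have hAz : A' - z = A' / 2 + l / 2 * q := by rw [hzf]; ring
  have hzb : μ * l / 2 ≤ |A' - z| := by
    rw [hAz]
    have h1 : |l / 2 * q| - |A' / 2| ≤ |A' / 2 + l / 2 * q| := by
      have h2 := abs_sub_abs_le_abs_sub (l / 2 * q) (-(A' / 2))
      rw [abs_neg, sub_neg_eq_add, add_comm (l / 2 * q)] at h2
      exact h2
    linarith
  have hprod : (A' - z) * z ≤ 0 := by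
    rw [hAz, hzf]
    have h1 : (A' / 2) ^ 2 ≤ (l / 2 * q) ^ 2 := by
      rw [← sq_abs (A' / 2), ← sq_abs (l / 2 * q)]
      have h2 : 0 ≤ μ * l / 2 := by positivity
      exact pow_le_pow_left₀ (abs_nonneg _) (by linarith) 2
    nlinarith
  have hg := two_gain hp hprod
  rw [sub_add_cancel] at hg
  have hg2 : μ ^ 2 / 4 * l ^ p ≤ min |A' - z| |z| ^ p := by
    have h1 : (μ * l / 2) ^ p ≤ min |A' - z| |z| ^ p :=
      Real.rpow_le_rpow (by positivity) (le_min hzb hza) (by linarith)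
    refine le_trans ?_ h1
    have h2 : (μ * l / 2) ^ p = (μ / 2) ^ p * l ^ p := by
      rw [← Real.mul_rpow (by positivity) hl.le]
      congr 1
      ring
    rw [h2]
    refine mul_le_mul_of_nonneg_right ?_ (Real.rpow_nonneg hl.le _)
    calc μ ^ 2 / 4 = (μ / 2) ^ (2 : ℝ) := by
          rw [Real.rpow_two]; ring
      _ ≤ (μ / 2) ^ p := Real.rpow_le_rpow_of_exponent_ge (by positivity) (by linarith) hp2
  have h2 := sec_diff (x := 0) (h := B) (k := z) (M := 10 * l) hp hp2 (by rw [abs_zero]; linarith)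
  rw [zero_add, zero_add, abs_zero, Real.zero_rpow (by linarith), add_zero] at h2
  have h3 := ncp_err hs hs1 hp hp2 hη hl hx hB hz
  have h4 := (abs_le.1 (h2.trans h3)).1
  have h5 := sec_diff (x := A') (h := B) (k := -z) (M := 10 * l) hp hp2 (by rw [abs_neg]; linarith)
  rw [abs_neg] at h5
  have h6 := (abs_le.1 (h5.trans h3)).1
  have e3 : A' + B + -z = A - z := by rw [hAe]; ring
  have e4 : A' + -z = A' - z := by ring
  rw [e3, e4, ← hAe] at h6
  have hp1 : 0 ≤ p - 1 := by linarith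
  have hW : 0 ≤ l ^ p * x ^ ((1 + 2 * s) / 4) := by positivity
  have hE : 0 ≤ η ^ ((1 - 2 * s) / 2) := by positivity
  have h10 : 240 * ((p - 1) + η ^ ((1 - 2 * s) / 2)) * l ^ p * x ^ ((1 + 2 * s) / 4) =
      240 * ((p - 1) + η ^ ((1 - 2 * s) / 2)) * (l ^ p * x ^ ((1 + 2 * s) / 4)) := by ring
  rw [h10]
  generalize l ^ p * x ^ ((1 + 2 * s) / 4) = W at *
  generalize η ^ ((1 - 2 * s) / 2) = t at *
  have h11 : 0 ≤ (p - 1) * W := mul_nonneg hp1 hW
  nlinarith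

end Pool.Agent.H15.UP
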