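import Pool.Agent.H15.UP.OneP
import Pool.Agent.H15.UP.KerG

/-!
# Module One: production of the power of one linear form

`ainc_lfp`, then `ker_low0`/`ker_lowG` with `τ = 1` (`s < 1`: `HL.H.hs1`), `r = 1/10`, `F = sI p f v w`, `(1-x)^(1:ℝ) = 1-x`.
* `one_all`: `sI_low`, `|dot f (v-w)/2| ≤ √2 len/2 ≤ len`, `L = 8 len^p`.
* `one_thin`: constants `A, cc` of `ker_lowG`; `q = cc (1/10)^(d-1)`, `θ = min (1/8) (q/(640(A+1)))`, `ε₀ = 1/4`. `|y₀| ≤ θ len/2`.
  Case `|m| ≤ len/8`: `G = len^p/20` (`sI_y`), `L = 8|y₀|^p ≤ 8 (θ/2)^p len^p ≤ 4θ len^p`: total `≥ (q/20 - 4Aθ) len^p len^γ ≥ q/40 len^p len^γ` and `len² RR^(p-2) ≤ 2 len^p` (`len_le_RR`: `len ≤ 2RR`,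
  `len^2 RR^(p-2) = len^p (len/RR)^(2-p) ≤ 2^(2-p) len^p`), `p-1 ≤ 1`.
  Case `|m| ≥ len/8`: `G = (p-1)/128 len²|m|^(p-2)`, `L = 8(p-1)y₀²|m|^(p-2) ≤ 2θ²(p-1)len²|m|^(p-2)` (`sI_m`, `sI_m0`): total `≥ (q/128 - 2Aθ²)(p-1)len²|m|^(p-2)len^γ`, `2Aθ² ≤ 2Aθ/8 ≤ q/256`;
  `|m|^(p-2) ≥ RR^(p-2)` because `0 < |m| ≤ RR` (`|m| ≤ √2 len(v+w)/2`, `len(v+w)² ≤ 2(nsq v + nsq w) ≤ 2RR²`).
-/

set_option autoImplicit false

open MeasureTheory Set Filter Topology Pool.Agent.H25.Kin Pool.Agent.H48.PL Pool.Agent.H82.CM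

namespace Pool.Agent.H15.UP

variable {d : ℕ} {γ s C Ca cb : ℝ} {b : ℝ → ℝ}

private lemma one_y (f v w : Vec d) (hf : nsq f ≤ 2) : |dot f (v - w) / 2| ≤ len (v - w) := by
  have h1 := dot_sq_le f (v - w)
  have h2 := len_sq (v - w)
  have h3 : 0 ≤ nsq (v - w) := sq_nonneg' _
  have h4 := mul_le_mul_of_nonneg_right hf h3
  refine abs_le_of_sq_le_sq ?_ (len_nonneg _)
  rw [div_pow]
  nlinarith

private lemma one_m (f v w : Vec d) (hf : nsq f ≤ 2) : |dot f (v + w) / 2| ≤ RR v w := by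
  have h1 := dot_sq_le f (v + w)
  have h3 : 0 ≤ nsq (v + w) := sq_nonneg' _
  have h4 := mul_le_mul_of_nonneg_right hf h3
  have h5 : nsq (v + w) ≤ 2 * (nsq v + nsq w) := by
    have h6 := nsq_add v w
    have h7 := nsq_sub v w
    have h8 : 0 ≤ nsq (v - w) := sq_nonneg' _
    linarith
  unfold RR
  refine Real.abs_le_sqrt ?_
  rw [div_pow]
  nlinarith

private lemma one_R {p : ℝ} (hp : 1 ≤ p) (hp2 : p ≤ 2) {v w : Vec d} (hvw : v ≠ w) :
    len (v - w) ^ 2 * RR v w ^ (p - 2) ≤ 2 * len (v - w) ^ p := by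
  have hD := len_pos (sub_ne_zero.2 hvw)
  have h1 := len_le_RR v w
  have h2 : RR v w ^ (p - 2) ≤ (len (v - w) / 2) ^ (p - 2) :=
    Real.rpow_le_rpow_of_nonpos (by positivity) (by linarith) (by linarith)
  have h3 : (len (v - w) / 2) ^ (p - 2) ≤ 2 * len (v - w) ^ (p - 2) := by
    rw [Real.div_rpow hD.le (by norm_num), div_eq_mul_inv, ← Real.rpow_neg (by norm_num),
      mul_comm]
    refine mul_le_mul_of_nonneg_right ?_ (by positivity)
    calc (2 : ℝ) ^ (-(p - 2)) ≤ 2 ^ (1 : ℝ) :=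
          Real.rpow_le_rpow_of_exponent_le (by norm_num) (by linarith)
      _ = 2 := Real.rpow_one _
  have h4 : len (v - w) ^ 2 * len (v - w) ^ (p - 2) = len (v - w) ^ p := by
    rw [← Real.rpow_natCast, ← Real.rpow_add hD]
    congr 1
    push_cast
    ring
  calc len (v - w) ^ 2 * RR v w ^ (p - 2) ≤ len (v - w) ^ 2 * (2 * len (v - w) ^ (p - 2)) :=
        mul_le_mul_of_nonneg_left (h2.trans h3) (by positivity)
    _ = 2 * (len (v - w) ^ 2 * len (v - w) ^ (p - 2)) := by ring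
    _ = 2 * len (v - w) ^ p := by rw [h4]

private lemma one_cos {v w σ : Vec d} (hσ : nsq σ = 1) : 0 ≤ 1 - cosTh v w σ := by
  have h := (abs_le.1 (abs_cosTh_le (v := v) (w := w) hσ)).2
  linarith

theorem one_all (HL : HypL d γ s b C Ca cb) : ∃ K : ℝ, 0 ≤ K ∧ ∀ p : ℝ, 1 ≤ p → p ≤ 2 →
    ∀ f : Vec d, nsq f ≤ 2 → ∀ ε : ℝ, 0 < ε → ∀ v w : Vec d, v ≠ w →
    -(K * (len (v - w) ^ γ * len (v - w) ^ p)) ≤ ainc γ b ε (lfp p f) v w := by
  obtain ⟨A, hA, hker⟩ := ker_low0 HL (τ := 1) HL.H.hs1 le_rfl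
  refine ⟨8 * A, by positivity, ?_⟩
  intro p hp hp2 f hf ε hε v w hvw
  obtain ⟨F0, hF0⟩ := sI_bdd (p := p) (by linarith) f hvw
  have hl : 0 ≤ len (v - w) ^ p := Real.rpow_nonneg (len_nonneg _) _
  rw [ainc_lfp HL.H hε (by linarith) f hvw]
  have h1 := hker ε hε v w hvw (fun σ => sI p f v w σ) (sI_meas (by linarith) f v w) F0 hF0
    (8 * len (v - w) ^ p) (by positivity)
    (fun σ hσ => by
      rw [Real.rpow_one]
      refine le_trans ?_ (sI_low hp hp2 f hσ)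
      rw [neg_le_neg_iff]
      refine mul_le_mul_of_nonneg_right ?_ (one_cos hσ)
      refine mul_le_mul_of_nonneg_left ?_ (by norm_num)
      exact Real.rpow_le_rpow (abs_nonneg _) (one_y f v w hf) (by linarith))
  refine le_trans (le_of_eq ?_) h1
  ring

theorem one_thin (HL : HypL d γ s b C Ca cb) : ∃ θ c ε₀ : ℝ, 0 < θ ∧ θ ≤ 1 / 8 ∧ 0 < c ∧ 0 < ε₀ ∧
    ∀ p : ℝ, 1 < p → p ≤ 2 → ∀ f : Vec d, 1 ≤ nsq f → nsq f ≤ 2 → ∀ ε : ℝ, 0 < ε → ε ≤ ε₀ →
    ∀ v w : Vec d, v ≠ w → |dot f (v - w)| ≤ θ * len (v - w) →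
    c * (p - 1) * (len (v - w) ^ γ * (len (v - w) ^ 2 * RR v w ^ (p - 2))) ≤
      ainc γ b ε (lfp p f) v w := by
  obtain ⟨A, cc, hA, hcc, hker⟩ := ker_lowG HL (τ := 1) HL.H.hs1 le_rfl
  obtain ⟨q, hq⟩ : ∃ q, q = cc * (1 / 10 : ℝ) ^ ((d : ℝ) - 1) := ⟨_, rfl⟩
  have hq0 : 0 < q := by rw [hq]; positivity
  obtain ⟨θ, hθ⟩ : ∃ θ, θ = min (1 / 8) (q / (640 * (A + 1))) := ⟨_, rfl⟩
  have hθ0 : 0 < θ := by rw [hθ]; positivity
  have hθ8 : θ ≤ 1 / 8 := by rw [hθ]; exact min_le_left _ _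
  have hθA : 640 * (A * θ) ≤ q := by
    have h1 : θ ≤ q / (640 * (A + 1)) := by rw [hθ]; exact min_le_right _ _
    rw [le_div_iff₀ (by positivity)] at h1
    nlinarith
  refine ⟨θ, q / 256, 1 / 4, hθ0, hθ8, by positivity, by norm_num, ?_⟩
  intro p hp hp2 f hf hf2 ε hε hε4 v w hvw hdot
  have hD := len_pos (sub_ne_zero.2 hvw)
  obtain ⟨σ₀, hσ₀, hball⟩ := one_ball hvw hf hf2 (hdot.trans (by nlinarith))
  obtain ⟨F0, hF0⟩ := sI_bdd (p := p) (by linarith) f hvw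
  have hy : |dot f (v - w) / 2| ≤ θ * len (v - w) / 2 := by
    rw [abs_div, abs_two]
    linarith
  have hy16 : |dot f (v - w) / 2| ≤ len (v - w) / 16 := by nlinarith
  have hg : 0 ≤ len (v - w) ^ γ := Real.rpow_nonneg (len_nonneg _) _
  have hl : 0 ≤ len (v - w) ^ p := Real.rpow_nonneg (len_nonneg _) _
  rw [ainc_lfp HL.H hε (by linarith) f hvw]
  rcases le_total |dot f (v + w) / 2| (len (v - w) / 8) with hm | hm
  · have hyp : 8 * |dot f (v - w) / 2| ^ p ≤ 4 * θ * len (v - w) ^ p := by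
      have h1 : |dot f (v - w) / 2| ^ p ≤ (θ / 2 * len (v - w)) ^ p :=
        Real.rpow_le_rpow (abs_nonneg _) (by linarith) (by linarith)
      rw [Real.mul_rpow (by positivity) hD.le] at h1
      have h2 : (θ / 2) ^ p ≤ (θ / 2) ^ (1 : ℝ) :=
        Real.rpow_le_rpow_of_exponent_ge (by positivity) (by linarith) hp.le
      rw [Real.rpow_one] at h2
      have h3 := mul_le_mul_of_nonneg_right h2 hl
      linarith
    have h1 := hker ε hε v w hvw (fun σ => sI p f v w σ) (sI_meas (by linarith) f v w) F0 hF0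
      (4 * θ * len (v - w) ^ p) (len (v - w) ^ p / 20) (1 / 10) (by positivity) (by positivity)
      (by norm_num) (by norm_num) σ₀ hσ₀
      (fun σ hσ => by
        rw [Real.rpow_one]
        refine le_trans ?_ (sI_low hp.le hp2 f hσ)
        rw [neg_le_neg_iff]
        exact mul_le_mul_of_nonneg_right hyp (one_cos hσ))
      (fun σ hσ hσ2 => by
        obtain ⟨h0, h1, h2, -⟩ := hball σ hσ hσ2
        refine ⟨h0, by linarith, ?_⟩
        have h3 := sI_y hp.le hp2 hσ hm hy16 h2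
        rw [Real.rpow_one]
        have h4 : 0 ≤ 4 * θ * len (v - w) ^ p * (1 - cosTh v w σ) :=
          mul_nonneg (by positivity) (one_cos hσ)
        linarith)
    rw [← hq] at h1
    refine le_trans ?_ h1
    have h2 := one_R hp.le hp2 hvw
    have h3 : q / 40 * len (v - w) ^ p ≤ q * (len (v - w) ^ p / 20) -
        A * (4 * θ * len (v - w) ^ p) := by
      have h4 := mul_le_mul_of_nonneg_right hθA hl
      have h4' : 0 ≤ q * len (v - w) ^ p := by positivity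
      linarith
    have h5 : q / 256 * (p - 1) * (len (v - w) ^ 2 * RR v w ^ (p - 2)) ≤
        q / 40 * len (v - w) ^ p := by
      have h6 : q / 256 * (p - 1) ≤ q / 256 * 1 :=
        mul_le_mul_of_nonneg_left (by linarith) (by positivity)
      have h7 : 0 ≤ len (v - w) ^ 2 * RR v w ^ (p - 2) :=
        mul_nonneg (by positivity) (Real.rpow_nonneg (Real.sqrt_nonneg _) _)
      have h8 := mul_le_mul_of_nonneg_right h6 h7
      have h9 := mul_le_mul_of_nonneg_left h2 (by positivity : 0 ≤ q / 256 * 1)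
      have h10 : 0 ≤ q * len (v - w) ^ p := by positivity
      linarith
    have h11 := mul_le_mul_of_nonneg_right (h5.trans h3) hg
    calc q / 256 * (p - 1) * (len (v - w) ^ γ * (len (v - w) ^ 2 * RR v w ^ (p - 2)))
        = q / 256 * (p - 1) * (len (v - w) ^ 2 * RR v w ^ (p - 2)) * len (v - w) ^ γ := by ring
      _ ≤ _ := h11
  · have hm0 : 0 < |dot f (v + w) / 2| := by linarith
    obtain ⟨P, hP⟩ : ∃ P, P = |dot f (v + w) / 2| ^ (p - 2) := ⟨_, rfl⟩
    have hP0 : 0 < P := by rw [hP]; positivity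
    have hPR : RR v w ^ (p - 2) ≤ P := by
      rw [hP]
      exact Real.rpow_le_rpow_of_nonpos hm0 (one_m f v w hf2) (by linarith)
    have hp1 : 0 < p - 1 := by linarith
    have h1 := hker ε hε v w hvw (fun σ => sI p f v w σ) (sI_meas (by linarith) f v w) F0 hF0
      (8 * (p - 1) * ((dot f (v - w) / 2) ^ 2 * P)) ((p - 1) / 128 * (len (v - w) ^ 2 * P))
      (1 / 10) (by positivity) (by positivity) (by norm_num) (by norm_num) σ₀ hσ₀
      (fun σ hσ => by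
        rw [Real.rpow_one, hP]
        exact sI_m0 hp hp2 hvw hσ hm hy16)
      (fun σ hσ hσ2 => by
        obtain ⟨h0, h1, h2, h3⟩ := hball σ hσ hσ2
        refine ⟨h0, by linarith, ?_⟩
        rw [Real.rpow_one, hP]
        exact sI_m hp hp2 hvw hσ hm hy16 h2 h3)
    rw [← hq] at h1
    refine le_trans ?_ h1
    have hy2 : (dot f (v - w) / 2) ^ 2 ≤ θ ^ 2 * len (v - w) ^ 2 / 4 := by
      have h2 := mul_self_le_mul_self (abs_nonneg _) hy
      rw [abs_mul_abs_self] at h2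
      linarith
    have hX : 0 ≤ (p - 1) * (len (v - w) ^ 2 * P) := by positivity
    have h2 : q / 256 * ((p - 1) * (len (v - w) ^ 2 * P)) ≤
        q * ((p - 1) / 128 * (len (v - w) ^ 2 * P)) -
          A * (8 * (p - 1) * ((dot f (v - w) / 2) ^ 2 * P)) := by
      have h3 : A * (8 * (p - 1) * ((dot f (v - w) / 2) ^ 2 * P)) ≤
          2 * A * θ ^ 2 * ((p - 1) * (len (v - w) ^ 2 * P)) := by
        have h4 : 0 ≤ 8 * A * ((p - 1) * P) := by positivity
        have h5 := mul_le_mul_of_nonneg_left hy2 h4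
        linarith
      have h6 : 2 * A * θ ^ 2 ≤ q / 256 := by
        have h7 : A * θ * θ ≤ A * θ * (1 / 8) := mul_le_mul_of_nonneg_left hθ8 (by positivity)
        nlinarith
      have h8 := mul_le_mul_of_nonneg_right h6 hX
      linarith
    have h9 : q / 256 * ((p - 1) * (len (v - w) ^ 2 * RR v w ^ (p - 2))) ≤
        q / 256 * ((p - 1) * (len (v - w) ^ 2 * P)) := by
      refine mul_le_mul_of_nonneg_left ?_ (by positivity)
      refine mul_le_mul_of_nonneg_left ?_ hp1.le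
      exact mul_le_mul_of_nonneg_left hPR (by positivity)
    have h11 := mul_le_mul_of_nonneg_right (h9.trans h2) hg
    calc q / 256 * (p - 1) * (len (v - w) ^ γ * (len (v - w) ^ 2 * RR v w ^ (p - 2)))
        = q / 256 * ((p - 1) * (len (v - w) ^ 2 * RR v w ^ (p - 2))) * len (v - w) ^ γ := by ring
      _ ≤ _ := h11

end Pool.Agent.H15.UP
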