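import Pool.Agent.H15.UP.Defs

/-!
# Module ScA: scalar inequalities for `Hp p m y = |m+y|^p + |m-y|^p`, `1 ≤ p ≤ 2`

* `Hp_ge_m`, `Hp_ge_y`: `x^p + y^p ≥ 2((x+y)/2)^p` for `x, y ≥ 0` (`convexOn_rpow`), `2|m| ≤ |m+y|+|m-y|`, `2|y| ≤ |m+y|+|m-y|`.
* `Hp_le`: `x^p + y^p ≤ 2((x²+y²)/2)^(p/2)` (concavity of `t^(p/2)`, `Real.concaveOn_rpow`), `|m+y|²+|m-y|² = 2(m²+y²)`.
* `Hp_clark`: `(m²+y²)^(p/2) ≤ |m|^p + |y|^p` (`Real.rpow_add_le_add_rpow`, `p/2 ≤ 1`) in `Hp_le`.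
* `Hp_avg`: convexity of `|.|^p` (`|x|^p ≤ ((|a|+|b|)/2)^p ≤ (|a|^p+|b|^p)/2` if `x = (a+b)/2`), termwise.
* `Hp_conv`: the same for weights `λ + μ = 1`.
* `Hp_even`: `Hp p m (-y) = Hp p m y`, `Hp p (-m) y = Hp p m y`.
* `Hp_loss`: `H = Hp p m .` is convex and even; wlog `0 ≤ c`; `y = ((1-c)(2y) + 1 (c y))/(2-c)`, i.e. `H(y) ≤ ((1-c) H(2y) + H(cy))/(2-c)`,
  hence `H(y) - H(cy) ≤ (1-c)(H(2y) - H(y)) ≤ (1-c)(2|m|^p + 2^(p+1)|y|^p - 2|m|^p) ≤ 8(1-c)|y|^p` (`Hp_clark`, `Hp_ge_m`, `2^(p+1) ≤ 8`).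
-/

set_option autoImplicit false

open MeasureTheory Set Filter Topology Pool.Agent.H25.Kin

namespace Pool.Agent.H15.UP

variable {p m y t c : ℝ}

/-- weighted convexity of `|.|^p` -/
lemma abs_rpow_conv (hp : 1 ≤ p) {α β : ℝ} (hα : 0 ≤ α) (hβ : 0 ≤ β) (h1 : α + β = 1) (x y : ℝ) :
    |α * x + β * y| ^ p ≤ α * |x| ^ p + β * |y| ^ p := by
  have h2 : |α * x + β * y| ≤ α * |x| + β * |y| := by
    calc |α * x + β * y| ≤ |α * x| + |β * y| := abs_add_le _ _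
      _ = α * |x| + β * |y| := by rw [abs_mul, abs_mul, abs_of_nonneg hα, abs_of_nonneg hβ]
  have h3 := (convexOn_rpow hp).2 (Set.mem_Ici.2 (abs_nonneg x)) (Set.mem_Ici.2 (abs_nonneg y))
    hα hβ h1
  simp only [smul_eq_mul] at h3
  exact (Real.rpow_le_rpow (abs_nonneg _) h2 (by linarith)).trans h3

lemma Hp_even (p m y : ℝ) : Hp p m (-y) = Hp p m y := by
  unfold Hp
  rw [sub_neg_eq_add, ← sub_eq_add_neg, add_comm]

lemma Hp_conv (hp : 1 ≤ p) {α β : ℝ} (hα : 0 ≤ α) (hβ : 0 ≤ β) (h1 : α + β = 1) (m x y : ℝ) :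
    Hp p m (α * x + β * y) ≤ α * Hp p m x + β * Hp p m y := by
  unfold Hp
  have e1 : m + (α * x + β * y) = α * (m + x) + β * (m + y) := by
    linear_combination (-m) * h1
  have e2 : m - (α * x + β * y) = α * (m - x) + β * (m - y) := by
    linear_combination (-m) * h1
  rw [e1, e2]
  have h2 := abs_rpow_conv hp hα hβ h1 (m + x) (m + y)
  have h3 := abs_rpow_conv hp hα hβ h1 (m - x) (m - y)
  linarith

lemma Hp_ge_m (hp : 1 ≤ p) (m y : ℝ) : 2 * |m| ^ p ≤ Hp p m y := by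
  unfold Hp
  have h := abs_rpow_conv hp (show (0 : ℝ) ≤ 1 / 2 by norm_num) (show (0 : ℝ) ≤ 1 / 2 by norm_num)
    (by norm_num) (m + y) (m - y)
  have e : 1 / 2 * (m + y) + 1 / 2 * (m - y) = m := by ring
  rw [e] at h
  linarith

lemma Hp_ge_y (hp : 1 ≤ p) (m y : ℝ) : 2 * |y| ^ p ≤ Hp p m y := by
  unfold Hp
  have h := abs_rpow_conv hp (show (0 : ℝ) ≤ 1 / 2 by norm_num) (show (0 : ℝ) ≤ 1 / 2 by norm_num)
    (by norm_num) (m + y) (-(m - y))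
  have e : 1 / 2 * (m + y) + 1 / 2 * (-(m - y)) = y := by ring
  rw [e, abs_neg] at h
  linarith

private lemma sca_sq (p x : ℝ) : |x| ^ p = (x ^ 2) ^ (p / 2) := by
  rw [← sq_abs x, ← Real.rpow_natCast |x| 2, ← Real.rpow_mul (abs_nonneg x)]
  congr 1
  push_cast
  ring

lemma Hp_le (hp : 1 ≤ p) (hp2 : p ≤ 2) (m y : ℝ) : Hp p m y ≤ 2 * (m ^ 2 + y ^ 2) ^ (p / 2) := by
  unfold Hp
  rw [sca_sq p (m + y), sca_sq p (m - y)]
  have h := (Real.concaveOn_rpow (show 0 ≤ p / 2 by linarith) (show p / 2 ≤ 1 by linarith)).2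
    (Set.mem_Ici.2 (sq_nonneg (m + y))) (Set.mem_Ici.2 (sq_nonneg (m - y)))
    (show (0 : ℝ) ≤ 1 / 2 by norm_num) (show (0 : ℝ) ≤ 1 / 2 by norm_num) (by norm_num)
  simp only [smul_eq_mul] at h
  have e : 1 / 2 * (m + y) ^ 2 + 1 / 2 * (m - y) ^ 2 = m ^ 2 + y ^ 2 := by ring
  rw [e] at h
  linarith

lemma Hp_clark (hp : 1 ≤ p) (hp2 : p ≤ 2) (m y : ℝ) : Hp p m y ≤ 2 * |m| ^ p + 2 * |y| ^ p := by
  have h1 := Hp_le hp hp2 m y
  have h2 : (m ^ 2 + y ^ 2) ^ (p / 2) ≤ (m ^ 2) ^ (p / 2) + (y ^ 2) ^ (p / 2) :=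
    Real.rpow_add_le_add_rpow (sq_nonneg m) (sq_nonneg y) (by linarith) (by linarith)
  rw [sca_sq p m, sca_sq p y]
  linarith

lemma Hp_avg (hp : 1 ≤ p) (m y t : ℝ) : Hp p m y ≤ (Hp p m (y + t) + Hp p m (y - t)) / 2 := by
  have h := Hp_conv hp (show (0 : ℝ) ≤ 1 / 2 by norm_num) (show (0 : ℝ) ≤ 1 / 2 by norm_num)
    (by norm_num) m (y + t) (y - t)
  have e : 1 / 2 * (y + t) + 1 / 2 * (y - t) = y := by ring
  rw [e] at h
  linarith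

private lemma sca_loss (hp : 1 ≤ p) (hp2 : p ≤ 2) (hc0 : 0 ≤ c) (hc : c ≤ 1) (m y : ℝ) :
    Hp p m y - 8 * (1 - c) * |y| ^ p ≤ Hp p m (c * y) := by
  have h2c : 0 < 2 - c := by linarith
  have h1 := Hp_conv hp (show 0 ≤ (1 - c) / (2 - c) from div_nonneg (by linarith) h2c.le)
    (show 0 ≤ 1 / (2 - c) from div_nonneg zero_le_one h2c.le)
    (show (1 - c) / (2 - c) + 1 / (2 - c) = 1 by field_simp; ring) m (2 * y) (c * y)
  have e : (1 - c) / (2 - c) * (2 * y) + 1 / (2 - c) * (c * y) = y := by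
    field_simp
    ring
  rw [e] at h1
  have h3 : (2 - c) * Hp p m y ≤ (1 - c) * Hp p m (2 * y) + Hp p m (c * y) := by
    have h4 := mul_le_mul_of_nonneg_left h1 h2c.le
    have e2 : (2 - c) * ((1 - c) / (2 - c) * Hp p m (2 * y) + 1 / (2 - c) * Hp p m (c * y)) =
        (1 - c) * Hp p m (2 * y) + Hp p m (c * y) := by
      field_simp
    rwa [e2] at h4
  have h5 := Hp_clark hp hp2 m (2 * y)
  have h6 := Hp_ge_m hp m y
  have h7 : |2 * y| ^ p ≤ 4 * |y| ^ p := by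
    rw [abs_mul, abs_of_pos (show (0 : ℝ) < 2 by norm_num),
      Real.mul_rpow (by norm_num) (abs_nonneg y)]
    refine mul_le_mul_of_nonneg_right ?_ (Real.rpow_nonneg (abs_nonneg y) _)
    calc (2 : ℝ) ^ p ≤ 2 ^ (2 : ℝ) := Real.rpow_le_rpow_of_exponent_le (by norm_num) hp2
      _ = 4 := by norm_num
  have h8 : Hp p m (2 * y) - Hp p m y ≤ 8 * |y| ^ p := by linarith
  have h9 := mul_le_mul_of_nonneg_left h8 (show 0 ≤ 1 - c by linarith)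
  nlinarith

lemma Hp_loss (hp : 1 ≤ p) (hp2 : p ≤ 2) (hc : |c| ≤ 1) (m y : ℝ) :
    Hp p m y - 8 * (1 - |c|) * |y| ^ p ≤ Hp p m (c * y) := by
  have h := sca_loss hp hp2 (abs_nonneg c) hc m y
  rcases le_total 0 c with h0 | h0
  · rwa [abs_of_nonneg h0] at h ⊢
  · rw [abs_of_nonpos h0] at h ⊢
    have e : -c * y = -(c * y) := by ring
    rwa [e, Hp_even] at h

end Pool.Agent.H15.UP
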