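import Pool.Agent.H15.UP.Defs

/-!
# Module ScB: the loss and the gain when `|m|` dominates

* `Hp_lossm`: `Hp p m y` is even in `m`, in `y`; wlog `0 < m`, `0 ≤ y ≤ m/2`, `0 ≤ c ≤ 1`. Tangents of the convex `t^p` on `[0,∞)` (mean value theorem or `ConvexOn` slopes):
  `(m+y)^p - (m+cy)^p ≤ p(m+y)^(p-1)(1-c)y`, `(m-cy)^p - (m-y)^p ≥ p(m-y)^(p-1)(1-c)y`; so the loss is
  `≤ p(1-c)y[(m+y)^(p-1) - (m-y)^(p-1)]` and by concavity of `t^(p-1)`
  `(m+y)^(p-1) - (m-y)^(p-1) ≤ (p-1)(m-y)^(p-2) 2y ≤ (p-1)(m/2)^(p-2) 2y ≤ 4(p-1) m^(p-2) y` (`(1/2)^(p-2) ≤ 2`). Total `≤ 8(p-1)(1-c)y² m^(p-2)`.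
* `sq_gain`: for `M > 0`, `|u|+|t| ≤ M` the function `g(s) = |s|^p - κ s²`, `κ = p(p-1)/2 M^(p-2)`, is convex on `[-M,M]` (derivative
  `p|s|^(p-2)s - 2κs`, monotone because `s₂^(p-1) - s₁^(p-1) ≥ (p-1)s₂^(p-2)(s₂-s₁) ≥ (p-1)M^(p-2)(s₂-s₁)` for
  `0 ≤ s₁ ≤ s₂ ≤ M`, and odd), hence `(|u+t|^p+|u-t|^p)/2 - |u|^p ≥ κ t²`. (Other way: wlog `0 ≤ u`, `0 ≤ t`; if `t ≤ u` integrate
  `p(p-1) s^(p-2) ≥ p(p-1) M^(p-2)` twice; if `t > u` then `|u-t| = t-u`, the same function `s^p` on `[0,M]`, with `s = t-u ≥ 0`: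
  `(t+u)^p + (t-u)^p - 2u^p ≥ ...`. Or: it is enough that `s ↦ s^p - κ s²` is convex and monotone on `[0,M]`, `|s|` convex: composition is convex.)
* `Hp_gain`: `sq_gain` with `u = m+y`, `u = m-y`; `|u|+|t| ≤ |m|+|y|+|t| = M`, `p(p-1)/2·2 ≥ p-1`. If `M = 0` everything is `0` (`t = 0`).
-/

set_option autoImplicit false

open MeasureTheory Set Filter Topology Pool.Agent.H25.Kin

namespace Pool.Agent.H15.UP

variable {p m y t c : ℝ}

private lemma scb_even (p m y : ℝ) : Hp p m y = Hp p |m| |y| := by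
  unfold Hp
  rcases abs_choice m with h | h <;> rcases abs_choice y with h' | h' <;> rw [h, h']
  · rw [sub_neg_eq_add, ← sub_eq_add_neg, add_comm]
  · have e1 : |-m + y| = |m - y| := by rw [← abs_neg]; congr 1; ring
    have e2 : |-m - y| = |m + y| := by rw [← abs_neg]; congr 1; ring
    rw [e1, e2, add_comm]
  · have e1 : |-m + -y| = |m + y| := by rw [← abs_neg]; congr 1; ring
    have e2 : |-m - -y| = |m - y| := by rw [← abs_neg]; congr 1; ring
    rw [e1, e2]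

/-- The increment of `s ^ (p - 1)` (Bernoulli). -/
private lemma scb_incr (hp : 1 < p) (hp2 : p ≤ 2) {n z : ℝ} (hn : 0 < n) (hz : 0 ≤ z) (hzn : 2 * z ≤ n) :
    (n + z) ^ (p - 1) - (n - z) ^ (p - 1) ≤ 4 * (p - 1) * (n ^ (p - 2) * z) := by
  have hb : 0 < n - z := by linarith
  have h1 : (1 + 2 * z / (n - z)) ^ (p - 1) ≤ 1 + (p - 1) * (2 * z / (n - z)) := by
    apply rpow_one_add_le_one_add_mul_self
    · have : 0 ≤ 2 * z / (n - z) := by positivity
      linarith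
    · linarith
    · linarith
  have h2 : n + z = (n - z) * (1 + 2 * z / (n - z)) := by
    field_simp
    ring
  have h3 : (n + z) ^ (p - 1) = (n - z) ^ (p - 1) * (1 + 2 * z / (n - z)) ^ (p - 1) := by
    rw [h2, Real.mul_rpow hb.le (by positivity)]
  have h4 : (n - z) ^ (p - 1) = (n - z) ^ (p - 2) * (n - z) := by
    have e : p - 1 = (p - 2) + 1 := by ring
    rw [e, Real.rpow_add hb, Real.rpow_one]
  have h5 : (n + z) ^ (p - 1) - (n - z) ^ (p - 1) ≤ (p - 1) * ((n - z) ^ (p - 2) * (2 * z)) := by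
    have h6 : (n - z) ^ (p - 1) * (1 + 2 * z / (n - z)) ^ (p - 1) ≤
        (n - z) ^ (p - 1) * (1 + (p - 1) * (2 * z / (n - z))) :=
      mul_le_mul_of_nonneg_left h1 (Real.rpow_nonneg hb.le _)
    have h7 : (n - z) ^ (p - 1) * ((p - 1) * (2 * z / (n - z))) = (p - 1) * ((n - z) ^ (p - 2) * (2 * z)) := by
      rw [h4]
      field_simp
    rw [h3]
    linarith
  have h8 : (n - z) ^ (p - 2) ≤ 2 * n ^ (p - 2) := by
    have h9 : (n - z) ^ (p - 2) ≤ (n * (1 / 2)) ^ (p - 2) :=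
      Real.rpow_le_rpow_of_nonpos (by positivity) (by linarith) (by linarith)
    have h10 : ((1 : ℝ) / 2) ^ (p - 2) ≤ 2 := by
      have h11 : ((1 : ℝ) / 2) ^ (p - 2) ≤ ((1 : ℝ) / 2) ^ (-1 : ℝ) :=
        Real.rpow_le_rpow_of_exponent_ge (by norm_num) (by norm_num) (by linarith)
      rw [Real.rpow_neg_one] at h11
      norm_num at h11 ⊢
      exact h11
    rw [Real.mul_rpow hn.le (by norm_num)] at h9
    have h12 := mul_le_mul_of_nonneg_left h10 (Real.rpow_nonneg hn.le (p - 2))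
    linarith
  have h13 := mul_le_mul_of_nonneg_left (mul_le_mul_of_nonneg_right h8 (by positivity : (0 : ℝ) ≤ 2 * z))
    (by linarith : (0 : ℝ) ≤ p - 1)
  calc _ ≤ (p - 1) * ((n - z) ^ (p - 2) * (2 * z)) := h5
    _ ≤ (p - 1) * (2 * n ^ (p - 2) * (2 * z)) := h13
    _ = _ := by ring

private lemma scb_core (hp : 1 < p) (hp2 : p ≤ 2) {n z a : ℝ} (hn : 0 < n) (hz : 0 ≤ z) (hzn : 2 * z ≤ n)
    (ha : 0 ≤ a) (ha1 : a ≤ 1) :
    (n + z) ^ p + (n - z) ^ p - 8 * (p - 1) * (1 - a) * (z ^ 2 * n ^ (p - 2)) ≤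
      (n + a * z) ^ p + (n - a * z) ^ p := by
  have hp1 : 0 ≤ p - 1 := by linarith
  have hnp : 0 ≤ n ^ (p - 2) := Real.rpow_nonneg hn.le _
  rcases (mul_le_of_le_one_left hz ha1).eq_or_lt with h | h
  · rw [h]
    have h1 : 0 ≤ 8 * (p - 1) * (1 - a) * (z ^ 2 * n ^ (p - 2)) :=
      mul_nonneg (mul_nonneg (mul_nonneg (by norm_num) hp1) (by linarith)) (by positivity)
    linarith
  · have haz : 0 ≤ a * z := mul_nonneg ha hz
    obtain ⟨ξ, hξ, hs⟩ := exists_hasDerivAt_eq_slope (fun s : ℝ => (n + s) ^ p + (n - s) ^ p)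
      (fun s : ℝ => 1 * p * (n + s) ^ (p - 1) + -1 * p * (n - s) ^ (p - 1)) h
      (by
        apply ContinuousOn.add
        · exact (continuousOn_const.add continuousOn_id).rpow_const (fun x _ => Or.inr (by linarith))
        · exact (continuousOn_const.sub continuousOn_id).rpow_const (fun x _ => Or.inr (by linarith)))
      (by
        intro x _
        have d1 : HasDerivAt (fun s : ℝ => n + s) 1 x := (hasDerivAt_id x).const_add n
        have d2 : HasDerivAt (fun s : ℝ => n - s) (-1) x := (hasDerivAt_id x).const_sub n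
        exact (d1.rpow_const (Or.inr hp.le)).add (d2.rpow_const (Or.inr hp.le)))
    have hd : 0 < z - a * z := by linarith
    have hs' : 1 * p * (n + ξ) ^ (p - 1) + -1 * p * (n - ξ) ^ (p - 1) =
      ((n + z) ^ p + (n - z) ^ p - ((n + a * z) ^ p + (n - a * z) ^ p)) / (z - a * z) := hs
    have h1 := scb_incr hp hp2 hn (haz.trans hξ.1.le) (by linarith [hξ.2] : 2 * ξ ≤ n)
    have h2 : n ^ (p - 2) * ξ ≤ n ^ (p - 2) * z := mul_le_mul_of_nonneg_left hξ.2.le hnp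
    have h3 : (n + ξ) ^ (p - 1) - (n - ξ) ^ (p - 1) ≤ 4 * (p - 1) * (n ^ (p - 2) * z) :=
      h1.trans (mul_le_mul_of_nonneg_left h2 (by positivity))
    have h4 : p * ((n + ξ) ^ (p - 1) - (n - ξ) ^ (p - 1)) ≤ 2 * (4 * (p - 1) * (n ^ (p - 2) * z)) := by
      have h5 : p * ((n + ξ) ^ (p - 1) - (n - ξ) ^ (p - 1)) ≤ p * (4 * (p - 1) * (n ^ (p - 2) * z)) :=
        mul_le_mul_of_nonneg_left h3 (by linarith)
      have h6 : p * (4 * (p - 1) * (n ^ (p - 2) * z)) ≤ 2 * (4 * (p - 1) * (n ^ (p - 2) * z)) :=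
        mul_le_mul_of_nonneg_right hp2 (by positivity)
      linarith
    rw [eq_div_iff hd.ne'] at hs'
    have h7 := mul_le_mul_of_nonneg_right h4 hd.le
    have h8 : (1 * p * (n + ξ) ^ (p - 1) + -1 * p * (n - ξ) ^ (p - 1)) * (z - a * z) =
      p * ((n + ξ) ^ (p - 1) - (n - ξ) ^ (p - 1)) * (z - a * z) := by ring
    have h9 : 2 * (4 * (p - 1) * (n ^ (p - 2) * z)) * (z - a * z) =
      8 * (p - 1) * (1 - a) * (z ^ 2 * n ^ (p - 2)) := by ring
    linarith

lemma Hp_lossm (hp : 1 < p) (hp2 : p ≤ 2) (hc : |c| ≤ 1) (hm : 0 < |m|) (hy : 2 * |y| ≤ |m|) :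
    Hp p m y - 8 * (p - 1) * (1 - |c|) * (y ^ 2 * |m| ^ (p - 2)) ≤ Hp p m (c * y) := by
  have hy0 : |y| ≤ |m| := by linarith [abs_nonneg y]
  have hcy : |c| * |y| ≤ |m| := (mul_le_of_le_one_left (abs_nonneg y) hc).trans hy0
  have h := scb_core hp hp2 hm (abs_nonneg y) hy (abs_nonneg c) hc
  rw [scb_even p m y, scb_even p m (c * y), abs_mul]
  unfold Hp
  rw [abs_of_nonneg (by positivity : 0 ≤ |m| + |y|), abs_of_nonneg (by linarith : 0 ≤ |m| - |y|),
    abs_of_nonneg (by positivity : 0 ≤ |m| + |c| * |y|), abs_of_nonneg (by linarith : 0 ≤ |m| - |c| * |y|)]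
  rw [sq_abs] at h
  exact h

private lemma scb_conv (hp : 1 < p) (hp2 : p ≤ 2) {M : ℝ} :
    ConvexOn ℝ (Icc 0 M) (fun s : ℝ => s ^ p - p * (p - 1) / 2 * M ^ (p - 2) * s ^ 2) := by
  refine convexOn_of_hasDerivWithinAt2_nonneg (convex_Icc 0 M)
    (f' := fun s : ℝ => p * s ^ (p - 1) - p * (p - 1) / 2 * M ^ (p - 2) * (2 * s))
    (f'' := fun s : ℝ => p * ((p - 1) * s ^ (p - 1 - 1)) - p * (p - 1) / 2 * M ^ (p - 2) * 2) ?_ ?_ ?_ ?_
  · apply ContinuousOn.sub
    · exact continuousOn_id.rpow_const (fun x _ => Or.inr (by linarith))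
    · exact (continuous_const.mul (continuous_pow 2)).continuousOn
  · intro x hx
    rw [interior_Icc] at hx
    have d1 : HasDerivAt (fun s : ℝ => s ^ p) (p * x ^ (p - 1)) x :=
      Real.hasDerivAt_rpow_const (Or.inr hp.le)
    have d2 : HasDerivAt (fun s : ℝ => s ^ 2) (2 * x) x := by
      have := hasDerivAt_pow 2 x
      simpa using this
    exact (d1.sub (d2.const_mul _)).hasDerivWithinAt
  · intro x hx
    rw [interior_Icc] at hx
    have d1 : HasDerivAt (fun s : ℝ => s ^ (p - 1)) ((p - 1) * x ^ (p - 1 - 1)) x :=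
      Real.hasDerivAt_rpow_const (Or.inl hx.1.ne')
    have d2 : HasDerivAt (fun s : ℝ => 2 * s) 2 x := by
      simpa using (hasDerivAt_id x).const_mul 2
    exact ((d1.const_mul p).sub (d2.const_mul _)).hasDerivWithinAt
  · intro x hx
    rw [interior_Icc] at hx
    have e : p - 1 - 1 = p - 2 := by ring
    have h1 : M ^ (p - 2) ≤ x ^ (p - 2) := Real.rpow_le_rpow_of_nonpos hx.1 hx.2.le (by linarith)
    have h2 : 0 ≤ p * (p - 1) * (x ^ (p - 2) - M ^ (p - 2)) :=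
      mul_nonneg (mul_nonneg (by linarith) (by linarith)) (by linarith)
    rw [e]
    linarith

private lemma scb_mono (hp : 1 < p) (hp2 : p ≤ 2) {M : ℝ} (hM : 0 < M) :
    MonotoneOn (fun s : ℝ => s ^ p - p * (p - 1) / 2 * M ^ (p - 2) * s ^ 2) (Icc 0 M) := by
  have hd : ∀ x ∈ Ioo (0 : ℝ) M, HasDerivAt (fun s : ℝ => s ^ p - p * (p - 1) / 2 * M ^ (p - 2) * s ^ 2)
      (p * x ^ (p - 1) - p * (p - 1) / 2 * M ^ (p - 2) * (2 * x)) x := by
    intro x hx
    have d1 : HasDerivAt (fun s : ℝ => s ^ p) (p * x ^ (p - 1)) x :=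
      Real.hasDerivAt_rpow_const (Or.inr hp.le)
    have d2 : HasDerivAt (fun s : ℝ => s ^ 2) (2 * x) x := by
      have := hasDerivAt_pow 2 x
      simpa using this
    exact d1.sub (d2.const_mul _)
  apply monotoneOn_of_deriv_nonneg (convex_Icc 0 M)
  · apply ContinuousOn.sub
    · exact continuousOn_id.rpow_const (fun x _ => Or.inr (by linarith))
    · exact (continuous_const.mul (continuous_pow 2)).continuousOn
  · intro x hx
    rw [interior_Icc] at hx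
    exact (hd x hx).differentiableAt.differentiableWithinAt
  · intro x hx
    rw [interior_Icc] at hx
    rw [(hd x hx).deriv]
    have h1 : M ^ (p - 2) ≤ x ^ (p - 2) := Real.rpow_le_rpow_of_nonpos hx.1 hx.2.le (by linarith)
    have h4 : x ^ (p - 1) = x ^ (p - 2) * x := by
      have e : p - 1 = (p - 2) + 1 := by ring
      rw [e, Real.rpow_add hx.1, Real.rpow_one]
    have hMp : 0 ≤ M ^ (p - 2) := Real.rpow_nonneg hM.le _
    have h5 : M ^ (p - 2) * x ≤ x ^ (p - 2) * x := mul_le_mul_of_nonneg_right h1 hx.1.le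
    have h6 : (p - 1) * (M ^ (p - 2) * x) ≤ 1 * (M ^ (p - 2) * x) :=
      mul_le_mul_of_nonneg_right (by linarith) (mul_nonneg hMp hx.1.le)
    have h7 : 0 ≤ p * (x ^ (p - 2) * x - (p - 1) * (M ^ (p - 2) * x)) :=
      mul_nonneg (by linarith) (by linarith)
    rw [h4]
    linarith

lemma sq_gain (hp : 1 < p) (hp2 : p ≤ 2) {u t M : ℝ} (hM : 0 < M) (h : |u| + |t| ≤ M) :
    |u| ^ p + p * (p - 1) / 2 * M ^ (p - 2) * t ^ 2 ≤ (|u + t| ^ p + |u - t| ^ p) / 2 := by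
  have hu0 := abs_nonneg u
  have ht0 := abs_nonneg t
  have hu : |u| ∈ Icc 0 M := ⟨hu0, by linarith⟩
  have h1 : |u + t| ∈ Icc 0 M := ⟨abs_nonneg _, (abs_add_le u t).trans h⟩
  have h2 : |u - t| ∈ Icc 0 M := ⟨abs_nonneg _, (abs_sub u t).trans h⟩
  have hmid : |u| ≤ (1 / 2 : ℝ) * |u + t| + (1 / 2 : ℝ) * |u - t| := by
    have h3 := abs_add_le (u + t) (u - t)
    have h4 : u + t + (u - t) = 2 * u := by ring
    rw [h4, abs_mul, abs_of_pos (by norm_num : (0 : ℝ) < 2)] at h3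
    linarith
  have hmem : (1 / 2 : ℝ) * |u + t| + (1 / 2 : ℝ) * |u - t| ∈ Icc 0 M := by
    constructor
    · linarith [h1.1, h2.1]
    · linarith [h1.2, h2.2]
  have hm := scb_mono hp hp2 hM hu hmem hmid
  have hc := (scb_conv hp hp2).2 h1 h2 (by norm_num : (0 : ℝ) ≤ 1 / 2) (by norm_num : (0 : ℝ) ≤ 1 / 2)
    (by norm_num)
  simp only [smul_eq_mul] at hc
  have hall := hm.trans hc
  simp only [sq_abs] at hall
  nlinarith [hall]

lemma Hp_gain (hp : 1 < p) (hp2 : p ≤ 2) (m y t : ℝ) :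
    Hp p m y + (p - 1) * t ^ 2 * (|m| + |y| + |t|) ^ (p - 2) ≤ (Hp p m (y + t) + Hp p m (y - t)) / 2 := by
  have hm0 := abs_nonneg m
  have hy0 := abs_nonneg y
  have ht0 := abs_nonneg t
  rcases (by positivity : 0 ≤ |m| + |y| + |t|).eq_or_lt with h | h
  · have ht : t = 0 := abs_eq_zero.1 (by linarith)
    subst ht
    rw [add_zero, sub_zero]
    have : (p - 1) * (0 : ℝ) ^ 2 * (|m| + |y| + |(0 : ℝ)|) ^ (p - 2) = 0 := by ring
    rw [this]
    linarith
  · have h1 : |m + y| + |t| ≤ |m| + |y| + |t| := by linarith [abs_add_le m y]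
    have h2 : |m - y| + |t| ≤ |m| + |y| + |t| := by linarith [abs_sub m y]
    have g1 := sq_gain hp hp2 h h1
    have g2 := sq_gain hp hp2 h h2
    have e1 : m + y + t = m + (y + t) := by ring
    have e2 : m + y - t = m + (y - t) := by ring
    have e3 : m - y + t = m - (y - t) := by ring
    have e4 : m - y - t = m - (y + t) := by ring
    rw [e1, e2] at g1
    rw [e3, e4] at g2
    have hM : 0 ≤ (|m| + |y| + |t|) ^ (p - 2) := Real.rpow_nonneg h.le _
    have hk : (p - 1) * t ^ 2 * (|m| + |y| + |t|) ^ (p - 2) ≤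
        p * ((p - 1) * t ^ 2 * (|m| + |y| + |t|) ^ (p - 2)) := by
      have h3 : 0 ≤ (p - 1) * t ^ 2 * (|m| + |y| + |t|) ^ (p - 2) :=
        mul_nonneg (mul_nonneg (by linarith) (sq_nonneg t)) hM
      nlinarith
    unfold Hp
    linarith

end Pool.Agent.H15.UP
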