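import Pool.Agent.H15.UP.LfB
import Pool.Agent.H15.UP.ScA
import Pool.Agent.H15.UP.ScB

/-!
# Module OneP: pointwise bounds of the symmetrized increment, `nsq f ≤ 2`

`m, y₀, X, x, T` as in LfB; `|x| ≤ 1` (`abs_cosTh_le`), `1-|x| ≤ 1-x`.
* `sI_low`: `Hp_avg` (average `≥ Hp(x y₀)`), `Hp_loss` (`c = x`): `sI ≥ -8(1-|x|)|y₀|^p`.
* `sI_y` (`|m| ≤ X/4`, `|y₀| ≤ X/8`, `|T| ≥ X/2`): `Hp_ge_y`: average `≥ |xy₀+T|^p + |xy₀-T|^p ≥ 2|T|^p` (convexity: `Hp_ge_y` for `Hp p (x y₀) T`), `Hp(y₀) ≤ 2(m²+y₀²)^(p/2) ≤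
  2 (5/64 X²)^(p/2) ≤ 2 (9/32 X)^p`... so `sI ≥ 2X^p((1/2)^p - (9/32)^p) ≥ 2X^p (1/2)^p (1 - (9/16)^p) ≥ 2 X^p (1/4)(7/16) ≥ X^p/5` (`(9/16)^p ≤ 9/16`), `X^p = (len/2)^p ≥ len^p/4`: `≥ len^p/20`.
* `sI_m` (`X/4 ≤ |m|`, `0 < X`, `|y₀| ≤ X/8`, `X/2 ≤ |T| ≤ 8/5 X`): `Hp_gain` at `y = x y₀`, `|m|+|xy₀|+|T| ≤ 8|m|`, `(8|m|)^(p-2) ≥ |m|^(p-2)/8` (`-1 ≤ p-2 ≤ 0`); `Hp_lossm` with `c = x`.
  `sI ≥ (p-1)(X²/4)|m|^(p-2)/8 - 8(p-1)(1-|x|)y₀²|m|^(p-2)`, `X² = len²/4`.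
* `sI_m0` (same without the lower bound of `|T|`): `Hp_avg` and `Hp_lossm` only.
* `one_ball`: `κ = dot f k`, `|κ| ≤ 1/8`; `g = f - κ k`, `dot k g = 0`, `nsq g = nsq f - κ² ≥ 63/64`, `n = g/|g|`, `σ₀ = (3/5) k + (4/5) n`. For `|σ-σ₀| ≤ 1/10`: `k·σ ∈ [1/2, 7/10]`,
  `n·σ ≥ 7/10`; `T = X(dot f σ - x κ) = X dot g σ = X |g| n·σ ≥ .99·.7 X ≥ X/2`, `|T| ≤ X|g| ≤ √2 X ≤ 8/5 X` (this upper bound holds for every unit `σ`).
-/

set_option autoImplicit false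

open MeasureTheory Set Filter Topology Pool.Agent.H25.Kin Pool.Agent.H48.PL Pool.Agent.H82.CM

namespace Pool.Agent.H15.UP

variable {d : ℕ} {p : ℝ} {f v w σ : Vec d}

private lemma op_abs {x : ℝ} : 1 - |x| ≤ 1 - x := by
  linarith [le_abs_self x]

lemma sI_low (hp : 1 ≤ p) (hp2 : p ≤ 2) (f : Vec d) (hσ : nsq σ = 1) :
    -(8 * |dot f (v - w) / 2| ^ p * (1 - cosTh v w σ)) ≤ sI p f v w σ := by
  have h1 := Hp_avg hp (dot f (v + w) / 2) (cosTh v w σ * (dot f (v - w) / 2)) (tT f v w σ)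
  have h2 := Hp_loss hp hp2 (abs_cosTh_le (v := v) (w := w) hσ) (dot f (v + w) / 2) (dot f (v - w) / 2)
  have h3 : (0 : ℝ) ≤ |dot f (v - w) / 2| ^ p := by positivity
  have h4 : 8 * (1 - |cosTh v w σ|) * |dot f (v - w) / 2| ^ p ≤
      8 * |dot f (v - w) / 2| ^ p * (1 - cosTh v w σ) := by
    nlinarith [mul_le_mul_of_nonneg_right (op_abs (x := cosTh v w σ)) h3]
  unfold sI
  linarith

private lemma op_y (hp : 1 ≤ p) (hp2 : p ≤ 2) {D T m y a : ℝ} (hD : 0 ≤ D) (hm : |m| ≤ D / 8)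
    (hy : |y| ≤ D / 16) (hT : D / 4 ≤ |T|) :
    D ^ p / 20 ≤ (Hp p m (a + T) + Hp p m (a - T)) / 2 - Hp p m y := by
  have hp0 : 0 ≤ p := by linarith
  have h1 := Hp_ge_y hp m (a + T)
  have h2 := Hp_ge_y hp m (a - T)
  have h3 := Hp_ge_y hp a T
  unfold Hp at h3
  have h4 : (D / 4) ^ p ≤ |T| ^ p := Real.rpow_le_rpow (by positivity) hT hp0
  have h5 := Hp_le hp hp2 m y
  have h6 : m ^ 2 + y ^ 2 ≤ (9 / 16 * (D / 4)) ^ 2 := by
    have h7 : m ^ 2 ≤ (D / 8) ^ 2 := sq_le_sq' (by linarith [neg_abs_le m]) (by linarith [le_abs_self m])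
    have h8 : y ^ 2 ≤ (D / 16) ^ 2 := sq_le_sq' (by linarith [neg_abs_le y]) (by linarith [le_abs_self y])
    nlinarith [sq_nonneg D]
  have h9 : (m ^ 2 + y ^ 2) ^ (p / 2) ≤ (9 / 16 * (D / 4)) ^ p := by
    have h10 : (m ^ 2 + y ^ 2) ^ (p / 2) ≤ ((9 / 16 * (D / 4)) ^ 2) ^ (p / 2) :=
      Real.rpow_le_rpow (by positivity) h6 (by linarith)
    have h11 : ((9 / 16 * (D / 4)) ^ 2) ^ (p / 2) = (9 / 16 * (D / 4)) ^ p := by
      rw [← Real.rpow_natCast, ← Real.rpow_mul (by positivity)]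
      congr 1
      push_cast
      ring
    rwa [h11] at h10
  have h12 : (9 / 16 * (D / 4)) ^ p ≤ 9 / 16 * (D / 4) ^ p := by
    rw [Real.mul_rpow (by norm_num) (by positivity)]
    have h13 : (9 / 16 : ℝ) ^ p ≤ (9 / 16) ^ (1 : ℝ) :=
      Real.rpow_le_rpow_of_exponent_ge (by norm_num) (by norm_num) hp
    rw [Real.rpow_one] at h13
    exact mul_le_mul_of_nonneg_right h13 (by positivity)
  have h14 : D ^ p / 16 ≤ (D / 4) ^ p := by
    rw [Real.div_rpow hD (by norm_num)]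
    have h15 : (4 : ℝ) ^ p ≤ 4 ^ (2 : ℝ) := Real.rpow_le_rpow_of_exponent_le (by norm_num) hp2
    have h16 : (4 : ℝ) ^ (2 : ℝ) = 16 := by
      rw [Real.rpow_ofNat]
      norm_num
    rw [h16] at h15
    exact div_le_div_of_nonneg_left (by positivity) (by positivity) h15
  have h17 : (0 : ℝ) ≤ D ^ p := by positivity
  linarith

lemma sI_y (hp : 1 ≤ p) (hp2 : p ≤ 2) (hσ : nsq σ = 1) (hm : |dot f (v + w) / 2| ≤ len (v - w) / 8)
    (hy : |dot f (v - w) / 2| ≤ len (v - w) / 16) (hT : len (v - w) / 4 ≤ |tT f v w σ|) :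
    len (v - w) ^ p / 20 ≤ sI p f v w σ :=
  op_y hp hp2 (len_nonneg _) hm hy hT

lemma sI_m0 (hp : 1 < p) (hp2 : p ≤ 2) (hvw : v ≠ w) (hσ : nsq σ = 1)
    (hm : len (v - w) / 8 ≤ |dot f (v + w) / 2|)
    (hy : |dot f (v - w) / 2| ≤ len (v - w) / 16) :
    -(8 * (p - 1) * ((dot f (v - w) / 2) ^ 2 * |dot f (v + w) / 2| ^ (p - 2)) * (1 - cosTh v w σ)) ≤
      sI p f v w σ := by
  have hD := len_pos (sub_ne_zero.2 hvw)
  have h1 := Hp_avg hp.le (dot f (v + w) / 2) (cosTh v w σ * (dot f (v - w) / 2)) (tT f v w σ)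
  have h2 := Hp_lossm hp hp2 (abs_cosTh_le (v := v) (w := w) hσ) (m := dot f (v + w) / 2)
    (y := dot f (v - w) / 2) (by linarith) (by linarith)
  have h3 : (0 : ℝ) ≤ 8 * (p - 1) * ((dot f (v - w) / 2) ^ 2 * |dot f (v + w) / 2| ^ (p - 2)) := by
    have : 0 ≤ p - 1 := by linarith
    positivity
  have h4 := mul_le_mul_of_nonneg_left (op_abs (x := cosTh v w σ)) h3
  unfold sI
  linarith

lemma sI_m (hp : 1 < p) (hp2 : p ≤ 2) (hvw : v ≠ w) (hσ : nsq σ = 1)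
    (hm : len (v - w) / 8 ≤ |dot f (v + w) / 2|)
    (hy : |dot f (v - w) / 2| ≤ len (v - w) / 16) (hT : len (v - w) / 4 ≤ |tT f v w σ|)
    (hT2 : |tT f v w σ| ≤ 4 / 5 * len (v - w)) :
    (p - 1) / 128 * (len (v - w) ^ 2 * |dot f (v + w) / 2| ^ (p - 2)) -
      8 * (p - 1) * ((dot f (v - w) / 2) ^ 2 * |dot f (v + w) / 2| ^ (p - 2)) * (1 - cosTh v w σ) ≤
      sI p f v w σ := by
  have hD := len_pos (sub_ne_zero.2 hvw)
  have hx := abs_cosTh_le (v := v) (w := w) hσ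
  have h1 := Hp_gain hp hp2 (dot f (v + w) / 2) (cosTh v w σ * (dot f (v - w) / 2)) (tT f v w σ)
  have h2 := Hp_lossm hp hp2 (abs_cosTh_le (v := v) (w := w) hσ) (m := dot f (v + w) / 2)
    (y := dot f (v - w) / 2) (by linarith) (by linarith)
  have h3 : (0 : ℝ) ≤ 8 * (p - 1) * ((dot f (v - w) / 2) ^ 2 * |dot f (v + w) / 2| ^ (p - 2)) := by
    have : 0 ≤ p - 1 := by linarith
    positivity
  have h4 := mul_le_mul_of_nonneg_left (op_abs (x := cosTh v w σ)) h3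
  have hm0 : 0 < |dot f (v + w) / 2| := by linarith
  have h5 : |cosTh v w σ * (dot f (v - w) / 2)| ≤ |dot f (v - w) / 2| := by
    rw [abs_mul]
    exact mul_le_of_le_one_left (abs_nonneg _) hx
  have h6 : |dot f (v + w) / 2| + |cosTh v w σ * (dot f (v - w) / 2)| + |tT f v w σ| ≤
      8 * |dot f (v + w) / 2| := by linarith
  have h7 : 0 < |dot f (v + w) / 2| + |cosTh v w σ * (dot f (v - w) / 2)| + |tT f v w σ| := by
    positivity
  have h8 : |dot f (v + w) / 2| ^ (p - 2) / 8 ≤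
      (|dot f (v + w) / 2| + |cosTh v w σ * (dot f (v - w) / 2)| + |tT f v w σ|) ^ (p - 2) := by
    have h9 := Real.rpow_le_rpow_of_nonpos h7 h6 (by linarith : p - 2 ≤ 0)
    refine le_trans ?_ h9
    rw [Real.mul_rpow (by norm_num) hm0.le]
    have h10 : (8 : ℝ) ^ (-1 : ℝ) ≤ 8 ^ (p - 2) :=
      Real.rpow_le_rpow_of_exponent_le (by norm_num) (by linarith)
    rw [Real.rpow_neg_one] at h10
    have h11 : (0 : ℝ) ≤ |dot f (v + w) / 2| ^ (p - 2) := by positivity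
    have h12 := mul_le_mul_of_nonneg_right h10 h11
    linarith
  have h13 : len (v - w) ^ 2 / 16 ≤ tT f v w σ ^ 2 := by
    have h14 := mul_self_le_mul_self (by positivity) hT
    have h15 : |tT f v w σ| * |tT f v w σ| = tT f v w σ ^ 2 := by rw [abs_mul_abs_self]; ring
    rw [h15] at h14
    linarith
  have h16 : (len (v - w) ^ 2 / 16) * (|dot f (v + w) / 2| ^ (p - 2) / 8) ≤ tT f v w σ ^ 2 *
      (|dot f (v + w) / 2| + |cosTh v w σ * (dot f (v - w) / 2)| + |tT f v w σ|) ^ (p - 2) :=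
    mul_le_mul h13 h8 (by positivity) (by positivity)
  have h17 := mul_le_mul_of_nonneg_left h16 (by linarith : 0 ≤ p - 1)
  unfold sI
  linarith

lemma one_ball (hvw : v ≠ w) (hf : 1 ≤ nsq f) (hf2 : nsq f ≤ 2)
    (h : |dot f (v - w)| ≤ len (v - w) / 8) : ∃ σ₀ : Vec d, nsq σ₀ = 1 ∧
      ∀ σ, nsq σ = 1 → nsq (σ - σ₀) ≤ (1 / 10) ^ 2 → 0 ≤ cosTh v w σ ∧ cosTh v w σ ≤ 3 / 4 ∧
        len (v - w) / 4 ≤ |tT f v w σ| ∧ |tT f v w σ| ≤ 4 / 5 * len (v - w) := by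
  have hD := len_pos (sub_ne_zero.2 hvw)
  obtain ⟨k, hk⟩ : ∃ k, k = dirk v w := ⟨_, rfl⟩
  have hk1 : nsq k = 1 := by rw [hk]; exact nsq_dirk hvw
  obtain ⟨κ, hκ⟩ : ∃ κ, κ = dot f k := ⟨_, rfl⟩
  have hDk : dot f (v - w) = len (v - w) * κ := by
    rw [hκ, ← dot_smul, hk, len_smul_dirk]
  have hκ8 : |κ| ≤ 1 / 8 := by
    rw [hDk, abs_mul, abs_of_pos hD] at h
    by_contra hc
    push Not at hc
    nlinarith
  have hκ2 : κ ^ 2 ≤ 1 / 64 := by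
    have h1 := sq_le_sq' (by linarith [neg_abs_le κ]) (by linarith [le_abs_self κ] : κ ≤ 1 / 8)
    linarith
  obtain ⟨g, hg⟩ : ∃ g, g = f - κ • k := ⟨_, rfl⟩
  have hgk : dot k g = 0 := by
    rw [hg, dot_sub, dot_smul, dot_self, hk1, dot_comm, hκ]
    ring
  have hgn : nsq g = nsq f - κ ^ 2 := by
    rw [hg, nsq_sub, dot_smul, nsq_smul, hk1, ← hκ]
    ring
  obtain ⟨G, hG⟩ : ∃ G, G = len g := ⟨_, rfl⟩
  have hG0 : 0 ≤ G := by rw [hG]; exact len_nonneg _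
  have hG2 : G ^ 2 = nsq f - κ ^ 2 := by rw [hG, len_sq, hgn]
  have hGl : 99 / 100 ≤ G := by
    by_contra hc
    push Not at hc
    nlinarith
  have hGu : G ≤ 142 / 100 := by
    by_contra hc
    push Not at hc
    nlinarith [sq_nonneg κ]
  obtain ⟨n, hn⟩ : ∃ n, n = G⁻¹ • g := ⟨_, rfl⟩
  have hn1 : nsq n = 1 := by
    rw [hn, nsq_smul, hgn, ← hG2, inv_pow, inv_mul_cancel₀ (by positivity)]
  have hkn : dot k n = 0 := by rw [hn, dot_smul, hgk, mul_zero]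
  have hGn : g = G • n := by
    rw [hn, smul_inv_smul₀ (by positivity)]
  refine ⟨(3 / 5 : ℝ) • k + (4 / 5 : ℝ) • n, ?_, ?_⟩
  · rw [nsq_add, nsq_smul, nsq_smul, smul_dot, dot_smul, hkn, hk1, hn1]
    norm_num
  · intro σ hσ hσ0
    have hδ : ∀ u : Vec d, nsq u = 1 →
        |dot u σ - dot u ((3 / 5 : ℝ) • k + (4 / 5 : ℝ) • n)| ≤ 1 / 10 := by
      intro u hu
      rw [← dot_sub]
      have h1 := dot_sq_le u (σ - ((3 / 5 : ℝ) • k + (4 / 5 : ℝ) • n))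
      rw [hu, one_mul] at h1
      exact abs_le_of_sq_le_sq (h1.trans hσ0) (by norm_num)
    have h1 := abs_le.1 (hδ k hk1)
    have h2 := abs_le.1 (hδ n hn1)
    rw [dot_add, dot_smul, dot_smul, dot_self, hk1, hkn] at h1
    rw [dot_add, dot_smul, dot_smul, dot_self, hn1, dot_comm n k, hkn] at h2
    have h3 : dot n σ ≤ 1 := (le_abs_self _).trans (dot_le_one hn1 hσ)
    have hcos : cosTh v w σ = dot k σ := by rw [cosTh_eq, hk]
    have hT : tT f v w σ = len (v - w) / 2 * (G * dot n σ) := by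
      unfold tT
      have h4 : G * dot n σ = dot f σ - κ * dot k σ := by
        rw [← smul_dot, ← hGn, hg, dot_comm, dot_sub, dot_smul, dot_comm σ f, dot_comm σ k]
      rw [h4, hcos, hDk]
      ring
    have h5 : 0 ≤ G * dot n σ := mul_nonneg hG0 (by linarith [h2.1])
    have h6 : 99 / 100 * (7 / 10) ≤ G * dot n σ :=
      mul_le_mul hGl (by linarith [h2.1]) (by norm_num) hG0
    have h7 : G * dot n σ ≤ 142 / 100 * 1 :=
      mul_le_mul hGu h3 (by linarith [h2.1]) (by norm_num)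
    refine ⟨?_, ?_, ?_, ?_⟩
    · rw [hcos]; linarith [h1.1]
    · rw [hcos]; linarith [h1.2]
    · rw [hT, abs_of_nonneg (by positivity)]
      nlinarith
    · rw [hT, abs_of_nonneg (by positivity)]
      nlinarith

end Pool.Agent.H15.UP
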